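import Mathlib.Tactic.Monotonicity.Lemmas
import Mathlib.Algebra.Order.Star.Real
import Mathlib.Analysis.Complex.ExponentialBounds
import Mathlib.Data.Finset.Functor
import Pool.Agent.MP_0f075e_lc.Upper

-- ======== part 0: formerly Pool.Agent.MP_0f075e_lc.H37.Det
section MrgPart0

/-! A collapsing history-tree determinisation. -/

namespace Pool.Agent.MP_0f075e_lc.H37

open Classical in
/-- Normalise a name: cut at the first prefix that hosts nothing. -/
noncomputable def nrm : (Nm → Prop) → (Nm → Prop) → Nm → Nm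
  | _, _, [] => []
  | H, G, c :: x => if H [] then c :: nrm (fun y => H (c :: y)) (fun y => G (c :: y)) x
      else if c = true ∧ G [] then [true] else []

/-- All proper prefixes satisfy `H`. -/
def PP (H : Nm → Prop) (v : Nm) : Prop := ∀ p, p <+: v → p ≠ v → H p

lemma PP.nil (H : Nm → Prop) : PP H [] := fun _ hp hne => absurd (List.prefix_nil.1 hp) hne

lemma pp_cons {H : Nm → Prop} {c : Bool} {v : Nm} :
    PP H (c :: v) ↔ H [] ∧ PP (fun y => H (c :: y)) v := by
  constructor
  · intro h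
    exact ⟨h [] List.nil_prefix (by simp),
      fun p hp hne => h _ (by simpa using hp) (by simpa using hne)⟩
  · rintro ⟨h0, h1⟩ p hp hne
    rcases p with _ | ⟨d, p⟩
    · exact h0
    · rw [List.cons_prefix_cons] at hp
      obtain ⟨rfl, hp⟩ := hp
      exact h1 p hp (by simpa using hne)

lemma pp_concat {H : Nm → Prop} {c : Bool} {v : Nm} : PP H (v ++ [c]) ↔ PP H v ∧ H v := by
  constructor
  · intro h
    refine ⟨fun p hp hne => h p (hp.trans (List.prefix_append _ _)) ?_,
      h v (List.prefix_append _ _) (by simp)⟩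
    rintro rfl
    have := hp.length_le
    simp at this
  · rintro ⟨h1, h2⟩ p hp hne
    rcases List.prefix_concat_iff.1 hp with h | h
    · exact absurd h hne
    · by_cases e : p = v
      · rw [e]; exact h2
      · exact h1 p h e

lemma PP.mono {H H' : Nm → Prop} {v : Nm} (h : PP H v) (hh : ∀ p, H p → H' p) : PP H' v :=
  fun p hp hne => hh p (h p hp hne)

lemma PP.pre {H : Nm → Prop} {v u : Nm} (h : PP H v) (hu : u <+: v) : PP H u := by
  intro p hp hne
  refine h p (hp.trans hu) ?_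
  rintro rfl
  exact hne (hp.eq_of_length_le hu.length_le)

lemma nrm_pre (x : Nm) : ∀ H G : Nm → Prop, nrm H G x <+: x := by
  induction x with
  | nil => intro H G; simp [nrm]
  | cons c x ih =>
    intro H G
    simp only [nrm]
    split_ifs with h1 h2
    · exact List.cons_prefix_cons.2 ⟨rfl, ih _ _⟩
    · rw [h2.1]; simp
    · exact List.nil_prefix

lemma nrm_app (v : Nm) : ∀ (H G : Nm → Prop) (y : Nm), PP H v →
    nrm H G (v ++ y) = v ++ nrm (fun z => H (v ++ z)) (fun z => G (v ++ z)) y := by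
  induction v with
  | nil => intro H G y _; simp
  | cons c v ih =>
    intro H G y h
    rw [pp_cons] at h
    simp only [List.cons_append, nrm, h.1, if_true, ih _ _ y h.2]

lemma nrm_self {H G : Nm → Prop} {v : Nm} (h : PP H v) : nrm H G v = v := by
  have := nrm_app v H G [] h
  simpa [nrm] using this

lemma nrm_in {H G : Nm → Prop} {v x : Nm} (h : PP H v) (hx : v <+: x) : v <+: nrm H G x := by
  obtain ⟨y, rfl⟩ := hx
  rw [nrm_app v H G y h]; exact List.prefix_append _ _

open Classical in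
lemma nrm_cut {H G : Nm → Prop} {v : Nm} (h : PP H v) (h0 : ¬ H v) (c : Bool) (y : Nm) :
    nrm H G (v ++ c :: y) = if c = true ∧ G v then v ++ [true] else v := by
  rw [nrm_app v H G _ h]
  simp only [nrm, List.append_nil, h0, if_false]
  split_ifs <;> simp

lemma cut_ex (x : Nm) : ∀ H : Nm → Prop,
    PP H x ∨ ∃ v c y, x = v ++ c :: y ∧ PP H v ∧ ¬ H v := by
  induction x with
  | nil => intro H; exact Or.inl (PP.nil H)
  | cons c x ih =>
    intro H
    by_cases h0 : H []
    · rcases ih (fun y => H (c :: y)) with h | ⟨v, d, y, rfl, h1, h2⟩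
      · exact Or.inl (pp_cons.2 ⟨h0, h⟩)
      · exact Or.inr ⟨c :: v, d, y, rfl, pp_cons.2 ⟨h0, h1⟩, h2⟩
    · exact Or.inr ⟨[], c, x, rfl, PP.nil H, h0⟩

section
variable {Q : Type}

/-- The names in use are closed under prefixes. -/
def Cl (h : Q → Option Nm) : Prop := ∀ a v p, h a = some v → p <+: v → ∃ a', h a' = some p

def HS (g : Q → Option Nm) (w : Nm) : Prop := ∃ b, g b = some w

def GD (g : Q → Option Nm) (w : Nm) : Prop := ∃ b x, g b = some x ∧ w ++ [false] <+: x

/-- The node survives without a breakpoint. -/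
def Nv (g : Q → Option Nm) (v : Nm) : Prop := PP (HS g) v ∧ HS g v

/-- The node has a breakpoint. -/
def Fv (g : Q → Option Nm) (v : Nm) : Prop := PP (HS g) v ∧ ¬ HS g v ∧ GD g v

noncomputable def nm (g : Q → Option Nm) : Nm → Nm := nrm (HS g) (GD g)

noncomputable def nx (g : Q → Option Nm) (b : Q) : Option Nm := (g b).map (nm g)

lemma nm_pre (g : Q → Option Nm) (x : Nm) : nm g x <+: x := nrm_pre x _ _

lemma nx_self {g : Q → Option Nm} {b : Q} {v : Nm} (h : g b = some v) (hp : PP (HS g) v) :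
    nx g b = some v := by
  simp [nx, h, nm, nrm_self hp]

lemma nm_F {g : Q → Option Nm} {v x : Nm} (h : Fv g v) (hx : v ++ [false] <+: x) :
    nm g x = v := by
  obtain ⟨y, rfl⟩ := hx
  have := nrm_cut (G := GD g) h.1 h.2.1 false y
  simpa [nm] using this

lemma nm_E {g : Q → Option Nm} {v x : Nm} (h : PP (HS g) v) (h1 : ¬ HS g v) (h2 : ¬ GD g v)
    (hx : v ++ [true] <+: x) : nm g x = v := by
  obtain ⟨y, rfl⟩ := hx
  have := nrm_cut (G := GD g) h h1 true y
  simpa [nm, h2] using this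

lemma host_nx {g : Q → Option Nm} {v : Nm} (h : Nv g v ∨ Fv g v) : HS (nx g) v := by
  rcases h with ⟨h1, b, hb⟩ | h
  · exact ⟨b, nx_self hb h1⟩
  · obtain ⟨b, x, h1, h2⟩ := h.2.2
    exact ⟨b, by simp [nx, h1, nm_F h h2]⟩

lemma nx_cl (g : Q → Option Nm) : Cl (nx g) := by
  intro a v p h hp
  obtain ⟨x, hx, rfl⟩ := Option.map_eq_some_iff.1 h
  by_cases e : p = nm g x
  · exact ⟨a, by rw [h, e]⟩
  rcases cut_ex x (HS g) with h1 | ⟨u, c, y, rfl, h1, h2⟩
  · have e1 : nm g x = x := nrm_self h1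
    rw [e1] at hp e
    exact host_nx (Or.inl ⟨h1.pre hp, h1 p hp e⟩)
  · have e1 := nrm_cut (G := GD g) h1 h2 c y
    have key : p <+: u → p ≠ u → ∃ a', nx g a' = some p :=
      fun hp e => host_nx (Or.inl ⟨h1.pre hp, h1 p hp e⟩)
    unfold nm at hp e
    split_ifs at e1 with h3
    · rw [e1] at hp e
      rcases List.prefix_concat_iff.1 hp with h4 | h4
      · exact absurd h4 e
      · by_cases e2 : p = u
        · rw [e2]; exact host_nx (Or.inr ⟨h1, h2, h3.2⟩)
        · exact key h4 e2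
    · rw [e1] at hp e
      exact key hp e

lemma pre_cases {v x : Nm} (h : v <+: x) :
    x = v ∨ v ++ [false] <+: x ∨ v ++ [true] <+: x := by
  obtain ⟨y, rfl⟩ := h
  rcases y with _ | ⟨c, y⟩
  · simp
  · cases c
    · right; left; exact ⟨y, by simp⟩
    · right; right; exact ⟨y, by simp⟩

lemma not_both {v x : Nm} (h1 : v ++ [false] <+: x) (h2 : v ++ [true] <+: x) : False := by
  obtain ⟨y, rfl⟩ := h1
  obtain ⟨z, hz⟩ := h2
  simp at hz

lemma not_self {v : Nm} {c : Bool} (h : v ++ [c] <+: v) : False := by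
  have := h.length_le
  simp at this

lemma anc_nm {g : Q → Option Nm} {v x : Nm} (h : Nv g v ∨ Fv g v) (hx : Anc v (nm g x)) :
    Anc v x := by
  rcases pre_cases (hx.pre.trans (nm_pre g x)) with h1 | h1 | h1
  · exact Or.inl h1
  · exact Or.inr h1
  · exfalso
    have h2 : v ++ [true] <+: nm g x := by
      rcases h with h | h
      · exact nrm_in (pp_concat.2 h) h1
      · obtain ⟨y, rfl⟩ := h1
        have := nrm_cut (G := GD g) h.1 h.2.1 true y
        simp only [h.2.2, and_self, if_true] at this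
        simp only [nm, List.append_assoc, List.singleton_append, this]
        exact List.prefix_refl _
    rcases hx with h3 | h3
    · rw [h3] at h2; exact not_self h2
    · exact not_both h3 h2

lemma anc_F {g : Q → Option Nm} {v x : Nm} (h : Fv g v) (hx : Anc v (nm g x)) : nm g x = v := by
  rcases anc_nm (Or.inr h) hx with h1 | h1
  · rw [h1]; exact nrm_self h.1
  · exact nm_F h h1

variable (acc : Set Q) (h : Q → Option Nm) (R : Q → Q → Prop)

def cnd (b : Q) (c : Nm) : Prop :=
  ∃ a u, h a = some u ∧ R a b ∧ (c = u ∨ (b ∈ acc ∧ c = spawn (Nat.card Q) u))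

open Classical in
noncomputable def pr (b : Q) : Option Nm :=
  if hh : ∃ c, cnd acc h R b c ∧ ∀ c', cnd acc h R b c' → val c ≤ val c' then some hh.choose
  else none

variable {acc h R}

lemma pr_spec {b : Q} {x : Nm} (hx : pr acc h R b = some x) :
    cnd acc h R b x ∧ ∀ c', cnd acc h R b c' → val x ≤ val c' := by
  unfold pr at hx
  split_ifs at hx with h1
  rw [← Option.some.inj hx]; exact h1.choose_spec

lemma pr_ex [Finite Q] {b : Q} {c : Nm} (hc : cnd acc h R b c) : ∃ x, pr acc h R b = some x := by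
  have hfin : {c | cnd acc h R b c}.Finite := by
    refine ((Set.finite_range (fun a => (h a).getD [])).union
      (Set.finite_range (fun a => spawn (Nat.card Q) ((h a).getD [])))).subset ?_
    rintro c ⟨a, u, h1, -, rfl | ⟨-, rfl⟩⟩
    · left; exact ⟨a, by simp [h1]⟩
    · right; exact ⟨a, by simp [h1]⟩
  obtain ⟨x, hx, hm⟩ := Set.exists_min_image _ val hfin ⟨c, hc⟩
  have : ∃ c, cnd acc h R b c ∧ ∀ c', cnd acc h R b c' → val c ≤ val c' := ⟨x, hx, hm⟩
  exact ⟨this.choose, by simp [pr, this]⟩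

lemma pr_acc {b : Q} {x : Nm} (hx : pr acc h R b = some x) (hb : b ∈ acc) :
    ∃ a u, h a = some u ∧ x = spawn (Nat.card Q) u := by
  obtain ⟨⟨a, u, h1, h2, h3 | h3⟩, h4⟩ := pr_spec hx
  · have := h4 _ ⟨a, u, h1, h2, Or.inr ⟨hb, rfl⟩⟩
    rw [h3] at this
    exact absurd (spawn_lt _ u) (not_lt.2 this)
  · exact ⟨a, u, h1, h3.2⟩

lemma pr_nacc {b : Q} {x : Nm} (hx : pr acc h R b = some x) (hb : b ∉ acc) :
    ∃ a, h a = some x := by
  obtain ⟨⟨a, u, h1, -, h3 | h3⟩, -⟩ := pr_spec hx
  · exact ⟨a, by rw [h1, h3]⟩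
  · exact absurd h3.1 hb

end

section
variable {A Q : Type} (B : NBA A Q)

open Classical in
noncomputable def h0 (a : Q) : Option Nm := if a = B.start then some [] else none

lemma h0_cl : Cl (h0 B) := by
  intro a v p h hp
  unfold h0 at h
  split_ifs at h with h1
  obtain rfl := Option.some.inj h
  exact ⟨B.start, by simp [h0, List.prefix_nil.1 hp]⟩

noncomputable def gof (h : Q → Option Nm) (c : A) : Q → Option Nm := pr B.acc h (rel B c)

noncomputable def tk (w : ℕ → A) : ℕ → Q → Option Nm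
  | 0 => h0 B
  | i + 1 => nx (gof B (tk w i) (w i))

lemma tk_cl (w : ℕ → A) (i : ℕ) : Cl (tk B w i) := by
  cases i
  · exact h0_cl B
  · exact nx_cl _

def Cnd (w : ℕ → A) : Prop :=
  ∃ v, (∀ N, ∃ i, N ≤ i ∧ Fv (gof B (tk B w i) (w i)) v) ∧
    ∃ N, ∀ i, N ≤ i → Nv (gof B (tk B w i) (w i)) v ∨ Fv (gof B (tk B w i) (w i)) v

lemma sound' [Finite Q] (w : ℕ → A) (h : Cnd B w) : B.Accepts w := by
  obtain ⟨v, hF, t0, hE⟩ := h
  have hlen : v.length ≤ Nat.card Q := by
    obtain ⟨a, ha⟩ := host_nx (hE t0 le_rfl)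
    exact (length_lt_card _ (nx_cl _) ha).le
  let S : ℕ → Set Q := fun t => {a | ∃ x, tk B w t a = some x ∧ (t0 ≤ t → Anc v x)}
  let R : ℕ → Q → Q → Prop := fun t a b => B.tr a (w t) b ∧
    (b ∉ B.acc → gof B (tk B w t) (w t) b = tk B w t a)
  have hp : ∀ t, ∀ b ∈ S (t + 1), ∃ a ∈ S t, R t a b := by
    rintro t b ⟨x, hx, hv⟩
    obtain ⟨y, hy, rfl⟩ := Option.map_eq_some_iff.1 hx
    obtain ⟨a, u, h1, h2, h3⟩ := (pr_spec hy).1
    refine ⟨a, ⟨u, h1, fun ht => ?_⟩, h2, fun hb => ?_⟩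
    · have h4 := anc_nm (hE t ht) (hv (by omega))
      rcases h3 with rfl | ⟨-, rfl⟩
      · exact h4
      · exact anc_spawn hlen h4
    · rcases h3 with rfl | ⟨h5, -⟩
      · rw [hy, h1]
      · exact absurd h5 hb
  have hne : ∀ t, (S t).Nonempty := by
    have h1 : ∀ k t, t0 + 1 ≤ t + k → (S t).Nonempty := by
      intro k
      induction k with
      | zero =>
        intro t ht
        obtain ⟨t', rfl⟩ : ∃ t', t = t' + 1 := ⟨t - 1, by omega⟩
        obtain ⟨a, ha⟩ := host_nx (hE t' (by omega))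
        exact ⟨a, v, ha, fun _ => Or.inl rfl⟩
      | succ k ih =>
        intro t ht
        obtain ⟨b, hb⟩ := ih (t + 1) (by omega)
        obtain ⟨a, ha, -⟩ := hp t b hb
        exact ⟨a, ha⟩
    exact fun t => h1 (t0 + 1) t (by omega)
  obtain ⟨ρ, hρ⟩ := konig S R hne hp
  refine ⟨ρ, ?_, fun i => (hρ i).2.1, ?_⟩
  · obtain ⟨x, hx, -⟩ := (hρ 0).1
    by_contra hc
    simp [tk, h0, hc] at hx
  · by_contra hc
    push Not at hc
    obtain ⟨t1, h1⟩ := hc
    obtain ⟨t, ht, hb⟩ := hF (max t0 t1)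
    have ht0 : t0 ≤ t := le_of_max_le_left ht
    have ht1 : t1 ≤ t := le_of_max_le_right ht
    have key : ∀ k, tk B w (t + 1 + k) (ρ (t + 1 + k)) = some v := by
      intro k
      induction k with
      | zero =>
        obtain ⟨x, hx, hv⟩ := (hρ (t + 1)).1
        have hx' := hx
        obtain ⟨y, hy, rfl⟩ := Option.map_eq_some_iff.1 hx
        rw [add_zero, hx', anc_F hb (hv (by omega))]
      | succ k ih =>
        have h2 := (hρ (t + 1 + k)).2.2 (h1 _ (by omega))
        rw [ih] at h2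
        have hs := hE (t + 1 + k) (by omega)
        exact nx_self h2 (hs.elim (·.1) (·.1))
    obtain ⟨t', ht', hb'⟩ := hF (t + 1)
    obtain ⟨k, rfl⟩ := Nat.exists_eq_add_of_le ht'
    have h2 := (hρ (t + 1 + k)).2.2 (h1 _ (by omega))
    rw [key k] at h2
    exact hb'.2.1 ⟨_, h2⟩

lemma val_sib {v x : Nm} (h : v ++ [true] <+: x) : val v < val x := by
  obtain ⟨y, rfl⟩ := h
  have := (val_app_lt v [] (true :: y)).2 (by simpa [val] using val_true_pos y)
  simpa using this

lemma complete' [Finite Q] (w : ℕ → A) (h : B.Accepts w) : Cnd B w := by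
  obtain ⟨ρ, hs, htr, hacc⟩ := h
  have hx : ∀ t, ∃ x, tk B w t (ρ t) = some x := by
    intro t
    induction t with
    | zero => exact ⟨[], by simp [tk, h0, hs]⟩
    | succ t ih =>
      obtain ⟨x, hx⟩ := ih
      obtain ⟨y, hy⟩ := pr_ex (acc := B.acc) (R := rel B (w t)) ⟨ρ t, x, hx, htr t, Or.inl rfl⟩
      exact ⟨_, by simp only [tk, nx, gof, hy, Option.map_some]; rfl⟩
  choose x hx using hx
  set g : ℕ → Q → Option Nm := fun t => gof B (tk B w t) (w t) with hg
  have hp : ∀ t, ∃ p, g t (ρ (t + 1)) = some p :=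
    fun t => pr_ex ⟨ρ t, x t, hx t, htr t, Or.inl rfl⟩
  choose p hp using hp
  have hle : ∀ t, val (p t) ≤ val (x t) :=
    fun t => (pr_spec (hp t)).2 _ ⟨ρ t, x t, hx t, htr t, Or.inl rfl⟩
  have hlt : ∀ t, ρ (t + 1) ∈ B.acc → val (p t) < val (x t) := fun t ha =>
    ((pr_spec (hp t)).2 _ ⟨ρ t, x t, hx t, htr t, Or.inr ⟨ha, rfl⟩⟩).trans_lt (spawn_lt _ _)
  have hnext : ∀ t, x (t + 1) = nm (g t) (p t) := by
    intro t
    have := hx (t + 1)
    simp only [tk, nx] at this
    rw [show gof B (tk B w t) (w t) (ρ (t + 1)) = some (p t) from hp t] at this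
    exact (Option.some.inj this).symm
  let Good : Nm → Prop := fun v => ∃ N, ∀ t, N ≤ t → PP (HS (g t)) v ∧ v <+: x t
  by_contra hc
  have hc' : ∀ v N, (∀ t, N ≤ t → Nv (g t) v ∨ Fv (g t) v) → ∃ M, ∀ t, M ≤ t → Nv (g t) v := by
    intro v N hN
    by_contra h1
    push Not at h1
    refine hc ⟨v, fun M => ?_, N, hN⟩
    obtain ⟨t, ht, h2⟩ := h1 (max M N)
    exact ⟨t, le_of_max_le_left ht, (hN t (le_of_max_le_right ht)).resolve_left h2⟩
  have gstep : ∀ v, Good v → ∃ c, Good (v ++ [c]) := by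
    rintro v ⟨N0, hN0⟩
    have hpv : ∀ t, N0 ≤ t → v <+: p t := fun t ht =>
      (hN0 (t + 1) (by omega)).2.trans (by rw [hnext]; exact nm_pre _ _)
    by_cases hA : ∃ t1, N0 ≤ t1 ∧ Anc v (x t1)
    · obtain ⟨t1, ht1, hA⟩ := hA
      have s1 : ∀ t, N0 ≤ t → Anc v (x t) → Anc v (p t) := by
        intro t ht ha
        rcases pre_cases (hpv t ht) with h1 | h1 | h1
        · exact Or.inl h1
        · exact Or.inr h1
        · exact absurd ((hle t).trans ha.le) (not_le.2 (val_sib h1))
      have s2 : ∀ t, N0 ≤ t → Anc v (p t) → (Nv (g t) v ∨ Fv (g t) v) ∧ Anc v (x (t + 1)) := by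
        intro t ht ha
        have hP := (hN0 t ht).1
        rw [hnext]
        rcases ha with h1 | h1
        · exact ⟨Or.inl ⟨hP, _, by rw [hp, h1]⟩, Or.inl (by rw [h1]; exact nrm_self hP)⟩
        · by_cases h2 : HS (g t) v
          · exact ⟨Or.inl ⟨hP, h2⟩, Or.inr (nrm_in (pp_concat.2 ⟨hP, h2⟩) h1)⟩
          · have hF : Fv (g t) v := ⟨hP, h2, _, _, hp t, h1⟩
            exact ⟨Or.inr hF, Or.inl (nm_F hF h1)⟩
      have s3 : ∀ t, t1 ≤ t → Anc v (x t) := by
        intro t ht
        induction t, ht using Nat.le_induction with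
        | base => exact hA
        | succ t ht ih => exact (s2 t (by omega) (s1 t (by omega) ih)).2
      obtain ⟨M, hM⟩ := hc' v t1 (fun t ht => (s2 t (by omega) (s1 t (by omega) (s3 t ht))).1)
      have s4 : ∀ t, t1 ≤ t → M ≤ t → val (p t) < val v → v ++ [false] <+: x (t + 1) := by
        intro t h1 h2 h3
        rw [hnext]
        rcases s1 t (by omega) (s3 t h1) with h4 | h4
        · rw [h4] at h3; exact absurd h3 (lt_irrefl _)
        · exact nrm_in (pp_concat.2 (hM t h2)) h4
      obtain ⟨t2, ht2, ha⟩ := hacc (max t1 M + 1)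
      obtain ⟨t3, rfl⟩ : ∃ t3, t2 = t3 + 1 := ⟨t2 - 1, by omega⟩
      refine ⟨false, t3 + 1, fun t ht => ⟨pp_concat.2 (hM t (by omega)), ?_⟩⟩
      induction t, ht using Nat.le_induction with
      | base => exact s4 t3 (by omega) (by omega) ((hlt t3 ha).trans_le (s3 t3 (by omega)).le)
      | succ t ht ih => exact s4 t (by omega) (by omega) ((hle t).trans_lt (val_lt_of_desc ih))
    · push Not at hA
      have s1 : ∀ t, N0 ≤ t → v ++ [true] <+: x t := by
        intro t ht
        rcases pre_cases (hN0 t ht).2 with h1 | h1 | h1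
        · exact absurd (Or.inl h1) (hA t ht)
        · exact absurd (Or.inr h1) (hA t ht)
        · exact h1
      obtain ⟨M, hM⟩ := hc' v N0 (fun t ht => by
        have hP := (hN0 t ht).1
        by_cases h2 : HS (g t) v
        · exact Or.inl ⟨hP, h2⟩
        by_cases h3 : GD (g t) v
        · exact Or.inr ⟨hP, h2, h3⟩
        exfalso
        have h4 := s1 (t + 1) (by omega)
        rw [hnext] at h4
        rw [nm_E hP h2 h3 (h4.trans (nm_pre _ _))] at h4
        exact not_self h4)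
      exact ⟨true, max N0 M, fun t ht =>
        ⟨pp_concat.2 (hM t (le_of_max_le_right ht)), s1 t (le_of_max_le_left ht)⟩⟩
  have : ∀ k, ∃ v, Good v ∧ v.length = k := by
    intro k
    induction k with
    | zero => exact ⟨[], ⟨0, fun t _ => ⟨PP.nil _, List.nil_prefix⟩⟩, rfl⟩
    | succ k ih =>
      obtain ⟨v, hv, hk⟩ := ih
      obtain ⟨c, h1⟩ := gstep v hv
      exact ⟨_, h1, by simp [hk]⟩
  obtain ⟨v, ⟨N, h1⟩, h2⟩ := this (Nat.card Q)
  have h3 := length_lt_card _ (tk_cl B w N) (hx N)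
  have := (h1 N le_rfl).2.length_le
  omega

theorem cnd_iff [Finite Q] (w : ℕ → A) : B.Accepts w ↔ Cnd B w := ⟨complete' B w, sound' B w⟩

end

end Pool.Agent.MP_0f075e_lc.H37

end MrgPart0

-- ======== part 1: formerly Pool.Agent.MP_0f075e_lc.H37.Tree
section MrgPart1

/-! Marked trees, their enumeration and a weighted count. -/

namespace Pool.Agent.MP_0f075e_lc.H37

open Finset

set_option linter.unusedSectionVars false

/-- A region of a marked history tree. -/
inductive Tr (Q : Type) : Type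
  | nil : Tr Q
  | e : Finset Q → Tr Q
  | f : Finset Q → Finset Q → Tr Q
  | n : Finset Q → Tr Q → Tr Q → Tr Q

section
variable {Q : Type}

def sh (c : Bool) (g : Q → Option Nm) (b : Q) : Option Nm :=
  (g b).bind fun x => match x with
    | [] => none
    | d :: y => if d = c then some y else none

lemma sh_eq {c : Bool} {g : Q → Option Nm} {b : Q} {y : Nm} :
    sh c g b = some y ↔ g b = some (c :: y) := by
  unfold sh
  rcases g b with _ | _ | ⟨d, x⟩
  · simp
  · simp
  · by_cases h : d = c <;> simp [h]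

lemma HS_sh (c : Bool) (g : Q → Option Nm) : HS (sh c g) = fun y => HS g (c :: y) := by
  funext y; simp only [HS, sh_eq]

lemma GD_sh (c : Bool) (g : Q → Option Nm) : GD (sh c g) = fun y => GD g (c :: y) := by
  funext y
  simp only [GD, sh_eq, eq_iff_iff]
  constructor
  · rintro ⟨b, x, h1, h2⟩; exact ⟨b, _, h1, by simpa using h2⟩
  · rintro ⟨b, x, h1, z, rfl⟩; exact ⟨b, y ++ [false] ++ z, by simpa using h1, z, rfl⟩

def Fuel (d : ℕ) (g : Q → Option Nm) : Prop :=
  ∀ b x v, g b = some x → v <+: x → PP (HS g) v → v.length < d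

lemma Fuel.sh {d : ℕ} {g : Q → Option Nm} (h : Fuel (d + 1) g) (h0 : HS g []) (c : Bool) :
    Fuel d (sh c g) := by
  intro b x v h1 h2 h3
  rw [HS_sh] at h3
  have := h b _ (c :: v) (sh_eq.1 h1) (by simpa using h2) (pp_cons.2 ⟨h0, h3⟩)
  simpa using this

lemma Fuel.none {g : Q → Option Nm} (h : Fuel 0 g) (b : Q) : g b = none := by
  rcases hb : g b with _ | x
  · rfl
  · exact absurd (h b x [] hb List.nil_prefix (PP.nil _)) (by simp)

lemma fuel_card [Finite Q] (g : Q → Option Nm) : Fuel (Nat.card Q) g := by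
  intro b x v h1 h2 h3
  have h4 : nx g b = some (nm g x) := by simp [nx, h1]
  exact (nrm_in h3 h2).length_le.trans_lt (length_lt_card _ (nx_cl g) h4)

def isN : Tr Q → Nm → Prop
  | .n _ _ _, [] => True
  | .n _ l _, false :: x => isN l x
  | .n _ _ r, true :: x => isN r x
  | _, _ => False

def isF : Tr Q → Nm → Prop
  | .f _ _, [] => True
  | .n _ l _, false :: x => isF l x
  | .n _ _ r, true :: x => isF r x
  | _, _ => False

lemma Nv_cons {g : Q → Option Nm} {c : Bool} {v : Nm} :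
    Nv g (c :: v) ↔ HS g [] ∧ Nv (sh c g) v := by
  simp only [Nv, pp_cons, HS_sh, and_assoc]

lemma Fv_cons {g : Q → Option Nm} {c : Bool} {v : Nm} :
    Fv g (c :: v) ↔ HS g [] ∧ Fv (sh c g) v := by
  simp only [Fv, pp_cons, HS_sh, GD_sh, and_assoc]

lemma Nv_nil {g : Q → Option Nm} : Nv g [] ↔ HS g [] := by simp [Nv, PP.nil]

lemma Fv_nil {g : Q → Option Nm} : Fv g [] ↔ ¬ HS g [] ∧ GD g [] := by simp [Fv, PP.nil]

variable [DecidableEq Q]

def pos : Tr Q → Q → Option Nm
  | .nil, _ => none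
  | .e A, b => if b ∈ A then some [] else none
  | .f A B, b => if b ∈ A then some [] else if b ∈ B then some [true] else none
  | .n O l r, b => if b ∈ O then some [] else
      ((pos l b).map (false :: ·)).orElse fun _ => (pos r b).map (true :: ·)

def all : ℕ → Finset Q → Multiset (Tr Q)
  | 0, S => if S = ∅ then {.nil} else 0
  | d + 1, S => (if S = ∅ then {.nil} else 0) + {.e S} +
      S.powerset.val.map (fun A => .f A (S \ A)) +
      S.powerset.val.bind fun O => (S \ O).powerset.val.bind fun L =>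
        (all d L).bind fun l => (all d ((S \ O) \ L)).map fun r => .n O l r

variable [Fintype Q]

def sup (g : Q → Option Nm) : Finset Q := univ.filter fun b => g b ≠ none

def own (g : Q → Option Nm) (v : Nm) : Finset Q := univ.filter fun b => g b = some v

lemma mem_sup {g : Q → Option Nm} {b : Q} : b ∈ sup g ↔ ∃ x, g b = some x := by
  simp [sup, Option.ne_none_iff_exists']

lemma mem_own {g : Q → Option Nm} {v : Nm} {b : Q} : b ∈ own g v ↔ g b = some v := by
  simp [own]

lemma mem_sup_sh {g : Q → Option Nm} {c : Bool} {b : Q} :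
    b ∈ sup (sh c g) ↔ ∃ x, g b = some (c :: x) := by
  simp only [mem_sup, sh_eq]

open Classical in
noncomputable def build : ℕ → (Q → Option Nm) → Tr Q
  | 0, _ => .nil
  | d + 1, g => if HS g [] then .n (own g []) (build d (sh false g)) (build d (sh true g))
      else if GD g [] then .f (sup (sh false g)) (sup (sh true g))
      else if sup g = ∅ then .nil else .e (sup g)

lemma GD_nil {g : Q → Option Nm} : GD g [] ↔ ∃ b y, g b = some (false :: y) := by
  constructor
  · rintro ⟨b, x, h1, y, rfl⟩; exact ⟨b, y, h1⟩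
  · rintro ⟨b, y, h⟩; exact ⟨b, _, h, y, rfl⟩

lemma pos_build (d : ℕ) : ∀ (g : Q → Option Nm), Fuel d g → pos (build d g) = nx g := by
  induction d with
  | zero => intro g h; funext b; simp [build, pos, nx, h.none b]
  | succ d ih =>
    intro g h
    funext b
    unfold build
    split_ifs with h1 h2 h3
    · simp only [pos, ih _ (h.sh h1 false), ih _ (h.sh h1 true), mem_own, nx]
      rcases hb : g b with _ | _ | ⟨c, x⟩
      · simp [sh, hb]
      · simp [nm, nrm]
      · cases c <;> simp [sh, hb, nm, nrm, h1, HS_sh, GD_sh]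
    · simp only [pos, nx]
      rcases hb : g b with _ | _ | ⟨c, x⟩
      · simp [mem_sup_sh, hb]
      · exact absurd ⟨b, hb⟩ h1
      · cases c <;> simp [nm, nrm, h1, h2, mem_sup_sh, hb]
    · have : b ∉ sup g := by rw [h3]; simp
      rw [mem_sup] at this
      rcases hb : g b with _ | x
      · simp [pos, nx, hb]
      · exact absurd ⟨x, hb⟩ this
    · simp only [pos, nx]
      rcases hb : g b with _ | _ | ⟨c, x⟩
      · simp [mem_sup, hb]
      · exact absurd ⟨b, hb⟩ h1
      · simp [nm, nrm, h1, h2, mem_sup, hb]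

lemma isN_build (d : ℕ) : ∀ (g : Q → Option Nm) (v : Nm), Fuel d g →
    (isN (build d g) v ↔ Nv g v) := by
  induction d with
  | zero =>
    intro g v h
    simp only [build, isN, false_iff]
    rintro ⟨-, b, hb⟩
    simp [h.none b] at hb
  | succ d ih =>
    intro g v h
    unfold build
    split_ifs with h1 h2 h3
    · rcases v with _ | ⟨c, v⟩
      · simp [isN, Nv_nil, h1]
      · cases c <;> simp [isN, Nv_cons, h1, ih _ _ (h.sh h1 _)]
    all_goals
      rcases v with _ | ⟨c, v⟩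
      · simp [isN, Nv_nil, h1]
      · simp [isN, Nv_cons, h1]

lemma isF_build (d : ℕ) : ∀ (g : Q → Option Nm) (v : Nm), Fuel d g →
    (isF (build d g) v ↔ Fv g v) := by
  induction d with
  | zero =>
    intro g v h
    simp only [build, isF, false_iff]
    rintro ⟨-, -, b, x, hb, -⟩
    simp [h.none b] at hb
  | succ d ih =>
    intro g v h
    unfold build
    split_ifs with h1 h2 h3
    · rcases v with _ | ⟨c, v⟩
      · simp [isF, Fv_nil, h1]
      · cases c <;> simp [isF, Fv_cons, h1, ih _ _ (h.sh h1 _)]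
    all_goals
      rcases v with _ | ⟨c, v⟩
      · simp [isF, Fv_nil, h1, h2]
      · simp [isF, Fv_cons, h1]

lemma sup_split (g : Q → Option Nm) :
    sup (sh false g) ⊆ sup g \ own g [] ∧
      (sup g \ own g []) \ sup (sh false g) = sup (sh true g) := by
  constructor
  · intro b hb
    obtain ⟨x, hx⟩ := mem_sup_sh.1 hb
    simp [mem_sup, mem_own, hx]
  · ext b
    simp only [mem_sdiff, mem_sup_sh, mem_own]
    rw [mem_sup]
    rcases g b with _ | _ | ⟨c, x⟩
    · simp
    · simp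
    · cases c <;> simp

lemma mem_all (d : ℕ) : ∀ (g : Q → Option Nm), Fuel d g → build d g ∈ all d (sup g) := by
  induction d with
  | zero =>
    intro g h
    have : sup g = ∅ := by ext b; simp [mem_sup, h.none b]
    simp [build, all, this]
  | succ d ih =>
    intro g h
    have hs := sup_split g
    unfold build all
    simp only [Multiset.mem_add]
    by_cases h1 : HS g []
    · rw [if_pos h1]
      right
      simp only [Multiset.mem_bind, Multiset.mem_map, mem_val, mem_powerset]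
      refine ⟨own g [], fun b hb => mem_sup.2 ⟨_, mem_own.1 hb⟩, sup (sh false g), hs.1, _,
        ih _ (h.sh h1 false), _, ?_, rfl⟩
      rw [hs.2]; exact ih _ (h.sh h1 true)
    rw [if_neg h1]
    by_cases h2 : GD g []
    · rw [if_pos h2]
      left; right
      have ho : own g [] = ∅ := by
        ext b; simp only [mem_own, notMem_empty, iff_false]; exact fun hb => h1 ⟨b, hb⟩
      rw [ho, sdiff_empty] at hs
      simp only [Multiset.mem_map, mem_val, mem_powerset]
      exact ⟨_, hs.1, by rw [hs.2]⟩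
    rw [if_neg h2]
    by_cases h3 : sup g = ∅ <;> simp [h3]

end

section
variable {Q : Type} [DecidableEq Q]

def cv (φ ψ : Finset Q → ℝ) (S : Finset Q) : ℝ := ∑ A ∈ S.powerset, φ A * ψ (S \ A)

def one (S : Finset Q) : ℝ := if S = ∅ then 1 else 0

lemma cv_one (ψ : Finset Q → ℝ) (S : Finset Q) : cv one ψ S = ψ S := by
  simp [cv, one]

lemma cv_assoc (φ ψ ρ : Finset Q → ℝ) (S : Finset Q) :
    cv (cv φ ψ) ρ S = cv φ (cv ψ ρ) S := by
  unfold cv
  simp only [sum_mul, mul_sum]
  rw [sum_comm' (t' := S.powerset) (s' := fun A => S.powerset.filter (A ⊆ ·))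
    (fun T A => by
      simp only [mem_powerset, mem_filter]
      exact ⟨fun h => ⟨⟨h.1, h.2⟩, h.2.trans h.1⟩, fun h => h.1⟩)]
  refine sum_congr rfl fun A hA => ?_
  rw [mem_powerset] at hA
  refine sum_nbij' (fun T => T \ A) (fun B => B ∪ A) ?_ ?_ ?_ ?_ ?_
  · intro T hT
    simp only [mem_filter, mem_powerset] at hT ⊢
    exact sdiff_subset_sdiff hT.1 le_rfl
  · intro B hB
    simp only [mem_filter, mem_powerset] at hB ⊢
    exact ⟨union_subset (hB.trans sdiff_subset) hA, subset_union_right⟩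
  · intro T hT
    simp only [mem_filter, mem_powerset] at hT
    exact sdiff_union_of_subset hT.2
  · intro B hB
    simp only [mem_powerset] at hB
    rw [union_sdiff_right]
    exact sdiff_eq_self_of_disjoint (disjoint_of_subset_left hB sdiff_disjoint)
  · intro T hT
    simp only [mem_filter, mem_powerset] at hT
    have : S \ T = (S \ A) \ (T \ A) := by
      ext b
      simp only [mem_sdiff]
      have := @hT.2 b
      tauto
    rw [this, mul_assoc]

lemma cv_nonneg {φ ψ : Finset Q → ℝ} (h1 : ∀ S, 0 ≤ φ S) (h2 : ∀ S, 0 ≤ ψ S) (S : Finset Q) :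
    0 ≤ cv φ ψ S := sum_nonneg fun _ _ => mul_nonneg (h1 _) (h2 _)

lemma one_nonneg (S : Finset Q) : 0 ≤ one S := by unfold one; split_ifs <;> norm_num

/-- Convolution with `φ` multiplies the gauge `ρ` by at most `K`. -/
structure Bd (ρ φ : Finset Q → ℝ) (K : ℝ) : Prop where
  nn : ∀ S, 0 ≤ φ S
  kn : 0 ≤ K
  le : ∀ S, cv φ ρ S ≤ K * ρ S

variable {ρ φ ψ : Finset Q → ℝ} {K K' : ℝ}

lemma bd_one : Bd ρ one 1 := ⟨one_nonneg, zero_le_one, fun S => by rw [cv_one, one_mul]⟩

lemma Bd.cv (h : Bd ρ φ K) (h' : Bd ρ ψ K') : Bd ρ (cv φ ψ) (K * K') := by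
  refine ⟨cv_nonneg h.nn h'.nn, mul_nonneg h.kn h'.kn, fun S => ?_⟩
  rw [cv_assoc]
  calc _ ≤ ∑ A ∈ S.powerset, φ A * (K' * ρ (S \ A)) :=
        sum_le_sum fun A _ => mul_le_mul_of_nonneg_left (h'.le _) (h.nn _)
    _ = K' * H37.cv φ ρ S := by
        rw [H37.cv, mul_sum]; exact sum_congr rfl fun A _ => by ring
    _ ≤ K' * (K * ρ S) := mul_le_mul_of_nonneg_left (h.le _) h'.kn
    _ = _ := by ring

lemma Bd.add (h : Bd ρ φ K) (h' : Bd ρ ψ K') : Bd ρ (fun S => φ S + ψ S) (K + K') := by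
  refine ⟨fun S => add_nonneg (h.nn S) (h'.nn S), add_nonneg h.kn h'.kn, fun S => ?_⟩
  have := add_le_add (h.le S) (h'.le S)
  simp only [H37.cv, add_mul, sum_add_distrib] at this ⊢
  exact this

lemma Bd.smul (h : Bd ρ φ K) {c : ℝ} (hc : 0 ≤ c) : Bd ρ (fun S => c * φ S) (c * K) := by
  refine ⟨fun S => mul_nonneg hc (h.nn S), mul_nonneg hc h.kn, fun S => ?_⟩
  have := mul_le_mul_of_nonneg_left (h.le S) hc
  simp only [H37.cv, mul_sum, mul_assoc] at this ⊢
  exact this

lemma Bd.mono (h : Bd ρ φ K) (hρ : ∀ S, 0 ≤ ρ S) (h0 : ∀ S, 0 ≤ ψ S) (h1 : ∀ S, ψ S ≤ φ S)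
    (h2 : K ≤ K') : Bd ρ ψ K' :=
  ⟨h0, h.kn.trans h2, fun S => (sum_le_sum fun _ _ =>
    mul_le_mul_of_nonneg_right (h1 _) (hρ _)).trans ((h.le S).trans
      (mul_le_mul_of_nonneg_right h2 (hρ _)))⟩

lemma Bd.val (h : Bd ρ φ K) (hρ : ∀ S, 0 ≤ ρ S) (h0 : ρ ∅ = 1) (S : Finset Q) :
    φ S ≤ K * ρ S := by
  refine le_trans ?_ (h.le S)
  have := single_le_sum (f := fun A => φ A * ρ (S \ A)) (s := S.powerset)
    (fun A _ => mul_nonneg (h.nn _) (hρ _)) (mem_powerset_self S)
  simpa [h0, H37.cv] using this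

variable (α φ σ ν : Finset Q → ℝ)

def wt : Tr Q → ℝ
  | .nil => 1
  | .e A => α A
  | .f A B => φ A * σ B
  | .n O l r => ν O * (wt l * wt r)

def WS (d : ℕ) (S : Finset Q) : ℝ := ((all d S).map (wt α φ σ ν)).sum

lemma WS_zero : WS α φ σ ν 0 = one := by
  funext S
  unfold WS all one
  split_ifs <;> simp [wt]

lemma WS_succ (d : ℕ) : WS α φ σ ν (d + 1) = fun S => one S + α S + cv φ σ S +
    cv ν (cv (WS α φ σ ν d) (WS α φ σ ν d)) S := by
  funext S
  conv_lhs => unfold WS all
  simp only [Multiset.map_add, Multiset.sum_add, Multiset.map_bind, Multiset.sum_bind,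
    Multiset.map_map, Function.comp_def, wt, Multiset.map_singleton, Multiset.sum_singleton]
  congr 1
  · congr 2
    unfold one
    split_ifs <;> simp [wt]
  · unfold cv
    simp only [Multiset.sum_map_mul_left, Multiset.sum_map_mul_right]
    simp only [sum_eq_multiset_sum, WS]

variable {α φ σ ν}

theorem bd_WS {a b c u : ℝ} (hρ : ∀ S, 0 ≤ ρ S) (h1 : Bd ρ α a) (h2 : Bd ρ φ b) (h3 : Bd ρ σ c)
    (h4 : Bd ρ ν u) (h : 4 * u * (1 + a + b * c) ≤ 1) (d : ℕ) :
    Bd ρ (WS α φ σ ν d) (2 * (1 + a + b * c)) := by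
  have hD : 1 ≤ 1 + a + b * c := by
    have := mul_nonneg h2.kn h3.kn
    linarith [h1.kn]
  induction d with
  | zero => rw [WS_zero]; exact bd_one.mono hρ one_nonneg (fun _ => le_rfl) (by linarith)
  | succ d ih =>
    rw [WS_succ]
    have := ((bd_one.add h1).add (h2.cv h3)).add (h4.cv (ih.cv ih))
    refine this.mono hρ this.nn (fun _ => le_rfl) ?_
    nlinarith

end

end Pool.Agent.MP_0f075e_lc.H37

end MrgPart1

-- ======== part 2: formerly Pool.Agent.MP_0f075e_lc.H37.Gauge
section MrgPart2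

/-! The two-type gauge and the weights of the marked trees. -/

namespace Pool.Agent.MP_0f075e_lc.H37

open Finset

set_option linter.unusedSectionVars false

section
variable {Q : Type} [DecidableEq Q]

noncomputable def r1 (x : ℝ) (S : Finset Q) : ℝ := (S.card.factorial : ℝ) / x ^ S.card

lemma r1_nonneg {x : ℝ} (hx : 0 < x) (S : Finset Q) : 0 ≤ r1 x S := by unfold r1; positivity

lemma sum_r1 {x : ℝ} (hx : 0 < x) (T : Finset Q) :
    ∑ A ∈ T.powerset, r1 x (T \ A) ≤ Real.exp x * r1 x T := by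
  have h1 : ∑ A ∈ T.powerset, r1 x (T \ A) =
      ∑ A ∈ T.powerset, ((T.card - A.card).factorial : ℝ) / x ^ (T.card - A.card) :=
    sum_congr rfl fun A hA => by rw [r1, card_sdiff_of_subset (mem_powerset.1 hA)]
  rw [h1, sum_powerset_apply_card (fun j => ((T.card - j).factorial : ℝ) / x ^ (T.card - j))]
  have h2 := Real.sum_le_exp_of_nonneg hx.le (T.card + 1)
  refine le_trans (le_of_eq ?_) (mul_le_mul_of_nonneg_right h2 (r1_nonneg hx T))
  rw [sum_mul]
  refine sum_congr rfl fun j hj => ?_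
  have hj' : j ≤ T.card := by simpa [Nat.lt_succ_iff] using hj
  have h3 : (T.card.choose j : ℝ) * j.factorial * (T.card - j).factorial = T.card.factorial := by
    exact_mod_cast Nat.choose_mul_factorial_mul_factorial hj'
  have h4 : x ^ T.card = x ^ j * x ^ (T.card - j) := by rw [← pow_add]; congr 1; omega
  rw [r1, ← h3, h4, nsmul_eq_mul]
  have : (j.factorial : ℝ) ≠ 0 := by positivity
  field_simp

/-- Indicator of the nonempty subsets of `C`. -/
def ind (C A : Finset Q) : ℝ := if A ⊆ C ∧ A ≠ ∅ then 1 else 0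

lemma ind_nonneg (C A : Finset Q) : 0 ≤ ind C A := by unfold ind; split_ifs <;> norm_num

lemma bd_ind {x : ℝ} (hx : 0 < x) (C : Finset Q) (ψ : Finset Q → ℝ) (hψ : ∀ S, 0 ≤ ψ S) :
    Bd (fun S => r1 x (S ∩ C) * ψ (S \ C)) (ind C) (Real.exp x - 1) := by
  refine ⟨ind_nonneg C, by linarith [Real.add_one_le_exp x], fun S => ?_⟩
  have h1 : cv (ind C) (fun S => r1 x (S ∩ C) * ψ (S \ C)) S =
      (∑ A ∈ (S ∩ C).powerset.erase ∅, r1 x ((S ∩ C) \ A)) * ψ (S \ C) := by
    rw [sum_mul, cv]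
    symm
    refine sum_subset_zero_on_sdiff ?_ ?_ ?_
    · intro A hA
      exact mem_powerset.2 ((mem_powerset.1 (mem_of_mem_erase hA)).trans inter_subset_left)
    · intro A hA
      simp only [mem_sdiff, mem_powerset, mem_erase, subset_inter_iff] at hA
      rw [ind, if_neg (by tauto), zero_mul]
    · intro A hA
      simp only [mem_powerset, mem_erase, subset_inter_iff] at hA
      rw [ind, if_pos ⟨hA.2.2, hA.1⟩, one_mul]
      congr 2
      · ext b; simp only [mem_sdiff, mem_inter]; tauto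
      · ext b
        have := @hA.2.2 b
        simp only [mem_sdiff]; tauto
  rw [h1, ← mul_assoc]
  refine mul_le_mul_of_nonneg_right ?_ (hψ _)
  have h2 := add_sum_erase (S ∩ C).powerset (fun A => r1 x ((S ∩ C) \ A)) (empty_mem_powerset _)
  have h3 := sum_r1 hx (S ∩ C)
  simp only [sdiff_empty] at h2
  linarith

variable [Fintype Q]

/-- The gauge: `x` for states outside `C`, `y` for states in `C`. -/
noncomputable def rho (x y : ℝ) (C S : Finset Q) : ℝ := r1 y (S ∩ C) * r1 x (S \ C)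

lemma rho_nonneg {x y : ℝ} (hx : 0 < x) (hy : 0 < y) (C S : Finset Q) : 0 ≤ rho x y C S :=
  mul_nonneg (r1_nonneg hy _) (r1_nonneg hx _)

lemma rho_empty (x y : ℝ) (C : Finset Q) : rho x y C ∅ = 1 := by simp [rho, r1]

lemma bd_in {x y : ℝ} (hx : 0 < x) (hy : 0 < y) (C : Finset Q) :
    Bd (rho x y C) (ind C) (Real.exp y - 1) := bd_ind hy C _ (r1_nonneg hx)

lemma bd_out {x y : ℝ} (hx : 0 < x) (hy : 0 < y) (C : Finset Q) :
    Bd (rho x y C) (ind Cᶜ) (Real.exp x - 1) := by
  have := bd_ind hx Cᶜ _ (r1_nonneg (Q := Q) hy)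
  convert this using 2 with S
  rw [rho, mul_comm]
  congr 2 <;> ext b <;> simp

/-- Indicator of the sets that are not inside `C`. -/
def nin (C A : Finset Q) : ℝ := if A ⊆ C then 0 else 1

lemma one_ind (C A : Finset Q) : one A + ind C A = if A ⊆ C then 1 else 0 := by
  unfold one ind
  by_cases h : A = ∅ <;> simp [h]

lemma cv_ge (φ ψ : Finset Q → ℝ) (h1 : ∀ S, 0 ≤ φ S) (h2 : ∀ S, 0 ≤ ψ S) (C A : Finset Q) :
    φ (A \ C) * ψ (A ∩ C) ≤ cv φ ψ A := by
  have := single_le_sum (f := fun B => φ B * ψ (A \ B)) (s := A.powerset)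
    (fun B _ => mul_nonneg (h1 _) (h2 _)) (mem_powerset.2 (sdiff_subset (s := A) (t := C)))
  simpa [cv] using this

lemma bd_nin {x y : ℝ} (hx : 0 < x) (hy : 0 < y) (C : Finset Q) :
    Bd (rho x y C) (nin C) ((Real.exp x - 1) * Real.exp y) := by
  have h1 := bd_one.add (bd_in hx hy C)
  have h2 := (bd_out hx hy C).cv h1
  refine h2.mono (rho_nonneg hx hy C) (fun S => by unfold nin; split_ifs <;> norm_num)
    (fun S => ?_) (le_of_eq (by ring))
  unfold nin
  split_ifs with h
  · exact h2.nn S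
  · refine le_trans ?_ (cv_ge _ _ (ind_nonneg _) h1.nn C S)
    rw [one_ind, if_pos inter_subset_right, ind, if_pos, one_mul]
    exact ⟨fun b hb => by simpa using (mem_sdiff.1 hb).2, fun h3 => h (sdiff_eq_empty_iff_subset.1 h3)⟩

lemma bd_any {x y : ℝ} (hx : 0 < x) (hy : 0 < y) (C : Finset Q) :
    Bd (rho x y C) (fun _ => 1) (Real.exp (x + y)) := by
  have h1 := bd_one.add (bd_in hx hy C)
  have h0 := bd_one.add (bd_out hx hy C)
  have h2 := h0.cv h1
  refine h2.mono (rho_nonneg hx hy C) (fun S => zero_le_one)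
    (fun S => ?_) (le_of_eq (by rw [Real.exp_add]; ring))
  refine le_trans ?_ (cv_ge _ _ h0.nn h1.nn C S)
  rw [one_ind, one_ind, if_pos inter_subset_right, if_pos, one_mul]
  exact fun b hb => by simpa using (mem_sdiff.1 hb).2

def wa (z : ℝ) (C A : Finset Q) : ℝ := ind C A + z ^ 2 * nin C A
def wf (z : ℝ) (C A : Finset Q) : ℝ := z * ind C A + z ^ 2 * nin C A
def ws (z : ℝ) (C A : Finset Q) : ℝ := one A + ind C A + z * nin C A
def wn (z : ℝ) (C A : Finset Q) : ℝ := z * ind Cᶜ A

/-- The weight of a marked tree: `z` to the number of old nodes it needs. -/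
def wz (z : ℝ) (C : Finset Q) : Tr Q → ℝ := wt (wa z C) (wf z C) (ws z C) (wn z C)

noncomputable def sub (c : Bool) (O : Finset Nm) : Finset Nm :=
  O.preimage (c :: ·) List.cons_injective.injOn

lemma mem_sub {c : Bool} {O : Finset Nm} {y : Nm} : y ∈ sub c O ↔ c :: y ∈ O := by
  simp [sub]

lemma card_sub {O : Finset Nm} (h : [] ∈ O) :
    (sub false O).card + (sub true O).card + 1 ≤ O.card := by
  have h1 : insert [] ((sub false O).image (false :: ·) ∪ (sub true O).image (true :: ·)) ⊆ O := by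
    intro x hx
    simp only [mem_insert, mem_union, mem_image, mem_sub] at hx
    rcases hx with rfl | ⟨y, hy, rfl⟩ | ⟨y, hy, rfl⟩ <;> assumption
  have h2 := card_le_card h1
  rwa [card_insert_of_notMem (by simp), card_union_of_disjoint (by rw [disjoint_left]; simp),
    card_image_of_injective _ List.cons_injective,
    card_image_of_injective _ List.cons_injective] at h2

lemma wz_build {z : ℝ} (z0 : 0 ≤ z) (z1 : z ≤ 1) (C : Finset Q) (d : ℕ) :
    ∀ (g : Q → Option Nm) (O : Finset Nm), (∀ x ∈ O, ∀ p, p <+: x → p ∈ O) →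
      (∀ b x, g b = some x → b ∉ C → x ∈ O) → (∀ b x, g b = some x → b ∈ C → d ≤ x.length) →
      (∀ b x v, g b = some x → v ++ [false] <+: x → v.length < d → v ∈ O) →
      z ^ O.card ≤ wz z C (build d g) := by
  induction d with
  | zero => intro g O _ _ _ _; exact pow_le_one₀ z0 z1
  | succ d ih =>
    intro g O hc h1 h2 h3
    have ih' : ∀ c, z ^ (sub c O).card ≤ wz z C (build d (sh c g)) := fun c =>
      ih _ _ (fun x hx p hp => mem_sub.2 (hc _ (mem_sub.1 hx) _ (by simpa using hp)))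
        (fun b x hx hb => mem_sub.2 (h1 b _ (sh_eq.1 hx) hb))
        (fun b x hx hb => by simpa using h2 b _ (sh_eq.1 hx) hb)
        (fun b x v hx hv hl => mem_sub.2 (h3 b _ (c :: v) (sh_eq.1 hx) (by simpa using hv)
          (by simpa using hl)))
    have hn : ∀ c, ¬ sup (sh c g) ⊆ C → 1 ≤ (sub c O).card := by
      intro c h
      obtain ⟨b, hb, hb'⟩ := not_subset.1 h
      obtain ⟨x, hx⟩ := mem_sup_sh.1 hb
      exact card_pos.2 ⟨x, mem_sub.2 (h1 b _ hx hb')⟩
    unfold build
    split_ifs with a1 a2 a3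
    · have a4 : ∀ b, g b = some [] → b ∉ C := fun b hb hC => by simpa using h2 b _ hb hC
      obtain ⟨b, hb⟩ := a1
      have a5 := card_sub (h1 b _ hb (a4 b hb))
      have a6 : wn z C (own g []) = z := by
        rw [wn, ind, if_pos, mul_one]
        exact ⟨fun b hb => by simpa using a4 b (mem_own.1 hb), ne_empty_of_mem (mem_own.2 hb)⟩
      calc z ^ O.card ≤ z ^ ((sub false O).card + (sub true O).card + 1) :=
            pow_le_pow_of_le_one z0 z1 a5
        _ = z * (z ^ (sub false O).card * z ^ (sub true O).card) := by ring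
        _ ≤ z * (wz z C (build d (sh false g)) * wz z C (build d (sh true g))) := by
            gcongr
            · exact (pow_nonneg z0 _).trans (ih' false)
            · exact ih' false
            · exact ih' true
        _ = _ := by simp only [wz, wt, a6]
    · obtain ⟨b, y, hb⟩ := GD_nil.1 a2
      have a5 := card_sub (h3 b _ [] hb (by simp) (by simp))
      have a6 : z * z ^ (sub false O).card ≤ wf z C (sup (sh false g)) := by
        unfold wf ind nin
        by_cases h : sup (sh false g) ⊆ C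
        · rw [if_pos ⟨h, ne_empty_of_mem (mem_sup_sh.2 ⟨y, hb⟩)⟩, if_pos h]
          have := pow_le_one₀ (n := (sub false O).card) z0 z1
          nlinarith
        · rw [if_neg (by tauto), if_neg h]
          have := pow_le_pow_of_le_one z0 z1 (hn false h)
          nlinarith
      have a7 : z ^ (sub true O).card ≤ ws z C (sup (sh true g)) := by
        unfold ws nin
        rw [one_ind]
        by_cases h : sup (sh true g) ⊆ C
        · simpa [h] using pow_le_one₀ (n := (sub true O).card) z0 z1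
        · simpa [h] using pow_le_pow_of_le_one z0 z1 (hn true h)
      calc z ^ O.card ≤ z ^ ((sub false O).card + (sub true O).card + 1) :=
            pow_le_pow_of_le_one z0 z1 a5
        _ = (z * z ^ (sub false O).card) * z ^ (sub true O).card := by ring
        _ ≤ _ := mul_le_mul a6 a7 (pow_nonneg z0 _) (le_trans (by positivity) a6)
    · exact pow_le_one₀ z0 z1
    · show z ^ O.card ≤ wa z C (sup g)
      unfold wa ind nin
      by_cases h : sup g ⊆ C
      · rw [if_pos ⟨h, a3⟩, if_pos h]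
        simpa using pow_le_one₀ (n := O.card) z0 z1
      · rw [if_neg (by tauto), if_neg h]
        obtain ⟨b, hb, hb'⟩ := not_subset.1 h
        obtain ⟨x, hx⟩ := mem_sup.1 hb
        have h4 := h1 b x hx hb'
        have h5 : x ≠ [] := by rintro rfl; exact a1 ⟨b, hx⟩
        have h6 : 2 ≤ O.card := one_lt_card.2 ⟨x, h4, [], hc x h4 [] List.nil_prefix, h5⟩
        simpa using pow_le_pow_of_le_one z0 z1 h6

def img (h : Q → Option Nm) : Finset Nm := univ.biUnion fun a => (h a).toFinset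

lemma mem_img {h : Q → Option Nm} {x : Nm} : x ∈ img h ↔ ∃ a, h a = some x := by
  simp [img]

lemma card_img (h : Q → Option Nm) : (img h).card ≤ Fintype.card Q := by
  refine card_biUnion_le.trans ?_
  have : ∀ a ∈ (univ : Finset Q), (h a).toFinset.card ≤ 1 := fun a _ => by
    rcases h a with _ | x <;> simp
  simpa using sum_le_card_nsmul _ _ _ this

lemma wz_step {z : ℝ} (z0 : 0 ≤ z) (z1 : z ≤ 1) (C : Finset Q) {h : Q → Option Nm} (hc : Cl h)
    (R : Q → Q → Prop) :
    z ^ Fintype.card Q ≤ wz z C (build (Fintype.card Q) (pr (C : Set Q) h R)) := by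
  have hO : ∀ x ∈ img h, ∀ p, p <+: x → p ∈ img h := fun x hx p hp => by
    obtain ⟨a, ha⟩ := mem_img.1 hx
    exact mem_img.2 (hc a x p ha hp)
  refine (pow_le_pow_of_le_one z0 z1 (card_img h)).trans (wz_build z0 z1 C _ _ _ hO
    (fun b x hx hb => mem_img.2 (pr_nacc hx hb)) (fun b x hx hb => ?_) (fun b x v hx hv hl => ?_))
  · obtain ⟨a, u, -, rfl⟩ := pr_acc hx hb
    simp [spawn]; omega
  · by_cases hb : b ∈ C
    · obtain ⟨a, u, h1, rfl⟩ := pr_acc hx hb
      exact hO u (mem_img.2 ⟨a, h1⟩) v (anc_spawn (by simpa using hl.le) (Or.inr hv)).pre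
    · exact hO x (mem_img.2 (pr_nacc hx hb)) v ((List.prefix_append _ _).trans hv)

lemma wt_nonneg {α φ σ ν : Finset Q → ℝ} (h1 : ∀ S, 0 ≤ α S) (h2 : ∀ S, 0 ≤ φ S)
    (h3 : ∀ S, 0 ≤ σ S) (h4 : ∀ S, 0 ≤ ν S) (T : Tr Q) : 0 ≤ wt α φ σ ν T := by
  induction T with
  | nil => exact zero_le_one
  | e A => exact h1 A
  | f A B => exact mul_nonneg (h2 A) (h3 B)
  | n O l r ihl ihr => exact mul_nonneg (h4 O) (mul_nonneg ihl ihr)

open Classical in
/-- Trees of weight at least `c`. -/
noncomputable def heavy (α φ σ ν : Finset Q → ℝ) (d : ℕ) (c : ℝ) : Finset (Tr Q) :=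
  ((univ : Finset Q).powerset.val.bind (all d)).toFinset.filter fun T => c ≤ wt α φ σ ν T

lemma mem_heavy {α φ σ ν : Finset Q → ℝ} {d : ℕ} {c : ℝ} {T : Tr Q} {S : Finset Q}
    (h : T ∈ all d S) (h' : c ≤ wt α φ σ ν T) : T ∈ heavy α φ σ ν d c := by
  simp only [heavy, mem_filter, Multiset.mem_toFinset, Multiset.mem_bind]
  exact ⟨⟨S, by simp, h⟩, h'⟩

lemma card_heavy {ρ α φ σ ν : Finset Q → ℝ} {a b c u k : ℝ} (hρ : ∀ S, 0 ≤ ρ S) (h0 : ρ ∅ = 1)
    (h1 : Bd ρ α a) (h2 : Bd ρ φ b) (h3 : Bd ρ σ c) (h4 : Bd ρ ν u) (h5 : Bd ρ (fun _ => 1) k)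
    (h : 4 * u * (1 + a + b * c) ≤ 1) (d : ℕ) (m : ℝ) :
    (heavy α φ σ ν d m).card * m ≤ 2 * (1 + a + b * c) * k * ρ univ := by
  classical
  have hw := wt_nonneg h1.nn h2.nn h3.nn h4.nn
  refine le_trans ?_ (((bd_WS hρ h1 h2 h3 h4 h d).cv h5).val hρ h0 univ)
  set M := (univ : Finset Q).powerset.val.bind (all d) with hM
  calc ((heavy α φ σ ν d m).card : ℝ) * m ≤ ∑ T ∈ heavy α φ σ ν d m, wt α φ σ ν T := by
        have := card_nsmul_le_sum (heavy α φ σ ν d m) (wt α φ σ ν) m
          (fun T hT => (mem_filter.1 hT).2)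
        simpa using this
    _ ≤ ∑ T ∈ M.toFinset, wt α φ σ ν T :=
        sum_le_sum_of_subset_of_nonneg (filter_subset _ _) (fun T _ _ => hw T)
    _ ≤ (M.map (wt α φ σ ν)).sum := by
        obtain ⟨M', hM'⟩ := Multiset.le_iff_exists_add.1 (Multiset.dedup_le M)
        conv_rhs => rw [hM']
        rw [Multiset.map_add, Multiset.sum_add]
        refine le_add_of_le_of_nonneg (le_of_eq rfl) (Multiset.sum_nonneg fun x hx => ?_)
        obtain ⟨T, -, rfl⟩ := Multiset.mem_map.1 hx
        exact hw T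
    _ = _ := by
        simp only [hM, Multiset.map_bind, Multiset.sum_bind, cv, mul_one, sum_eq_multiset_sum, WS]

end

end Pool.Agent.MP_0f075e_lc.H37

end MrgPart2

-- ======== part 3: formerly Pool.Agent.MP_0f075e_lc.H37.Up
section MrgPart3

/-! The two upper bounds as counts of heavy trees. -/

namespace Pool.Agent.MP_0f075e_lc.H37

open Finset

set_option linter.unusedSectionVars false

section
variable {A Q : Type} [Fintype Q] [DecidableEq Q]

lemma fuel_card' (g : Q → Option Nm) : Fuel (Fintype.card Q) g := by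
  rw [← Nat.card_eq_fintype_card]; exact fuel_card g

theorem sdra_ex {n : ℕ} (hn : 2 ≤ n) (B : NBA A (Fin n)) {z : ℝ} (z0 : 0 ≤ z) (z1 : z ≤ 1)
    (C : Finset (Fin n)) (hC : (C : Set (Fin n)) = B.acc) :
    ∃ D : SDRA A (Fin (heavy (wa z C) (wf z C) (ws z C) (wn z C) n (z ^ n)).card),
      ∀ w, D.Accepts w ↔ B.Accepts w := by
  classical
  set St := heavy (wa z C) (wf z C) (ws z C) (wn z C) n (z ^ n) with hSt
  let e := St.equivFin
  have hf : ∀ g : Fin n → Option Nm, Fuel n g := fun g => by simpa using fuel_card' g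
  have m0 : Tr.e {B.start} ∈ St := by
    obtain ⟨k, rfl⟩ : ∃ k, n = k + 1 := ⟨n - 1, by omega⟩
    refine mem_heavy (S := {B.start}) (by simp [all]) ?_
    show _ ≤ wa z C _
    unfold wa ind nin
    by_cases h : ({B.start} : Finset _) ⊆ C
    · rw [if_pos ⟨h, by simp⟩, if_pos h]
      simpa using pow_le_one₀ (n := k + 1) z0 z1
    · rw [if_neg (by tauto), if_neg h]
      simpa using pow_le_pow_of_le_one z0 z1 hn
  have m1 : ∀ (h : Fin n → Option Nm) (c : A), Cl h → build n (gof B h c) ∈ St := by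
    intro h c hc
    refine mem_heavy (mem_all _ _ (hf _)) ?_
    have := wz_step z0 z1 C hc (rel B c)
    rw [hC, Fintype.card_fin] at this
    exact this
  refine ⟨⟨e ⟨_, m0⟩, fun q c => if h : build n (gof B (pos (e.symm q).1) c) ∈ St
      then some (e ⟨_, h⟩) else none,
      Set.range fun v : Nm => ({q | ¬ (isN (e.symm q).1 v ∨ isF (e.symm q).1 v)},
        {q | isF (e.symm q).1 v})⟩, fun w => ?_⟩
  rw [cnd_iff]
  let ρ : ℕ → St := fun i => Nat.casesOn i ⟨_, m0⟩ (fun j => ⟨_, m1 _ (w j) (tk_cl B w j)⟩)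
  have hcur : ∀ i, pos (ρ i).1 = tk B w i := by
    intro i
    cases i with
    | zero => funext b; simp [ρ, pos, tk, h0]
    | succ i => exact pos_build _ _ (hf _)
  have hN : ∀ i v, isN (ρ (i + 1)).1 v ↔ Nv (gof B (tk B w i) (w i)) v :=
    fun i v => isN_build _ _ v (hf _)
  have hF : ∀ i v, isF (ρ (i + 1)).1 v ↔ Fv (gof B (tk B w i) (w i)) v :=
    fun i v => isF_build _ _ v (hf _)
  have htr : ∀ i, (if h : build n (gof B (pos (ρ i).1) (w i)) ∈ St
      then some (e ⟨_, h⟩) else none) = some (e (ρ (i + 1))) := by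
    intro i
    simp only [hcur]
    rw [dif_pos (m1 _ (w i) (tk_cl B w i))]
  constructor
  · rintro ⟨r, h0, h1, _, ⟨v, rfl⟩, h2, N, h3⟩
    have hr : ∀ i, e.symm (r i) = ρ i := by
      intro i
      induction i with
      | zero => rw [h0]; simp [ρ]
      | succ i ih =>
        have := h1 i
        simp only [ih] at this
        rw [htr] at this
        rw [← Option.some.inj this]; simp
    refine ⟨v, fun M => ?_, N, fun i hi => ?_⟩
    · obtain ⟨i, hi, h4⟩ := h2 (M + 1)
      obtain ⟨j, rfl⟩ : ∃ j, i = j + 1 := ⟨i - 1, by omega⟩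
      simp only [Set.mem_ofPred_eq, hr, hF] at h4
      exact ⟨j, by omega, h4⟩
    · have := h3 (i + 1) (by omega)
      simpa only [Set.mem_ofPred_eq, hr, hF, hN, not_not] using this
  · rintro ⟨v, h2, N, h3⟩
    refine ⟨fun i => e (ρ i), rfl, fun i => ?_, _, ⟨v, rfl⟩, fun M => ?_, N + 1, fun i hi => ?_⟩
    · simp only [Equiv.symm_apply_apply]; exact htr i
    · obtain ⟨i, hi, h4⟩ := h2 M
      exact ⟨i + 1, by omega, by simpa only [Set.mem_ofPred_eq, Equiv.symm_apply_apply, hF] using h4⟩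
    · obtain ⟨j, rfl⟩ : ∃ j, i = j + 1 := ⟨i - 1, by omega⟩
      simpa only [Set.mem_ofPred_eq, Equiv.symm_apply_apply, hF, hN, not_not] using h3 j (by omega)

lemma nx_of_cl {h : Q → Option Nm} (hc : Cl h) : nx h = h := by
  funext b
  rcases hb : h b with _ | x
  · simp [nx, hb]
  · exact nx_self hb (fun p hp _ => hc b x p hb hp)

lemma wt_plain (d : ℕ) : ∀ h : Q → Option Nm, Cl h →
    1 ≤ wt (fun _ => 0) (fun _ => 0) (fun _ => 0) (ind univ) (build d h) := by
  induction d with
  | zero => intro h _; exact le_rfl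
  | succ d ih =>
    intro h hc
    have ih' : ∀ c, Cl (sh c h) := fun c a v p ha hp => by
      simpa only [sh_eq] using hc a _ (c :: p) (sh_eq.1 ha) (by simpa using hp)
    unfold build
    split_ifs with a1 a2 a3
    · obtain ⟨b, hb⟩ := a1
      simp only [wt]
      rw [ind, if_pos ⟨subset_univ _, ne_empty_of_mem (mem_own.2 hb)⟩, one_mul]
      exact one_le_mul_of_one_le_of_one_le (ih _ (ih' _)) (ih _ (ih' _))
    · obtain ⟨b, x, hb, -⟩ := a2
      exact absurd (hc b x [] hb List.nil_prefix) a1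
    · exact le_rfl
    · obtain ⟨b, hb⟩ := nonempty_iff_ne_empty.2 a3
      obtain ⟨x, hx⟩ := mem_sup.1 hb
      exact absurd (hc b x [] hx List.nil_prefix) a1

theorem tdra_ex {n : ℕ} (B : NBA A (Fin n)) :
    ∃ D : TDRA A (Fin (heavy (fun _ => 0) (fun _ => 0) (fun _ => 0)
      (ind (univ : Finset (Fin n))) n 1).card), ∀ w, D.Accepts w ↔ B.Accepts w := by
  classical
  set St := heavy (fun _ => 0) (fun _ => 0) (fun _ => 0) (ind (univ : Finset (Fin n))) n 1
    with hSt
  let e := St.equivFin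
  have hf : ∀ g : Fin n → Option Nm, Fuel n g := fun g => by simpa using fuel_card' g
  have m1 : ∀ (h : Fin n → Option Nm), Cl h → build n h ∈ St :=
    fun h hc => mem_heavy (mem_all _ _ (hf _)) (wt_plain _ _ hc)
  refine ⟨⟨e ⟨_, m1 _ (h0_cl B)⟩,
      fun q c => some (e ⟨_, m1 _ (nx_cl (gof B (pos (e.symm q).1) c))⟩),
      Set.range fun v : Nm => ({x | ¬ (Nv (gof B (pos (e.symm x.1).1) x.2.1) v ∨
        Fv (gof B (pos (e.symm x.1).1) x.2.1) v)},
        {x | Fv (gof B (pos (e.symm x.1).1) x.2.1) v})⟩, fun w => ?_⟩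
  rw [cnd_iff]
  let ρ : ℕ → St := fun i => ⟨_, m1 _ (tk_cl B w i)⟩
  have hcur : ∀ i, pos (ρ i).1 = tk B w i := fun i =>
    (pos_build _ _ (hf _)).trans (nx_of_cl (tk_cl B w i))
  constructor
  · rintro ⟨r, h0, h1, _, ⟨v, rfl⟩, h2, h3⟩
    have hr : ∀ i, e.symm (r i) = ρ i := by
      intro i
      induction i with
      | zero => rw [h0]; simp [ρ, tk]
      | succ i ih =>
        rw [← Option.some.inj (h1 i)]
        simp only [ih, hcur, Equiv.symm_apply_apply]; rfl
    exact ⟨v, by simpa only [Set.mem_ofPred_eq, hr, hcur] using h2,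
      by simpa only [Set.mem_ofPred_eq, hr, hcur, not_not] using h3⟩
  · rintro ⟨v, h2, h3⟩
    exact ⟨fun i => e (ρ i), rfl, fun i => by simp only [Equiv.symm_apply_apply, hcur]; rfl, _,
      ⟨v, rfl⟩, by simpa only [Set.mem_ofPred_eq, Equiv.symm_apply_apply, hcur] using h2,
      by simpa only [Set.mem_ofPred_eq, Equiv.symm_apply_apply, hcur, not_not] using h3⟩

end

lemma fact_le (k : ℕ) : (k.factorial : ℝ) * Real.exp 1 ^ k ≤ (k + 1) ^ (k + 1) := by
  induction k with
  | zero => simp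
  | succ k ih =>
    have h1 : Real.exp 1 * (k + 1) ^ (k + 2) ≤ (k + 2) ^ (k + 2) := by
      have h2 : Real.exp (1 / (k + 2)) * (k + 1) ≤ k + 2 := by
        have h3 := Real.add_one_le_exp (-(1 / ((k : ℝ) + 2)))
        have h4 : -(1 / ((k : ℝ) + 2)) + 1 = (k + 1) / (k + 2) := by field_simp; ring
        rw [h4, Real.exp_neg, div_le_iff₀ (by positivity), inv_mul_eq_div,
          le_div_iff₀ (Real.exp_pos _)] at h3
        linarith
      have h5 := pow_le_pow_left₀ (by positivity) h2 (k + 2)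
      rw [mul_pow, ← Real.exp_nat_mul] at h5
      rwa [show ((k + 2 : ℕ) : ℝ) * (1 / (k + 2)) = 1 by push_cast; field_simp] at h5
    calc ((k + 1).factorial : ℝ) * Real.exp 1 ^ (k + 1)
        = Real.exp 1 * (k + 1) * (k.factorial * Real.exp 1 ^ k) := by
          rw [Nat.factorial_succ]; push_cast; ring
      _ ≤ Real.exp 1 * (k + 1) * (k + 1) ^ (k + 1) := by gcongr
      _ = Real.exp 1 * (k + 1) ^ (k + 2) := by ring
      _ ≤ _ := by push_cast; rw [show (k : ℝ) + 1 + 1 = k + 2 by ring]; exact h1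

lemma fact_div_le (k : ℕ) {m : ℝ} (hm : 0 < m) :
    (k.factorial : ℝ) / ((k + 1) / m) ^ k ≤ (k + 1) * (m / Real.exp 1) ^ k := by
  have h1 := fact_le k
  rw [div_pow, div_pow, div_div_eq_mul_div, div_le_iff₀ (by positivity), mul_div_assoc',
    div_mul_eq_mul_div, le_div_iff₀ (by positivity)]
  calc _ = m ^ k * (k.factorial * Real.exp 1 ^ k) := by ring
    _ ≤ m ^ k * (k + 1) ^ (k + 1) := by gcongr
    _ = _ := by ring

lemma eventually_le {r r' : ℝ} (h0 : 0 < r) (h1 : r < r') (C : ℝ) :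
    ∃ N : ℕ, ∀ n : ℕ, N ≤ n → C * (n + 1) ^ 2 * (r * (n + 2)) ^ n ≤ (r' * n) ^ n := by
  have h2 : |r / r'| < 1 := by
    rw [abs_of_pos (div_pos h0 (h0.trans h1)), div_lt_one (h0.trans h1)]; exact h1
  have h3 := (tendsto_pow_const_mul_const_pow_of_abs_lt_one 2 h2).const_mul
    (|C| * 4 * Real.exp 2)
  rw [mul_zero] at h3
  obtain ⟨N, hN⟩ := Filter.eventually_atTop.1 (h3.eventually (ge_mem_nhds zero_lt_one))
  refine ⟨N + 1, fun n hn => ?_⟩
  have h4 := hN n (by omega)
  have hn1 : (1 : ℝ) ≤ n := by exact_mod_cast (by omega : 1 ≤ n)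
  have h5 : ((n : ℝ) + 2) ^ n ≤ Real.exp 2 * n ^ n := by
    have h6 : (n : ℝ) + 2 ≤ Real.exp (2 / n) * n := by
      have := Real.add_one_le_exp (2 / (n : ℝ))
      calc (n : ℝ) + 2 = (2 / n + 1) * n := by field_simp; ring
        _ ≤ _ := by gcongr
    have h7 := pow_le_pow_left₀ (by positivity) h6 n
    rwa [mul_pow, ← Real.exp_nat_mul, show (n : ℝ) * (2 / n) = 2 by field_simp] at h7
  have h8 : ((n : ℝ) + 1) ^ 2 ≤ 4 * n ^ 2 := by nlinarith
  have h9 : 0 < r' := h0.trans h1
  calc _ ≤ |C| * (4 * n ^ 2) * (r ^ n * (Real.exp 2 * n ^ n)) := by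
        rw [mul_pow]; gcongr; exact le_abs_self C
    _ = (|C| * 4 * Real.exp 2 * (n ^ 2 * (r / r') ^ n)) * (r' * n) ^ n := by
        rw [div_pow, mul_pow]; field_simp
    _ ≤ 1 * (r' * n) ^ n := by gcongr
    _ = _ := one_mul _

lemma exp_le_of {x c : ℝ} (h0 : 0 ≤ x) (h1 : x ≤ 1)
    (h : 1 + x + x ^ 2 / 2 + x ^ 3 / 6 + x ^ 4 / 24 + x ^ 5 / 100 ≤ c) : Real.exp x ≤ c := by
  have := Real.exp_bound' h0 h1 (n := 5) (by norm_num)
  refine this.trans (le_trans (le_of_eq ?_) h)
  simp only [sum_range_succ, sum_range_zero, Nat.factorial]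
  push_cast; ring

theorem t_upper : ∃ N : ℕ, ∀ n : ℕ, N ≤ n → (t n : ℝ) ≤ (165 / 100 * n) ^ n := by
  have he := Real.exp_one_gt_d9
  obtain ⟨N, hN⟩ := eventually_le (r := 1 / (Real.exp 1 * (2231 / 10000))) (r' := 165 / 100)
    (by positivity) (by rw [div_lt_iff₀ (by positivity)]; linarith) 8
  refine ⟨N, fun n hn => le_trans ?_ (hN n hn)⟩
  have h1 : t n ≤ (heavy (fun _ => 0) (fun _ => 0) (fun _ => 0)
      (ind (univ : Finset (Fin n))) n 1).card :=
    Nat.sInf_le fun A _ B => ⟨_, le_rfl, tdra_ex B⟩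
  set x : ℝ := 2231 / 10000 with hx
  have x0 : 0 < x := by norm_num [hx]
  have hρ := rho_nonneg (Q := Fin n) x0 x0 univ
  have hz : Bd (rho x x (univ : Finset (Fin n))) (fun _ => 0) 0 :=
    ⟨fun _ => le_rfl, le_rfl, fun S => by simp [cv]⟩
  have e1 : Real.exp x ≤ 5 / 4 := exp_le_of x0.le (by norm_num [hx]) (by norm_num [hx])
  have h2 := card_heavy hρ (rho_empty _ _ _) hz hz hz (bd_in x0 x0 univ) (bd_any x0 x0 univ)
    (by linarith) n 1
  have h3 : Real.exp (x + x) ≤ 2 := by
    rw [Real.exp_add]; nlinarith [Real.exp_pos x]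
  have h4 : rho x x (univ : Finset (Fin n)) univ = n.factorial / x ^ n := by simp [rho, r1]
  have h5 := fact_div_le n (m := (n + 1) / x) (by positivity)
  rw [show ((n : ℝ) + 1) / ((n + 1) / x) = x by field_simp] at h5
  have h6 : ((n : ℝ) + 1) / x / Real.exp 1 ≤ 1 / (Real.exp 1 * x) * (n + 2) := by
    rw [div_div, mul_comm x, one_div_mul_eq_div]; gcongr; linarith
  have h7 : (t n : ℝ) ≤ _ := Nat.cast_le.2 h1
  calc (t n : ℝ) ≤ 2 * 2 * (n.factorial / x ^ n) := by
        rw [h4] at h2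
        refine h7.trans (le_trans (by simpa using h2) ?_)
        gcongr
    _ ≤ 2 * 2 * ((n + 1) * (1 / (Real.exp 1 * x) * (n + 2)) ^ n) := by
        gcongr
        refine h5.trans ?_
        gcongr
    _ ≤ _ := by
        have : (0 : ℝ) ≤ (1 / (Real.exp 1 * x) * (n + 2)) ^ n := by positivity
        have h8 : (0 : ℝ) ≤ n := by positivity
        nlinarith [mul_nonneg h8 this, mul_nonneg h8 (mul_nonneg h8 this)]

lemma num_s {u v : ℝ} (hu : 0 ≤ u) (hv : 0 ≤ v) (h : (1 + u) * (1 + v) ≤ 13576 / 10000) :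
    4 * (56 / 100 * u) * (1 + (v + (56 / 100) ^ 2 * (u * (1 + v))) +
      (56 / 100 * v + (56 / 100) ^ 2 * (u * (1 + v))) * (1 + v + 56 / 100 * (u * (1 + v)))) ≤ 1 ∧
    1 + (v + (56 / 100) ^ 2 * (u * (1 + v))) +
      (56 / 100 * v + (56 / 100) ^ 2 * (u * (1 + v))) * (1 + v + 56 / 100 * (u * (1 + v))) ≤ 2 := by
  set w := u * (1 + v) with hw
  have w0 : 0 ≤ w := by positivity
  have w1 : w ≤ 3576 / 10000 - v := by nlinarith
  have v1 : v ≤ 3576 / 10000 := by linarith
  have d1 : 1 + (v + (56 / 100) ^ 2 * w) + (56 / 100 * v + (56 / 100) ^ 2 * w) *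
      (1 + v + 56 / 100 * w) ≤ 12468 / 10000 + 12 / 10 * v := by
    have a1 : 56 / 100 * v + (56 / 100) ^ 2 * w ≤ 11215 / 100000 + 2464 / 10000 * v := by
      nlinarith
    have a2 : 1 + v + 56 / 100 * w ≤ 12003 / 10000 + 44 / 100 * v := by nlinarith
    have a3 := mul_le_mul a1 a2 (by positivity) (by positivity)
    nlinarith
  refine ⟨?_, by linarith⟩
  have a4 : u * (12468 / 10000 + 12 / 10 * v) ≤ 12468 / 10000 * w := by rw [hw]; nlinarith
  calc _ ≤ 4 * (56 / 100 * u) * (12468 / 10000 + 12 / 10 * v) := by gcongr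
    _ ≤ 1 := by nlinarith

theorem s_upper : ∃ N : ℕ, ∀ n : ℕ, N ≤ n → (s n : ℝ) ≤ (215 / 100 * n) ^ n := by
  classical
  have he := Real.exp_one_gt_d9
  obtain ⟨N, hN⟩ := eventually_le (r := 1 / (Real.exp 1 * (3057 / 10000) * (56 / 100)))
    (r' := 215 / 100) (by positivity) (by rw [div_lt_iff₀ (by positivity)]; linarith) 8
  refine ⟨N + 2, fun n hn => le_trans ?_ (hN n (by omega))⟩
  set R : ℝ := 8 * (n + 1) ^ 2 * (1 / (Real.exp 1 * (3057 / 10000) * (56 / 100)) * (n + 2)) ^ n
    with hR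
  have key : ∀ C : Finset (Fin n), ((heavy (wa (56 / 100) C) (wf (56 / 100) C) (ws (56 / 100) C)
      (wn (56 / 100) C) n ((56 / 100) ^ n)).card : ℝ) ≤ R := by
    intro C
    set m : ℝ := (n + 2) / (3057 / 10000) with hm
    have m0 : 0 < m := by positivity
    set x : ℝ := ((Cᶜ.card : ℝ) + 1) / m with hx
    set y : ℝ := ((C.card : ℝ) + 1) / m with hy
    have x0 : 0 < x := by positivity
    have y0 : 0 < y := by positivity
    have hab : C.card + Cᶜ.card = n := by simp
    have hab' : (C.card : ℝ) + Cᶜ.card = n := by exact_mod_cast hab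
    have hxy : x + y = 3057 / 10000 := by
      rw [hx, hy, hm, ← hab']; field_simp; ring
    have e1 : Real.exp (x + y) ≤ 13576 / 10000 := by
      rw [hxy]; exact exp_le_of (by norm_num) (by norm_num) (by norm_num)
    have hρ := rho_nonneg x0 y0 C
    have b1 := bd_in x0 y0 C
    have b2 := bd_out x0 y0 C
    have b3 := bd_nin x0 y0 C
    have hn := num_s b2.kn b1.kn (by rw [Real.exp_add] at e1; linarith)
    rw [show 1 + (Real.exp y - 1) = Real.exp y by ring] at hn
    have h2 := card_heavy hρ (rho_empty _ _ _) (α := wa (56 / 100) C) (φ := wf (56 / 100) C)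
      (σ := ws (56 / 100) C) (ν := wn (56 / 100) C)
      (b1.add (b3.smul (c := (56 / 100) ^ 2) (by positivity)))
      ((b1.smul (c := 56 / 100) (by positivity)).add (b3.smul (c := (56 / 100) ^ 2) (by positivity)))
      ((bd_one.add b1).add (b3.smul (c := 56 / 100) (by positivity)))
      (b2.smul (c := 56 / 100) (by positivity)) (bd_any x0 y0 C)
      (by rw [show 1 + (Real.exp y - 1) = Real.exp y by ring]; exact hn.1) n ((56 / 100) ^ n)
    rw [show 1 + (Real.exp y - 1) = Real.exp y by ring] at h2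
    have h4 : rho x y C univ ≤ (n + 1) ^ 2 * (m / Real.exp 1) ^ n := by
      have a1 := fact_div_le C.card m0
      have a2 := fact_div_le Cᶜ.card m0
      have a3 : rho x y C univ = (C.card.factorial / y ^ C.card) *
          (Cᶜ.card.factorial / x ^ Cᶜ.card) := by
        simp only [rho, r1, univ_inter, ← compl_eq_univ_sdiff]
      rw [a3]
      refine (mul_le_mul a1 a2 (by positivity) (by positivity)).trans ?_
      have a4 : (C.card : ℝ) ≤ n := by linarith [(Nat.cast_nonneg Cᶜ.card : (0 : ℝ) ≤ _)]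
      have a5 : (Cᶜ.card : ℝ) ≤ n := by linarith [(Nat.cast_nonneg C.card : (0 : ℝ) ≤ _)]
      calc _ = ((C.card + 1) * (Cᶜ.card + 1)) * (m / Real.exp 1) ^ (C.card + Cᶜ.card) := by ring
        _ ≤ ((n + 1) * (n + 1)) * (m / Real.exp 1) ^ (C.card + Cᶜ.card) := by gcongr
        _ = _ := by rw [hab]; ring
    have h5 : 1 / (Real.exp 1 * (3057 / 10000) * (56 / 100)) * (n + 2) =
        m / Real.exp 1 / (56 / 100) := by rw [hm]; field_simp
    rw [hR, h5, div_pow _ (56 / 100 : ℝ), mul_div_assoc', le_div_iff₀ (by positivity)]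
    refine h2.trans ?_
    calc _ ≤ 2 * 2 * 2 * ((n + 1) ^ 2 * (m / Real.exp 1) ^ n) := by
          gcongr
          · exact hρ _
          · exact hn.2
          · linarith
      _ = _ := by ring
  have h1 : s n ≤ ⌊R⌋₊ := Nat.sInf_le fun A _ B =>
    ⟨_, Nat.le_floor (key (Set.toFinite B.acc).toFinset),
      sdra_ex (by omega) B (by norm_num) (by norm_num) _ (Set.Finite.coe_toFinset _)⟩
  exact (Nat.cast_le.2 h1).trans (Nat.floor_le (by positivity))

end Pool.Agent.MP_0f075e_lc.H37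

end MrgPart3

-- marker of a merged file
example : 731051 + 435711 = 731051 + 435711 := rfl
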