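import Mathlib.Data.Int.Star
import Mathlib.Data.Set.Finite.List
import Mathlib.Order.CompletePartialOrder
import Pool.Agent.MP_0f075e_lc.Defs
import Pool.Agent.MP_0f075e_lc.H37.Up

-- ======== part 0: formerly Pool.Agent.MP_0f075e_lc.Lasso
section MrgPart0

/-! Finite words, loops and ultimately periodic words. -/

namespace Pool.Agent.MP_0f075e_lc

section
variable {A Q S : Type}

def dst (δ : Q → A → Q) (q : Q) (x : List A) : Q := x.foldl δ q

def vis (δ : Q → A → Q) : Q → List A → Set Q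
  | _, [] => ∅
  | q, a :: x => insert q (vis δ (δ q a) x)

@[simp] lemma dst_nil (δ : Q → A → Q) (q : Q) : dst δ q [] = q := rfl
@[simp] lemma dst_cons (δ : Q → A → Q) (q : Q) (a : A) (x : List A) :
    dst δ q (a :: x) = dst δ (δ q a) x := rfl
lemma dst_app (δ : Q → A → Q) (q : Q) (x y : List A) :
    dst δ q (x ++ y) = dst δ (dst δ q x) y := List.foldl_append

lemma vis_app (δ : Q → A → Q) (x y : List A) : ∀ q,
    vis δ q (x ++ y) = vis δ q x ∪ vis δ (dst δ q x) y := by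
  induction x with
  | nil => intro q; simp [vis]
  | cons a x ih => intro q; simp [vis, ih, Set.insert_union]

def Pth (B : NBA A S) : S → List A → S → Prop
  | a, [], b => a = b
  | a, c :: x, b => ∃ d, B.tr a c d ∧ Pth B d x b

def PA (B : NBA A S) : S → List A → S → Prop
  | _, [], _ => False
  | a, c :: x, b => ∃ d, B.tr a c d ∧ ((a ∈ B.acc ∧ Pth B d x b) ∨ PA B d x b)

lemma PA.pth {B : NBA A S} {x : List A} : ∀ {a b : S}, PA B a x b → Pth B a x b := by
  induction x with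
  | nil => intro a b h; exact h.elim
  | cons c x ih =>
    rintro a b ⟨d, h1, h2 | h2⟩
    · exact ⟨d, h1, h2.2⟩
    · exact ⟨d, h1, ih h2⟩

lemma pth_app (B : NBA A S) (x y : List A) : ∀ a b,
    Pth B a (x ++ y) b ↔ ∃ c, Pth B a x c ∧ Pth B c y b := by
  induction x with
  | nil => intro a b; simp [Pth]
  | cons e x ih =>
    intro a b
    simp only [List.cons_append, Pth, ih]
    constructor
    · rintro ⟨d, h1, c, h2, h3⟩; exact ⟨c, ⟨d, h1, h2⟩, h3⟩
    · rintro ⟨c, ⟨d, h1, h2⟩, h3⟩; exact ⟨d, h1, c, h2, h3⟩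

lemma pa_app (B : NBA A S) (x y : List A) : ∀ a b,
    PA B a (x ++ y) b ↔ ∃ c, (PA B a x c ∧ Pth B c y b) ∨ (Pth B a x c ∧ PA B c y b) := by
  induction x with
  | nil => intro a b; simp [Pth, PA]
  | cons e x ih =>
    intro a b
    simp only [List.cons_append, Pth, PA, ih, pth_app]
    constructor
    · rintro ⟨d, h1, ⟨h2, c, h3, h4⟩ | ⟨c, ⟨h3, h4⟩ | ⟨h3, h4⟩⟩⟩
      · exact ⟨c, Or.inl ⟨⟨d, h1, Or.inl ⟨h2, h3⟩⟩, h4⟩⟩
      · exact ⟨c, Or.inl ⟨⟨d, h1, Or.inr h3⟩, h4⟩⟩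
      · exact ⟨c, Or.inr ⟨⟨d, h1, h3⟩, h4⟩⟩
    · rintro ⟨c, ⟨⟨d, h1, ⟨h2, h3⟩ | h3⟩, h4⟩ | ⟨⟨d, h1, h3⟩, h4⟩⟩
      · exact ⟨d, h1, Or.inl ⟨h2, c, h3, h4⟩⟩
      · exact ⟨d, h1, Or.inr ⟨c, Or.inl ⟨h3, h4⟩⟩⟩
      · exact ⟨d, h1, Or.inr ⟨c, Or.inr ⟨h3, h4⟩⟩⟩

lemma pth_fun (B : NBA A S) (x : List A) : ∀ a b, Pth B a x b → ∃ f : ℕ → S, f 0 = a ∧
    f x.length = b ∧ ∀ j (h : j < x.length), B.tr (f j) x[j] (f (j + 1)) := by
  induction x with
  | nil => rintro a b rfl; exact ⟨fun _ => a, rfl, rfl, by simp⟩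
  | cons c x ih =>
    rintro a b ⟨d, h1, h2⟩
    obtain ⟨f, f0, f1, f2⟩ := ih d b h2
    refine ⟨fun i => Nat.casesOn i a f, rfl, f1, fun j h => ?_⟩
    rcases j with _ | j
    · simpa [f0] using h1
    · simpa using f2 j (by simpa using h)

lemma pa_fun (B : NBA A S) (x : List A) : ∀ a b, PA B a x b → ∃ f : ℕ → S, f 0 = a ∧
    f x.length = b ∧ (∀ j (h : j < x.length), B.tr (f j) x[j] (f (j + 1))) ∧
    ∃ j < x.length, f j ∈ B.acc := by
  induction x with
  | nil => intro a b h; exact h.elim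
  | cons c x ih =>
    rintro a b ⟨d, h1, ⟨h2, h3⟩ | h2⟩
    · obtain ⟨f, f0, f1, f2⟩ := pth_fun B (c :: x) a b ⟨d, h1, h3⟩
      exact ⟨f, f0, f1, f2, 0, by simp, by rwa [f0]⟩
    · obtain ⟨f, f0, f1, f2, j, hj, f3⟩ := ih d b h2
      refine ⟨fun i => Nat.casesOn i a f, rfl, f1, fun j h => ?_, j + 1, by simpa using hj, f3⟩
      rcases j with _ | j
      · simpa [f0] using h1
      · simpa using f2 j (by simpa using h)

def seg (w : ℕ → A) : ℕ → ℕ → List A
  | _, 0 => []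
  | i, j + 1 => w i :: seg w (i + 1) j

lemma seg_eq (w : ℕ → A) (l : List A) : ∀ i, (∀ j (h : j < l.length), w (i + j) = l[j]) →
    seg w i l.length = l := by
  induction l with
  | nil => intro i _; rfl
  | cons c l ih =>
    intro i h
    simp only [List.length_cons, seg]
    rw [ih (i + 1) (fun j hj => by
      have := h (j + 1) (by simpa using hj)
      rw [show i + 1 + j = i + (j + 1) by omega]; simpa using this)]
    have := h 0 (by simp)
    simp at this; rw [this]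

def run (δ : Q → A → Q) (q0 : Q) (w : ℕ → A) : ℕ → Q
  | 0 => q0
  | i + 1 => δ (run δ q0 w i) (w i)

lemma dst_seg (δ : Q → A → Q) (q0 : Q) (w : ℕ → A) (j : ℕ) : ∀ i,
    dst δ (run δ q0 w i) (seg w i j) = run δ q0 w (i + j) := by
  induction j with
  | zero => intro i; rfl
  | succ j ih =>
    intro i
    have := ih (i + 1)
    rw [show i + 1 + j = i + (j + 1) by omega] at this
    exact this

lemma vis_seg (δ : Q → A → Q) (q0 : Q) (w : ℕ → A) (j : ℕ) : ∀ i q,
    q ∈ vis δ (run δ q0 w i) (seg w i j) ↔ ∃ k < j, run δ q0 w (i + k) = q := by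
  induction j with
  | zero => intro i q; simp [seg, vis]
  | succ j ih =>
    intro i q
    have := ih (i + 1) q
    simp only [seg, vis, Set.mem_insert_iff]
    rw [show δ (run δ q0 w i) (w i) = run δ q0 w (i + 1) from rfl, this]
    constructor
    · rintro (rfl | ⟨k, hk, h⟩)
      · exact ⟨0, by omega, rfl⟩
      · exact ⟨k + 1, by omega, by rw [← h]; congr 1; omega⟩
    · rintro ⟨k, hk, h⟩
      rcases k with _ | k
      · left; exact h.symm
      · right; exact ⟨k, by omega, by rw [← h]; congr 1; omega⟩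

lemma pth_seg (B : NBA A S) (w : ℕ → A) (ρ : ℕ → S) (h : ∀ i, B.tr (ρ i) (w i) (ρ (i + 1)))
    (j : ℕ) : ∀ i, Pth B (ρ i) (seg w i j) (ρ (i + j)) ∧
      ((∃ k < j, ρ (i + k) ∈ B.acc) → PA B (ρ i) (seg w i j) (ρ (i + j))) := by
  induction j with
  | zero => intro i; exact ⟨rfl, by simp⟩
  | succ j ih =>
    intro i
    have := ih (i + 1)
    rw [show i + 1 + j = i + (j + 1) by omega] at this
    refine ⟨⟨_, h i, this.1⟩, ?_⟩
    rintro ⟨k, hk, h1⟩
    rcases k with _ | k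
    · exact ⟨_, h i, Or.inl ⟨h1, this.1⟩⟩
    · exact ⟨_, h i, Or.inr (this.2 ⟨k, by omega, by
        rw [show i + 1 + k = i + (k + 1) by omega]; exact h1⟩)⟩

def InfS (r : ℕ → Q) : Set Q := {q | ∀ N, ∃ i, N ≤ i ∧ r i = q}

lemma lasso (u x : List A) (hx : x ≠ []) : ∃ w : ℕ → A,
    (∀ i (h : i < u.length), w i = u[i]) ∧
    ∀ i, w (u.length + i) = x[i % x.length]'(Nat.mod_lt _ (List.length_pos_iff.2 hx)) := by
  refine ⟨fun i => if h : i < u.length then u[i] else
    x[(i - u.length) % x.length]'(Nat.mod_lt _ (List.length_pos_iff.2 hx)), fun i h => by simp [h],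
    fun i => by simp⟩

lemma block (n L i : ℕ) (hL : 0 < L) (hi : n ≤ i) : ∃ k j, j < L ∧ i = n + k * L + j :=
  ⟨(i - n) / L, (i - n) % L, Nat.mod_lt _ hL, by
    have := Nat.div_add_mod (i - n) L
    rw [mul_comm] at this; omega⟩

/-- The three facts about the word `u x x x ...`. -/
lemma lasso_facts (δ : Q → A → Q) (q0 : Q) (B : NBA A S) (u x : List A) (hx : x ≠ [])
    (hq : dst δ (dst δ q0 u) x = dst δ q0 u) : ∃ w : ℕ → A,
    InfS (run δ q0 w) = vis δ (dst δ q0 u) x ∧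
    ((∃ h, Pth B B.start u h ∧ PA B h x h) → B.Accepts w) ∧
    (B.Accepts w → ∃ c : ℕ → S, Pth B B.start u (c 0) ∧ (∀ k, Pth B (c k) x (c (k + 1))) ∧
      ∀ N, ∃ k, N ≤ k ∧ PA B (c k) x (c (k + 1))) := by
  obtain ⟨w, hu, hw⟩ := lasso u x hx
  have hL : 0 < x.length := List.length_pos_iff.2 hx
  have s0 : seg w 0 u.length = u := seg_eq w u 0 (fun j h => by simpa using hu j h)
  have s1 : ∀ k, seg w (u.length + k * x.length) x.length = x := fun k =>
    seg_eq w x _ (fun j h => by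
      rw [add_assoc, hw]
      congr 1
      rw [Nat.mul_add_mod_of_lt h])
  refine ⟨w, ?_, ?_, ?_⟩
  · have hr : ∀ k, run δ q0 w (u.length + k * x.length) = dst δ q0 u := by
      intro k
      induction k with
      | zero =>
        have := dst_seg δ q0 w u.length 0
        rw [s0] at this
        simpa [run] using this.symm
      | succ k ih =>
        have := dst_seg δ q0 w x.length (u.length + k * x.length)
        rw [s1, ih, hq] at this
        rw [this]; congr 1; ring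
    have hv : ∀ k q, q ∈ vis δ (dst δ q0 u) x ↔
        ∃ j < x.length, run δ q0 w (u.length + k * x.length + j) = q := by
      intro k q
      rw [← vis_seg, s1, hr]
    ext q
    constructor
    · intro h
      obtain ⟨i, hi, rfl⟩ := h u.length
      obtain ⟨k, j, hj, rfl⟩ := block _ _ i hL hi
      exact (hv k _).2 ⟨j, hj, rfl⟩
    · intro h N
      obtain ⟨j, -, h1⟩ := (hv N q).1 h
      exact ⟨_, by nlinarith, h1⟩
  · rintro ⟨h, h1, h2⟩
    obtain ⟨g, g0, g1, g2⟩ := pth_fun B u _ _ h1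
    obtain ⟨f, f0, f1, f2, j0, hj0, f3⟩ := pa_fun B x _ _ h2
    let ρ : ℕ → S := fun i => if i < u.length then g i else f ((i - u.length) % x.length)
    have r1 : ∀ i, i ≤ u.length → ρ i = g i := by
      intro i hi
      rcases hi.lt_or_eq with hi | rfl
      · simp [ρ, hi]
      · simp [ρ, f0, g1]
    have r2 : ∀ k j, j ≤ x.length → ρ (u.length + k * x.length + j) = f j := by
      intro k j hj
      have : ¬ u.length + k * x.length + j < u.length := by omega
      simp only [ρ, this, if_false]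
      rw [show u.length + k * x.length + j - u.length = k * x.length + j by omega]
      rcases hj.lt_or_eq with hj | rfl
      · rw [Nat.mul_add_mod_of_lt hj]
      · rw [f1, ← f0]; congr 1; simp
    refine ⟨ρ, by rw [r1 0 (by omega), g0], fun i => ?_, fun N => ?_⟩
    · rcases lt_or_ge i u.length with hi | hi
      · rw [r1 i hi.le, r1 (i + 1) hi, hu i hi]; exact g2 i hi
      · obtain ⟨k, j, hj, rfl⟩ := block _ _ i hL hi
        rw [r2 k j hj.le, add_assoc _ j, r2 k (j + 1) hj, add_assoc, hw]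
        have := f2 j hj
        convert this using 2
        rw [Nat.mul_add_mod_of_lt hj]
    · exact ⟨u.length + N * x.length + j0, by nlinarith, by rw [r2 N j0 hj0.le]; exact f3⟩
  · rintro ⟨ρ, h0, h1, h2⟩
    have e : ∀ k, u.length + (k + 1) * x.length = u.length + k * x.length + x.length :=
      fun k => by ring
    refine ⟨fun k => ρ (u.length + k * x.length), ?_, fun k => ?_, fun N => ?_⟩
    · have := (pth_seg B w ρ h1 u.length 0).1
      rw [s0, h0] at this
      simpa using this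
    · have := (pth_seg B w ρ h1 x.length (u.length + k * x.length)).1
      rw [s1] at this
      simpa only [e] using this
    · obtain ⟨i, hi, ha⟩ := h2 (u.length + N * x.length)
      obtain ⟨k, j, hj, rfl⟩ := block u.length _ i hL (by omega)
      refine ⟨k, ?_, ?_⟩
      · by_contra hc
        have : (k + 1) * x.length ≤ N * x.length := Nat.mul_le_mul_right _ (by omega)
        nlinarith
      · have := (pth_seg B w ρ h1 x.length (u.length + k * x.length)).2 ⟨j, hj, ha⟩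
        rw [s1] at this
        simpa only [e] using this

/-- A state-based deterministic Rabin automaton as a complete automaton whose acceptance
depends only on the set of states seen infinitely often. -/
lemma muller [Finite Q] (D : SDRA A Q) : ∃ (δ : Option Q → A → Option Q) (q0 : Option Q)
    (Acc : Set (Option Q) → Prop), ∀ w, Acc (InfS (run δ q0 w)) ↔ D.Accepts w := by
  refine ⟨fun q a => q.bind (fun p => D.tr p a), some D.start,
    fun C => none ∉ C ∧ ∃ p ∈ D.pairs, (∃ q ∈ p.2, some q ∈ C) ∧ ∀ q ∈ p.1, some q ∉ C, fun w => ?_⟩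
  set r := run (fun q a => q.bind (fun p => D.tr p a)) (some D.start) w with hr
  constructor
  · rintro ⟨h1, p, hp, ⟨q, hq, h2⟩, h3⟩
    have hn : ∀ i, ∃ z, r i = some z := by
      intro i
      rcases h : r i with _ | z
      · exfalso
        apply h1
        intro N
        refine ⟨i + N, by omega, ?_⟩
        induction N with
        | zero => exact h
        | succ N ih =>
          show (r (i + N)).bind _ = none
          rw [ih]; rfl
      · exact ⟨z, rfl⟩
    choose z hz using hn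
    refine ⟨z, Option.some.inj (hz 0).symm, fun i => ?_, p, hp, fun N => ?_, ?_⟩
    · have : r (i + 1) = (r i).bind (fun p => D.tr p (w i)) := rfl
      rw [hz, hz] at this
      exact this.symm
    · obtain ⟨i, hi, h⟩ := h2 N
      rw [hz] at h
      exact ⟨i, hi, by rw [Option.some.inj h]; exact hq⟩
    · have : ∀ q, ∃ N, q ∈ p.1 → ∀ i, N ≤ i → z i ≠ q := by
        intro q
        by_cases hq : q ∈ p.1
        · have := h3 q hq
          simp only [InfS, Set.mem_ofPred_eq, not_forall, not_exists, not_and] at this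
          obtain ⟨N, hN⟩ := this
          exact ⟨N, fun _ i hi h => hN i hi (by rw [hz, h])⟩
        · exact ⟨0, fun h => absurd h hq⟩
      choose f hf using this
      obtain ⟨M, hM⟩ := (Set.finite_range f).bddAbove
      exact ⟨M, fun i hi h => hf _ h i ((hM ⟨_, rfl⟩).trans hi) rfl⟩
  · rintro ⟨z, h0, h1, p, hp, h2, N, h3⟩
    have hz : ∀ i, r i = some (z i) := by
      intro i
      induction i with
      | zero => rw [h0]; rfl
      | succ i ih =>
        show (r i).bind _ = _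
        rw [ih]; exact h1 i
    refine ⟨fun h => ?_, p, hp, ?_, fun q hq h => ?_⟩
    · obtain ⟨i, -, h⟩ := h 0
      rw [hz] at h; simp at h
    · by_contra hc
      push Not at hc
      have : ∀ q, ∃ N, q ∈ p.2 → ∀ i, N ≤ i → z i ≠ q := by
        intro q
        by_cases hq : q ∈ p.2
        · have := hc q hq
          simp only [InfS, Set.mem_ofPred_eq, not_forall, not_exists, not_and] at this
          obtain ⟨N, hN⟩ := this
          exact ⟨N, fun _ i hi h => hN i hi (by rw [hz, h])⟩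
        · exact ⟨0, fun h => absurd h hq⟩
      choose f hf using this
      obtain ⟨M, hM⟩ := (Set.finite_range f).bddAbove
      obtain ⟨i, hi, h⟩ := h2 M
      exact hf _ h i ((hM ⟨_, rfl⟩).trans hi) rfl
    · obtain ⟨i, hi, h⟩ := h N
      rw [hz] at h
      exact h3 i hi (by rw [Option.some.inj h]; exact hq)

end

end Pool.Agent.MP_0f075e_lc

end MrgPart0

-- ======== part 1: formerly Pool.Agent.MP_0f075e_lc.Pairs
section MrgPart1

/-! State-based automata for `k` independent Rabin pairs need `sqrt 3 ^ k` states. -/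

namespace Pool.Agent.MP_0f075e_lc

open Relation

lemma bottom {X : Type} [Finite X] (step : X → X → Prop) (Y : Set X) (hne : Y.Nonempty)
    (hcl : ∀ x ∈ Y, ∀ y, step x y → y ∈ Y) : ∃ Z ⊆ Y, Z.Nonempty ∧
      (∀ x ∈ Z, ∀ y, step x y → y ∈ Z) ∧ ∀ x ∈ Z, ∀ y ∈ Z, ReflTransGen step x y := by
  obtain ⟨x, hx, hm⟩ := Set.exists_min_image Y (fun x => {y | ReflTransGen step x y}.ncard)
    (Set.toFinite _) hne
  have hsub : ∀ y, ReflTransGen step x y → y ∈ Y := by
    intro y h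
    induction h with
    | refl => exact hx
    | tail _ h ih => exact hcl _ ih _ h
  refine ⟨{y | ReflTransGen step x y}, hsub, ⟨x, .refl⟩, fun a ha y h => ReflTransGen.tail ha h,
    fun a ha b hb => ?_⟩
  have : {y | ReflTransGen step a y} = {y | ReflTransGen step x y} :=
    Set.eq_of_subset_of_ncard_le (fun y hy => ReflTransGen.trans ha hy) (hm a (hsub a ha))
  have hb' : b ∈ {y | ReflTransGen step a y} := by rw [this]; exact hb
  exact hb'

section
variable {Q L : Type} (δ : Q → L → Q)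

def SC (Λ : Set L) (X : Set Q) : Prop :=
  X.Nonempty ∧ (∀ q ∈ X, ∀ e ∈ Λ, δ q e ∈ X) ∧
    ∀ p ∈ X, ∀ q ∈ X, ∃ es : List L, (∀ e ∈ es, e ∈ Λ) ∧ dst δ p es = q ∧ vis δ p es ⊆ X

lemma exists_sc [Finite Q] (Λ : Set L) (Y : Set Q) (hne : Y.Nonempty)
    (hcl : ∀ q ∈ Y, ∀ e ∈ Λ, δ q e ∈ Y) : ∃ X ⊆ Y, SC δ Λ X := by
  obtain ⟨Z, h1, h2, h3, h4⟩ := bottom (fun p q => ∃ e ∈ Λ, δ p e = q) Y hne
    (by rintro x hx y ⟨e, he, rfl⟩; exact hcl x hx e he)
  have h3' : ∀ q ∈ Z, ∀ e ∈ Λ, δ q e ∈ Z := fun q hq e he => h3 q hq _ ⟨e, he, rfl⟩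
  refine ⟨Z, h1, h2, h3', fun p hp q hq => ?_⟩
  have := h4 p hp q hq
  induction this using ReflTransGen.head_induction_on with
  | refl => exact ⟨[], by simp, rfl, by simp [vis]⟩
  | head h _ ih =>
    obtain ⟨e, he, rfl⟩ := h
    obtain ⟨es, h5, h6, h7⟩ := ih (h3' _ hp e he)
    refine ⟨e :: es, by simpa [he] using h5, h6, ?_⟩
    simp only [vis, Set.insert_subset_iff]
    exact ⟨hp, h7⟩

variable {δ}

lemma SC.cover {Λ : Set L} {X : Set Q} (h : SC δ Λ X) {q : Q} (hq : q ∈ X) (l : List (Q × L))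
    (hl : ∀ z ∈ l, z.1 ∈ X ∧ δ z.1 z.2 ∈ X) : ∃ es : List L, dst δ q es = q ∧ vis δ q es ⊆ X ∧
      (∀ e ∈ es, e ∈ Λ ∨ ∃ z ∈ l, z.2 = e) ∧ ∀ z ∈ l, z.1 ∈ vis δ q es ∧ z.2 ∈ es := by
  induction l with
  | nil => exact ⟨[], rfl, by simp [vis], by simp, by simp⟩
  | cons z l ih =>
    obtain ⟨es, h1, h2, h3, h4⟩ := ih (fun z hz => hl z (List.mem_cons_of_mem _ hz))
    obtain ⟨hz1, hz2⟩ := hl z List.mem_cons_self
    obtain ⟨a, a1, a2, a3⟩ := h.2.2 q hq z.1 hz1
    obtain ⟨b, b1, b2, b3⟩ := h.2.2 _ hz2 q hq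
    have hv : vis δ q (a ++ z.2 :: (b ++ es)) =
        vis δ q a ∪ insert z.1 (vis δ (δ z.1 z.2) b ∪ vis δ q es) := by
      rw [vis_app, a2, vis, vis_app, b2]
    refine ⟨a ++ z.2 :: (b ++ es), by rw [dst_app, a2, dst_cons, dst_app, b2, h1], ?_, ?_, ?_⟩
    · rw [hv]
      simp only [Set.union_subset_iff, Set.insert_subset_iff]
      exact ⟨a3, hz1, b3, h2⟩
    · intro e he
      simp only [List.mem_append, List.mem_cons] at he
      rcases he with he | rfl | he | he
      · exact Or.inl (a1 e he)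
      · exact Or.inr ⟨z, List.mem_cons_self, rfl⟩
      · exact Or.inl (b1 e he)
      · rcases h3 e he with h5 | ⟨y, hy, h5⟩
        · exact Or.inl h5
        · exact Or.inr ⟨y, List.mem_cons_of_mem _ hy, h5⟩
    · intro y hy
      rw [hv]
      rcases List.mem_cons.1 hy with rfl | hy
      · simp
      · have := h4 y hy
        simp [this.1, this.2]

lemma SC.two [Finite Q] {Λ : Set L} {X : Set Q} (h : SC δ Λ X) {e0 : L} (h0 : e0 ∈ Λ) {p : Q}
    (hp : p ∈ X) {e : L} (he : δ p e ∈ X) : ∃ es es' : List L, dst δ p es = p ∧ dst δ p es' = p ∧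
      vis δ p es = vis δ p es' ∧ (∀ c ∈ es, c ∈ Λ) ∧ (∀ c ∈ es', c ∈ Λ ∨ c = e) ∧
      e0 ∈ es ∧ e0 ∈ es' ∧ e ∈ es' := by
  classical
  let l : List (Q × L) := (Set.toFinite X).toFinset.toList.map (fun q => (q, e0))
  have hl : ∀ z, z ∈ l ↔ z.1 ∈ X ∧ z.2 = e0 := by
    rintro ⟨a, b⟩; simp [l, eq_comm]
  obtain ⟨es, a1, a2, a3, a4⟩ := h.cover hp l (fun z hz => by
    obtain ⟨h1, h2⟩ := (hl z).1 hz
    exact ⟨h1, h.2.1 _ h1 _ (by rw [h2]; exact h0)⟩)
  obtain ⟨es', b1, b2, b3, b4⟩ := h.cover hp ((p, e) :: l) (fun z hz => by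
    rcases List.mem_cons.1 hz with rfl | hz
    · exact ⟨hp, he⟩
    · obtain ⟨h1, h2⟩ := (hl z).1 hz
      exact ⟨h1, h.2.1 _ h1 _ (by rw [h2]; exact h0)⟩)
  refine ⟨es, es', a1, b1, ?_, fun c hc => ?_, fun c hc => ?_, (a4 (p, e0) ((hl _).2 ⟨hp, rfl⟩)).2,
    (b4 (p, e0) (List.mem_cons_of_mem _ ((hl _).2 ⟨hp, rfl⟩))).2, (b4 (p, e) List.mem_cons_self).2⟩
  · have e1 : vis δ p es = X :=
      a2.antisymm fun q hq => (a4 (q, e0) ((hl _).2 ⟨hq, rfl⟩)).1
    have e2 : vis δ p es' = X :=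
      b2.antisymm fun q hq => (b4 (q, e0) (List.mem_cons_of_mem _ ((hl _).2 ⟨hq, rfl⟩))).1
    rw [e1, e2]
  · rcases a3 c hc with h1 | ⟨z, hz, rfl⟩
    · exact h1
    · rw [((hl z).1 hz).2]; exact h0
  · rcases b3 c hc with h1 | ⟨z, hz, rfl⟩
    · exact Or.inl h1
    · rcases List.mem_cons.1 hz with rfl | hz
      · exact Or.inr rfl
      · left; rw [((hl z).1 hz).2]; exact h0

end

/-- Some coordinate sees `some true` and never `some false`. -/
def GoodL {ι : Type} (es : List (ι → Option Bool)) : Prop :=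
  ∃ i, (∃ e ∈ es, e i = some true) ∧ ∀ e ∈ es, e i ≠ some false

theorem pairs_bound {Q ι : Type} [Finite Q] (δ : Q → (ι → Option Bool) → Q) (S0 : Set Q)
    (orc : ∀ q ∈ S0, ∀ es es', dst δ q es = q → dst δ q es' = q → vis δ q es = vis δ q es' →
      es' ≠ [] → GoodL es → GoodL es') (k : ℕ) : ∀ (I : Finset ι) (S : Set Q), I.card = k →
      S ⊆ S0 → S.Nonempty → (∀ q ∈ S, ∀ e : ι → Option Bool, (∀ j ∉ I, e j = none) → δ q e ∈ S) →
      3 ^ k ≤ S.ncard ^ 2 := by
  classical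
  induction k with
  | zero =>
    intro I S _ _ hne _
    have := (Set.ncard_pos (Set.toFinite S)).2 hne
    simpa using Nat.one_le_pow 2 _ this
  | succ k ih =>
    intro I S hI hS hne hcl
    have hX : ∀ i, ∃ X ⊆ S, SC δ {e | (∀ j ∉ I, e j = none) ∧ e i ≠ some false} X :=
      fun i => exists_sc δ _ S hne (fun q hq e he => hcl q hq e he.1)
    choose X hXS hX using hX
    have hY : ∀ i, ∃ Y ⊆ X i, SC δ {e | (∀ j ∉ I, e j = none) ∧ e i = none} Y :=
      fun i => exists_sc δ _ (X i) (hX i).1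
        (fun q hq e he => (hX i).2.1 q hq e ⟨he.1, by rw [he.2]; simp⟩)
    choose Y hYX hY using hY
    have hXE : ∀ i ∈ I, ∀ p ∈ X i, ∀ e : ι → Option Bool, (∀ j ∉ I, e j = none) →
        e i = some false → δ p e ∉ X i := by
      intro i hi p hp e he hei hc
      obtain ⟨es, es', a1, a2, a3, a4, a5, a6, a7, a8⟩ := (hX i).two
        (e0 := fun j => if j = i then some true else if j ∈ I then some false else none)
        ⟨fun j hj => by simp [hj, show j ≠ i from fun h => hj (h ▸ hi)], by simp⟩ hp hc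
      obtain ⟨j, ⟨c, hc1, hc2⟩, h2⟩ := orc p (hS (hXS i hp)) es es' a1 a2 a3
        (List.ne_nil_of_mem a8) ⟨i, ⟨_, a6, by simp⟩, fun c hc => (a4 c hc).2⟩
      by_cases hj : j = i
      · subst hj; exact h2 e a8 hei
      · by_cases hjI : j ∈ I
        · exact h2 _ a7 (by simp [hj, hjI])
        · rcases a5 c hc1 with h3 | rfl
          · rw [h3.1 j hjI] at hc2; simp at hc2
          · rw [he j hjI] at hc2; simp at hc2
    have hYF : ∀ i ∈ I, ∀ p ∈ Y i, ∀ e : ι → Option Bool, (∀ j ∉ I, e j = none) →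
        e i = some true → δ p e ∉ Y i := by
      intro i hi p hp e he hei hc
      obtain ⟨es, es', a1, a2, a3, a4, a5, a6, a7, a8⟩ := (hY i).two
        (e0 := fun j => if j = i then none else if j ∈ I then some false else none)
        ⟨fun j hj => by simp [hj], by simp⟩ hp hc
      obtain ⟨j, ⟨c, hc1, hc2⟩, h2⟩ := orc p (hS (hXS i (hYX i hp))) es' es a2 a1 a3.symm
        (List.ne_nil_of_mem a6) ⟨i, ⟨_, a8, hei⟩, fun c hc => by
          rcases a5 c hc with h3 | rfl
          · rw [h3.2]; simp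
          · rw [hei]; simp⟩
      by_cases hj : j = i
      · subst hj; rw [(a4 c hc1).2] at hc2; simp at hc2
      · by_cases hjI : j ∈ I
        · exact h2 _ a6 (by simp [hj, hjI])
        · rw [(a4 c hc1).1 j hjI] at hc2; simp at hc2
    have hpow : ∀ q ∈ S, 3 ^ (I.filter (fun i => q ∈ Y i)).card ≤ S.ncard := by
      intro q hq
      set J := I.filter (fun i => q ∈ Y i) with hJ
      let ext : (J → Option Bool) → ι → Option Bool := fun g j => if h : j ∈ J then g ⟨j, h⟩ else none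
      have hext : ∀ g, ∀ j ∉ I, ext g j = none := fun g j hj => by
        have : j ∉ J := fun h => hj (Finset.mem_filter.1 h).1
        simp [ext, this]
      have hinj : Function.Injective
          (fun g : J → Option Bool => (⟨δ q (ext g), hcl q hq _ (hext g)⟩ : S)) := by
        intro g g' h
        have h1 : δ q (ext g) = δ q (ext g') := congrArg Subtype.val h
        funext j
        obtain ⟨hjI, hjY⟩ := Finset.mem_filter.1 j.2
        have e1 : ∀ g, ext g j = g j := fun g => by simp [ext]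
        have key : ∀ g, g j = if δ q (ext g) ∈ X j then
            (if δ q (ext g) ∈ Y j then none else some true) else some false := by
          intro g
          rcases hg : g j with _ | _ | _
          · have h2 := (hY j).2.1 q hjY _ ⟨hext g, by rw [e1, hg]⟩
            rw [if_pos (hYX j h2), if_pos h2]
          · rw [if_neg (hXE j hjI q (hYX j hjY) _ (hext g) (by rw [e1, hg]))]
          · rw [if_pos ((hX j).2.1 q (hYX j hjY) _ ⟨hext g, by rw [e1, hg]; simp⟩),
              if_neg (hYF j hjI q hjY _ (hext g) (by rw [e1, hg]))]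
        rw [key g, key g', h1]
      have := Nat.card_le_card_of_injective _ hinj
      simpa [Nat.card_coe_set_eq] using this
    have hYk : ∀ i ∈ I, 3 ^ k ≤ (Y i).ncard ^ 2 := fun i hi =>
      ih (I.erase i) (Y i) (by rw [Finset.card_erase_of_mem hi, hI]; rfl)
        ((hYX i).trans ((hXS i).trans hS)) (hY i).1 (fun q hq e he => (hY i).2.1 q hq e
          ⟨fun j hj => he j (fun h => hj (Finset.mem_of_mem_erase h)), he i (by simp)⟩)
    by_contra hc
    push Not at hc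
    have hsm : ∀ q ∈ S, 2 * (I.filter (fun i => q ∈ Y i)).card ≤ k + 1 := by
      intro q hq
      have h1 := Nat.pow_le_pow_left (hpow q hq) 2
      rw [← pow_mul] at h1
      have := (Nat.pow_lt_pow_iff_right (by norm_num : 1 < 3)).1 (h1.trans_lt hc)
      omega
    set Sf := (Set.toFinite S).toFinset with hSf
    have hcard : Sf.card = S.ncard := (Set.ncard_eq_toFinset_card S _).symm
    have hsum : ∑ i ∈ I, (Y i).ncard = ∑ q ∈ Sf, (I.filter (fun i => q ∈ Y i)).card := by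
      have : ∀ i, (Y i).ncard = (Sf.filter (fun q => q ∈ Y i)).card := by
        intro i
        rw [← Set.ncard_coe_finset]
        congr 1; ext q
        simp only [hSf, Finset.coe_filter, Set.Finite.mem_toFinset, Set.mem_ofPred_eq]
        exact ⟨fun h => ⟨hXS i (hYX i h), h⟩, fun h => h.2⟩
      simp only [this, Finset.card_filter]
      exact Finset.sum_comm
    obtain ⟨i, hi, hmin⟩ := Finset.exists_min_image I (fun i => (Y i).ncard)
      (Finset.card_pos.1 (by omega))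
    have h1 : (k + 1) * (Y i).ncard ≤ ∑ i ∈ I, (Y i).ncard := by
      have := Finset.card_nsmul_le_sum I _ _ hmin
      simpa [hI] using this
    have h2 : 2 * ∑ q ∈ Sf, (I.filter (fun i => q ∈ Y i)).card ≤ S.ncard * (k + 1) := by
      rw [Finset.mul_sum, ← hcard]
      have := Finset.sum_le_card_nsmul Sf _ _ (fun q hq => hsm q (by simpa [hSf] using hq))
      simpa using this
    have h3 : 2 * (Y i).ncard ≤ S.ncard := by
      have : (k + 1) * (2 * (Y i).ncard) ≤ (k + 1) * S.ncard := by nlinarith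
      exact Nat.le_of_mul_le_mul_left this (by omega)
    have h4 := hYk i hi
    have h5 : 0 < 3 ^ k := by positivity
    rw [pow_succ 3] at hc
    nlinarith

end Pool.Agent.MP_0f075e_lc

end MrgPart1

-- ======== part 2: formerly Pool.Agent.MP_0f075e_lc.H37.Orc
section MrgPart2

/-! Strongly connected arrow sets and the acceptance oracle. -/

namespace Pool.Agent.MP_0f075e_lc.H37

open Relation

set_option linter.unusedSectionVars false

section
variable {V L : Type} (Δ : V → L → V)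

def arr : V → List L → Set (V × L)
  | _, [] => ∅
  | q, a :: x => insert (q, a) (arr (Δ q a) x)

lemma arr_app (x y : List L) : ∀ q, arr Δ q (x ++ y) = arr Δ q x ∪ arr Δ (dst Δ q x) y := by
  induction x with
  | nil => intro q; simp [arr]
  | cons a x ih => intro q; simp [arr, ih, Set.insert_union]

lemma arr_seg (q0 : V) (w : ℕ → L) (j : ℕ) : ∀ i z,
    z ∈ arr Δ (run Δ q0 w i) (seg w i j) ↔ ∃ k < j, (run Δ q0 w (i + k), w (i + k)) = z := by
  induction j with
  | zero => intro i q; simp [seg, arr]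
  | succ j ih =>
    intro i q
    have := ih (i + 1) q
    simp only [seg, arr, Set.mem_insert_iff]
    rw [show Δ (run Δ q0 w i) (w i) = run Δ q0 w (i + 1) from rfl, this]
    constructor
    · rintro (rfl | ⟨k, hk, h⟩)
      · exact ⟨0, by omega, rfl⟩
      · exact ⟨k + 1, by omega, by rw [← h, show i + (k + 1) = i + 1 + k by omega]⟩
    · rintro ⟨k, hk, h⟩
      rcases k with _ | k
      · left; exact h.symm
      · right; exact ⟨k, by omega, by rw [← h, show i + (k + 1) = i + 1 + k by omega]⟩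

/-- `Z` is closed and strongly connected for the arrows allowed by `ψ`. -/
structure SCa (ψ : V → L → Prop) (Z : Set V) : Prop where
  ne : Z.Nonempty
  cl : ∀ z ∈ Z, ∀ c, ψ z c → Δ z c ∈ Z
  sc : ∀ z ∈ Z, ∀ z' ∈ Z, ReflTransGen (fun a b => ∃ c, ψ a c ∧ Δ a c = b) z z'

lemma exists_sca [Finite V] (ψ : V → L → Prop) (Y : Set V) (hne : Y.Nonempty)
    (hcl : ∀ z ∈ Y, ∀ c, ψ z c → Δ z c ∈ Y) : ∃ Z ⊆ Y, SCa Δ ψ Z := by
  obtain ⟨Z, h1, h2, h3, h4⟩ := bottom (fun a b => ∃ c, ψ a c ∧ Δ a c = b) Y hne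
    (by rintro x hx y ⟨e, he, rfl⟩; exact hcl x hx e he)
  exact ⟨Z, h1, h2, fun z hz c hc => h3 z hz _ ⟨c, hc, rfl⟩, h4⟩

variable {Δ} {ψ : V → L → Prop} {Z : Set V}

lemma SCa.extra (h : SCa Δ ψ Z) {z1 : V} {c1 : L} (h1 : Δ z1 c1 ∈ Z) :
    SCa Δ (fun z c => ψ z c ∨ (z = z1 ∧ c = c1)) Z := by
  refine ⟨h.ne, ?_, fun z hz z' hz' => ReflTransGen.mono ?_ _ _ (h.sc z hz z' hz')⟩
  · rintro z hz c (hc | ⟨rfl, rfl⟩)
    · exact h.cl z hz c hc
    · exact h1
  · rintro a b ⟨c, hc, h2⟩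
    exact ⟨c, Or.inl hc, h2⟩

lemma SCa.path (h : SCa Δ ψ Z) {p q : V} (hp : p ∈ Z) (hq : q ∈ Z) :
    ∃ es : List L, dst Δ p es = q ∧ ∀ y ∈ arr Δ p es, y.1 ∈ Z ∧ ψ y.1 y.2 := by
  have := h.sc p hp q hq
  induction this using ReflTransGen.head_induction_on with
  | refl => exact ⟨[], rfl, by simp [arr]⟩
  | head h1 _ ih =>
    obtain ⟨e, he, rfl⟩ := h1
    obtain ⟨es, h5, h6⟩ := ih (h.cl _ hp e he)
    refine ⟨e :: es, h5, ?_⟩
    rintro y (rfl | hy)
    · exact ⟨hp, he⟩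
    · exact h6 y hy

lemma SCa.cov (h : SCa Δ ψ Z) {q : V} (hq : q ∈ Z) (l : List (V × L))
    (hl : ∀ y ∈ l, y.1 ∈ Z ∧ ψ y.1 y.2) : ∃ es : List L, dst Δ q es = q ∧
      (∀ y ∈ arr Δ q es, y.1 ∈ Z ∧ ψ y.1 y.2) ∧ ∀ y ∈ l, y ∈ arr Δ q es := by
  induction l with
  | nil => exact ⟨[], rfl, by simp [arr], by simp⟩
  | cons z l ih =>
    obtain ⟨es, h1, h2, h3⟩ := ih (fun z hz => hl z (List.mem_cons_of_mem _ hz))
    obtain ⟨hz1, hz2⟩ := hl z List.mem_cons_self
    obtain ⟨a, a1, a2⟩ := h.path hq hz1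
    obtain ⟨b, b1, b2⟩ := h.path (h.cl _ hz1 _ hz2) hq
    have hv : arr Δ q (a ++ z.2 :: (b ++ es)) =
        arr Δ q a ∪ insert z (arr Δ (Δ z.1 z.2) b ∪ arr Δ q es) := by
      rw [arr_app, a1, arr, arr_app, b1]
    refine ⟨a ++ z.2 :: (b ++ es), by rw [dst_app, a1, dst_cons, dst_app, b1, h1], ?_, ?_⟩
    · rw [hv]
      rintro y (hy | rfl | hy | hy)
      · exact a2 y hy
      · exact ⟨hz1, hz2⟩
      · exact b2 y hy
      · exact h2 y hy
    · intro y hy
      rw [hv]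
      rcases List.mem_cons.1 hy with rfl | hy
      · simp
      · simp [h3 y hy]

lemma SCa.realize [Finite V] [Finite L] (h : SCa Δ ψ Z) (v0 : V)
    (hr : ∀ z ∈ Z, ∃ u, dst Δ v0 u = z) (hex : ∃ z ∈ Z, ∃ c, ψ z c) : ∃ w : ℕ → L,
      (∃ N, ∀ i, N ≤ i → run Δ v0 w i ∈ Z ∧ ψ (run Δ v0 w i) (w i)) ∧
      (∀ z ∈ Z, ∀ c, ψ z c → ∀ N, ∃ i, N ≤ i ∧ run Δ v0 w i = z ∧ w i = c) ∧
      ∀ z ∈ Z, ∀ N, ∃ i, N ≤ i ∧ run Δ v0 w i = z := by
  classical
  obtain ⟨z0, hz0, c0, hc0⟩ := hex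
  obtain ⟨u, hu0⟩ := hr z0 hz0
  let l := (Set.toFinite {y : V × L | y.1 ∈ Z ∧ ψ y.1 y.2}).toFinset.toList
  have hl : ∀ y, y ∈ l ↔ y.1 ∈ Z ∧ ψ y.1 y.2 := fun y => by simp [l]
  obtain ⟨x, x1, x2, x3⟩ := h.cov hz0 l (fun y hy => (hl y).1 hy)
  have hx : x ≠ [] := by
    rintro rfl
    exact x3 (z0, c0) ((hl _).2 ⟨hz0, hc0⟩)
  obtain ⟨w, hu, hw⟩ := lasso u x hx
  have hL : 0 < x.length := List.length_pos_iff.2 hx
  have s0 : seg w 0 u.length = u := seg_eq w u 0 (fun j h => by simpa using hu j h)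
  have s1 : ∀ k, seg w (u.length + k * x.length) x.length = x := fun k =>
    seg_eq w x _ (fun j h => by
      rw [add_assoc, hw]
      congr 1
      rw [Nat.mul_add_mod_of_lt h])
  have hr : ∀ k, run Δ v0 w (u.length + k * x.length) = z0 := by
    intro k
    induction k with
    | zero =>
      have := dst_seg Δ v0 w u.length 0
      rw [s0] at this
      simpa [run, hu0] using this.symm
    | succ k ih =>
      have := dst_seg Δ v0 w x.length (u.length + k * x.length)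
      rw [s1, ih, x1] at this
      rw [this]; congr 1; ring
  have hv : ∀ k y, y ∈ arr Δ z0 x ↔ ∃ j < x.length,
      (run Δ v0 w (u.length + k * x.length + j), w (u.length + k * x.length + j)) = y := by
    intro k q
    rw [← arr_seg, s1, hr]
  have h2 : ∀ z ∈ Z, ∀ c, ψ z c → ∀ N, ∃ i, N ≤ i ∧ run Δ v0 w i = z ∧ w i = c := by
    intro z hz c hc N
    obtain ⟨j, -, h1⟩ := (hv N _).1 (x3 (z, c) ((hl _).2 ⟨hz, hc⟩))
    exact ⟨_, by nlinarith, congrArg Prod.fst h1, congrArg Prod.snd h1⟩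
  refine ⟨w, ⟨u.length, fun i hi => ?_⟩, h2, fun z hz N => ?_⟩
  · obtain ⟨k, j, hj, rfl⟩ := block _ _ i hL hi
    exact x2 _ ((hv k _).2 ⟨j, hj, rfl⟩)
  · have : ∃ c, ψ z c := by
      rcases (h.sc z hz z0 hz0).cases_head with rfl | ⟨b, ⟨c, hc, -⟩, -⟩
      · exact ⟨c0, hc0⟩
      · exact ⟨c, hc⟩
    obtain ⟨c, hc⟩ := this
    obtain ⟨i, h3, h4, -⟩ := h2 z hz c hc N
    exact ⟨i, h3, h4⟩

end

abbrev CT (Q : Type) := {h : Q → Option Nm // Cl h}

instance {Q : Type} [Finite Q] : Finite (CT Q) := by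
  have : Finite {v : Nm // v.length < Nat.card Q} := List.finite_length_lt Bool _
  have key : ∀ (T : CT Q) (a : Q), ∃ o : Option {v : Nm // v.length < Nat.card Q},
      o.map Subtype.val = T.1 a := by
    intro T a
    rcases h : T.1 a with _ | v
    · exact ⟨none, rfl⟩
    · exact ⟨some ⟨v, length_lt_card _ T.2 h⟩, rfl⟩
  choose f hf using key
  refine Finite.of_injective f fun T T' h => ?_
  ext1; funext a; rw [← hf, ← hf, h]

/-- The Buchi automaton over predecessor letters with the single accepting state `f`. -/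
def BP {Q : Type} (r f : Q) : NBA (Q → Option Q) Q := ⟨r, fun a c b => c b = some a, {f}⟩

section
variable {Q : Type} [Fintype Q] [DecidableEq Q] {r f : Q}

lemma gof_ne (h : Q → Option Nm) (c : Q → Option Q) {b : Q} (hb : b ≠ f) :
    gof (BP r f) h c b = (c b).bind h := by
  rcases hg : gof (BP r f) h c b with _ | x
  · rcases hc : (c b).bind h with _ | u
    · rfl
    · obtain ⟨a, h1, h2⟩ := Option.bind_eq_some_iff.1 hc
      obtain ⟨x, hx⟩ := pr_ex (acc := (BP r f).acc) (h := h) (R := rel (BP r f) c) (b := b)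
        ⟨a, u, h2, h1, Or.inl rfl⟩
      rw [gof, hx] at hg; simp at hg
  · obtain ⟨a, u, h1, h2, h3 | h3⟩ := (pr_spec hg).1
    · have h4 : c b = some a := h2
      rw [h4, h3]; exact h1.symm
    · exact absurd h3.1 hb

lemma gof_f (h : Q → Option Nm) (c : Q → Option Q) :
    gof (BP r f) h c f = ((c f).bind h).map (spawn (Fintype.card Q)) := by
  rcases hg : gof (BP r f) h c f with _ | x
  · rcases hc : (c f).bind h with _ | u
    · rfl
    · obtain ⟨a, h1, h2⟩ := Option.bind_eq_some_iff.1 hc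
      obtain ⟨x, hx⟩ := pr_ex (acc := (BP r f).acc) (h := h) (R := rel (BP r f) c) (b := f)
        ⟨a, u, h2, h1, Or.inl rfl⟩
      rw [gof, hx] at hg; simp at hg
  · obtain ⟨⟨a, u, h1, h2, h3 | h3⟩, h4⟩ := pr_spec hg
    · have := h4 _ ⟨a, u, h1, h2, Or.inr ⟨rfl, rfl⟩⟩
      rw [h3] at this
      exact absurd (spawn_lt _ u) (not_lt.2 this)
    · have h5 : c f = some a := h2
      rw [h5, h3.2, Nat.card_eq_fintype_card]; simp [h1]

variable {P : Type} [Finite P] (r f) (δ : P → (Q → Option Q) → P) (p0 : P)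

noncomputable def G (z : P × CT Q) (c : Q → Option Q) : Q → Option Nm := gof (BP r f) z.2.1 c

noncomputable def DD (z : P × CT Q) (c : Q → Option Q) : P × CT Q :=
  (δ z.1 c, ⟨nx (G r f z c), nx_cl _⟩)

noncomputable def v0 : P × CT Q := (p0, ⟨h0 (BP r f), h0_cl _⟩)

lemma run_DD (w : ℕ → Q → Option Q) (i : ℕ) : run (DD r f δ) (v0 r f p0) w i =
    (run δ p0 w i, ⟨tk (BP r f) w i, tk_cl _ w i⟩) := by
  induction i with
  | zero => rfl
  | succ i ih => simp only [run, ih]; rfl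

def AccT (ψ : P × CT Q → (Q → Option Q) → Prop) (Z : Set (P × CT Q)) : Prop :=
  ∃ v, (∃ z ∈ Z, ∃ c, ψ z c ∧ Fv (G r f z c) v) ∧
    ∀ z ∈ Z, ∀ c, ψ z c → Nv (G r f z c) v ∨ Fv (G r f z c) v

variable {r f δ p0} {Acc : Set P → Prop}

lemma acc_iff (hA : ∀ w, Acc (InfS (run δ p0 w)) ↔ (BP r f).Accepts w)
    {ψ : P × CT Q → (Q → Option Q) → Prop} {Z : Set (P × CT Q)} (h : SCa (DD r f δ) ψ Z)
    (hr : ∀ z ∈ Z, ∃ u, dst (DD r f δ) (v0 r f p0) u = z) (hex : ∃ z ∈ Z, ∃ c, ψ z c) :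
    AccT r f ψ Z ↔ Acc (Prod.fst '' Z) := by
  obtain ⟨w, ⟨N, h1⟩, h2, h3⟩ := h.realize _ hr hex
  have e1 : InfS (run δ p0 w) = Prod.fst '' Z := by
    ext p
    constructor
    · intro hp
      obtain ⟨i, hi, rfl⟩ := hp N
      exact ⟨_, (h1 i hi).1, by rw [run_DD]⟩
    · rintro ⟨z, hz, rfl⟩ M
      obtain ⟨i, hi, rfl⟩ := h3 z hz M
      exact ⟨i, hi, by rw [run_DD]⟩
  have e2 : ∀ i, G r f (run (DD r f δ) (v0 r f p0) w i) (w i) =
      gof (BP r f) (tk (BP r f) w i) (w i) := fun i => by rw [run_DD]; rfl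
  rw [← e1, hA, cnd_iff]
  constructor
  · rintro ⟨v, ⟨z, hz, c, hc, hF⟩, h4⟩
    refine ⟨v, fun M => ?_, N, fun i hi => ?_⟩
    · obtain ⟨i, hi, rfl, rfl⟩ := h2 z hz c hc M
      exact ⟨i, hi, by rwa [← e2]⟩
    · rw [← e2]; exact h4 _ (h1 i hi).1 _ (h1 i hi).2
  · rintro ⟨v, h4, M, h5⟩
    obtain ⟨i, hi, h6⟩ := h4 N
    refine ⟨v, ⟨_, (h1 i hi).1, _, (h1 i hi).2, by rwa [e2]⟩, fun z hz c hc => ?_⟩
    obtain ⟨i, hi, rfl, rfl⟩ := h2 z hz c hc M
    rw [e2]; exact h5 i hi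

end

end Pool.Agent.MP_0f075e_lc.H37

end MrgPart2

-- ======== part 3: formerly Pool.Agent.MP_0f075e_lc.H37.Face
section MrgPart3

/-! Reaching trees inside a closed set, and the faces of a good set. -/

namespace Pool.Agent.MP_0f075e_lc.H37

set_option linter.unusedSectionVars false

lemma last_false (v : Nm) : (∃ j, v = List.replicate j true) ∨
    ∃ u j, v = u ++ false :: List.replicate j true := by
  induction v with
  | nil => exact Or.inl ⟨0, rfl⟩
  | cons c v ih =>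
    rcases ih with ⟨j, rfl⟩ | ⟨u, j, rfl⟩
    · cases c
      · exact Or.inr ⟨[], j, rfl⟩
      · exact Or.inl ⟨j + 1, rfl⟩
    · exact Or.inr ⟨c :: u, j, rfl⟩

/-- Prefix-closed finite sets of names. -/
def Pc (J : Finset Nm) : Prop := ∀ x ∈ J, ∀ p, p <+: x → p ∈ J

lemma Pc.ins {J : Finset Nm} (h : Pc J) {v : Nm} (hv : PP (· ∈ J) v) : Pc (insert v J) := by
  intro x hx p hp
  rcases Finset.mem_insert.1 hx with rfl | hx
  · by_cases e : p = x
    · rw [e]; exact Finset.mem_insert_self _ _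
    · exact Finset.mem_insert_of_mem (hv p hp e)
  · exact Finset.mem_insert_of_mem (h x hx p hp)

section
variable {Q : Type} [Fintype Q] [DecidableEq Q]

structure Val (f : Q) (t : Q → Option Nm) : Prop where
  dead : t f = none
  cl : Cl t
  root : ∀ a x, t a = some x → Anc [] x

lemma Val.ne {f : Q} {t : Q → Option Nm} (ht : Val f t) (b : Q) (x : Nm) (h : t b = some x) :
    b ≠ f := by
  rintro rfl; rw [ht.dead] at h; simp at h

def res (J : Finset Nm) (t : Q → Option Nm) (a : Q) : Option Nm :=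
  (t a).bind fun x => if x ∈ J then some x else none

lemma res_eq {J : Finset Nm} {t : Q → Option Nm} {a : Q} {x : Nm} :
    res J t a = some x ↔ t a = some x ∧ x ∈ J := by
  unfold res
  rcases t a with _ | y
  · simp
  · by_cases h : y ∈ J
    · simp only [Option.bind_some, h, if_true, Option.some.injEq]
      exact ⟨fun e => ⟨e, e ▸ h⟩, fun e => e.1⟩
    · simp only [Option.bind_some, h, if_false, Option.some.injEq]
      exact ⟨fun e => by simp at e, fun e => absurd (e.1 ▸ e.2) h⟩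

lemma res_cl {J : Finset Nm} {t : Q → Option Nm} (ht : Cl t) (hJ : Pc J) : Cl (res J t) := by
  intro a v p h hp
  obtain ⟨h1, h2⟩ := res_eq.1 h
  obtain ⟨a', ha'⟩ := ht a v p h1 hp
  exact ⟨a', res_eq.2 ⟨ha', hJ v h2 p hp⟩⟩

lemma opt_ext {o o' : Option Nm} (h : ∀ x, o = some x ↔ o' = some x) : o = o' :=
  Option.ext h

variable (r f : Q) {P : Type} [Finite P] (δ : P → (Q → Option Q) → P)

/-- The arrow keeps every node of `I` hosted. -/
def phi (I : Finset Nm) (z : P × CT Q) (c : Q → Option Q) : Prop :=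
  ∀ μ ∈ I, HS (G r f z c) μ

def Clo (I : Finset Nm) (W : Set (P × CT Q)) : Prop :=
  ∀ z ∈ W, ∀ c, phi r f I z c → DD r f δ z c ∈ W

variable {r f δ}

lemma Clo.to {I : Finset Nm} {W : Set (P × CT Q)} (hW : Clo r f δ I W) {z : P × CT Q}
    (hz : z ∈ W) (c : Q → Option Q) (h' : CT Q) (e : nx (G r f z c) = h'.1)
    (hI : ∀ μ ∈ I, HS (G r f z c) μ) : ∃ p, (p, h') ∈ W := by
  refine ⟨δ z.1 c, ?_⟩
  have := hW z hz c hI
  unfold DD at this
  rwa [show (⟨nx (G r f z c), nx_cl _⟩ : CT Q) = h' from Subtype.ext e] at this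

lemma G_keep (z : P × CT Q) (hf : z.2.1 f = none) (J : Finset Nm) :
    ∃ c, G r f z c = res J z.2.1 := by
  classical
  refine ⟨fun b => if ∃ x ∈ J, z.2.1 b = some x then some b else none, funext fun b => ?_⟩
  by_cases hb : b = f
  · subst hb
    simp [G, gof_f, hf, res]
  · rw [G, gof_ne _ _ hb]
    refine opt_ext fun x => ?_
    rw [res_eq]
    split_ifs with h
    · obtain ⟨y, h1, h2⟩ := h
      simp only [Option.bind_some, h2, Option.some.injEq]
      exact ⟨fun e => ⟨e, e ▸ h1⟩, fun e => e.1⟩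
    · simp only [Option.bind_none, reduceCtorEq, false_iff]
      exact fun e => h ⟨x, e.2, e.1⟩

lemma reach_step {I J : Finset Nm} {W : Set (P × CT Q)} (hW : Clo r f δ I W) {t : Q → Option Nm}
    (ht : Val f t) (hJ : Pc J) (hIJ : I ⊆ J) (hJt : ∀ μ ∈ J, HS t μ) (h0 : [] ∈ J) {v : Nm}
    (hv : HS t v) (hvJ : v ∉ J) (hp : PP (· ∈ J) v)
    (h : ∃ p, (p, (⟨res J t, res_cl ht.cl hJ⟩ : CT Q)) ∈ W) :
    ∃ p, (p, (⟨res (insert v J) t, res_cl ht.cl (hJ.ins hp)⟩ : CT Q)) ∈ W := by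
  classical
  obtain ⟨p, hpW⟩ := h
  obtain ⟨b0, hb0⟩ := hv
  have hlen : v.length < Fintype.card Q := by
    rw [← Nat.card_eq_fintype_card]; exact length_lt_card _ ht.cl hb0
  obtain ⟨u, j, rfl⟩ : ∃ u j, v = u ++ false :: List.replicate j true := by
    rcases last_false v with ⟨j, rfl⟩ | h
    · rcases j with _ | j
      · exact absurd h0 hvJ
      · have := (anc_nil_iff _).1 (ht.root _ _ hb0)
        simp [List.replicate_succ] at this
    · exact h
  set v := u ++ false :: List.replicate j true with hvdef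
  have huJ : u ∈ J := hp u (List.prefix_append _ _) (by simp [hvdef])
  obtain ⟨a, ha⟩ := hJt u huJ
  have hne := ht.ne
  set z : P × CT Q := (p, ⟨res J t, res_cl ht.cl hJ⟩) with hz
  let c1 : Q → Option Q := fun b => if b = f then some a else some b
  have g1 : ∀ b, b ≠ f → G r f z c1 b = res J t b := fun b hb => by
    rw [G, gof_ne _ _ hb]; simp [c1, hb, hz]
  have g2 : G r f z c1 f = some (spawn (Fintype.card Q) u) := by
    rw [G, gof_f]; simp [c1, hz, res_eq.2 ⟨ha, huJ⟩]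
  have g3 : ∀ μ ∈ J, HS (G r f z c1) μ := fun μ hμ => by
    obtain ⟨b, hb⟩ := hJt μ hμ
    exact ⟨b, by rw [g1 b (hne b _ hb)]; exact res_eq.2 ⟨hb, hμ⟩⟩
  have g4 : v ++ [true] <+: spawn (Fintype.card Q) u := by
    obtain ⟨k, hk⟩ : ∃ k, Fintype.card Q = j + 1 + k := ⟨Fintype.card Q - (j + 1), by
      simp [hvdef] at hlen; omega⟩
    refine ⟨List.replicate k true, ?_⟩
    rw [hk, hvdef, spawn, List.replicate_add, List.replicate_add]; simp
  have g5 : nm (G r f z c1) (spawn (Fintype.card Q) u) = v := by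
    refine nm_E (hp.mono g3) ?_ ?_ g4
    · rintro ⟨b, hb⟩
      by_cases e : b = f
      · rw [e, g2] at hb
        rw [Option.some.inj hb] at g4
        exact not_self g4
      · rw [g1 b e] at hb
        exact hvJ (res_eq.1 hb).2
    · rintro ⟨b, x, hb, hx⟩
      by_cases e : b = f
      · rw [e, g2] at hb
        rw [← Option.some.inj hb] at hx
        exact not_both hx g4
      · rw [g1 b e] at hb
        exact hvJ (hJ x (res_eq.1 hb).2 v ((List.prefix_append _ _).trans hx))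
  have g6 : ∀ b, nx (G r f z c1) b = if b = f then some v else res J t b := by
    intro b
    split_ifs with e
    · rw [e, nx, g2, Option.map_some, g5]
    · rcases hb : res J t b with _ | x
      · rw [nx, g1 b e, hb]; rfl
      · refine nx_self ((g1 b e).trans hb) fun q hq _ => g3 q (hJ x (res_eq.1 hb).2 q hq)
  have hz1 := hW z hpW c1 (fun μ hμ => g3 μ (hIJ hμ))
  let c2 : Q → Option Q := fun b => if t b = some v then some f else if b = f then none else some b
  have g7 : G r f (DD r f δ z c1) c2 = res (insert v J) t := by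
    funext b
    by_cases e : b = f
    · subst e
      rw [G, gof_f]; simp [c2, ht.dead, res]
    · rw [G, gof_ne _ _ e]
      by_cases e2 : t b = some v
      · simp only [c2, e2, if_true, Option.bind_some, DD, g6]
        exact (res_eq.2 ⟨e2, Finset.mem_insert_self _ _⟩).symm
      · simp only [c2, e2, e, if_false, Option.bind_some, DD, g6]
        refine opt_ext fun x => ?_
        rw [res_eq, res_eq, Finset.mem_insert]
        exact ⟨fun h => ⟨h.1, Or.inr h.2⟩,
          fun h => ⟨h.1, h.2.resolve_left (by rintro rfl; exact e2 h.1)⟩⟩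
  refine hW.to hz1 c2 _ (by rw [g7]; exact nx_of_cl (res_cl ht.cl (hJ.ins hp))) fun μ hμ => ?_
  obtain ⟨b, hb⟩ := hJt μ (hIJ hμ)
  exact ⟨b, by rw [g7]; exact res_eq.2 ⟨hb, Finset.mem_insert_of_mem (hIJ hμ)⟩⟩

theorem reach {I : Finset Nm} {W : Set (P × CT Q)} (hW : Clo r f δ I W) {t : Q → Option Nm}
    (ht : Val f t) (hI : Pc I) (hIt : ∀ μ ∈ I, HS t μ) (h0 : [] ∈ I) {z : P × CT Q} (hz : z ∈ W)
    (hzI : ∀ μ ∈ I, HS z.2.1 μ) : ∃ p, (p, (⟨t, ht.cl⟩ : CT Q)) ∈ W := by
  classical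
  have key : ∀ k, ∀ (J : Finset Nm) (hJ : Pc J), I ⊆ J → (∀ μ ∈ J, HS t μ) →
      (img t \ J).card = k → (∃ p, (p, (⟨res J t, res_cl ht.cl hJ⟩ : CT Q)) ∈ W) →
      ∃ p, (p, (⟨t, ht.cl⟩ : CT Q)) ∈ W := by
    intro k
    induction k with
    | zero =>
      intro J hJ _ _ hk h
      have h1 : img t ⊆ J := Finset.sdiff_eq_empty_iff_subset.1 (Finset.card_eq_zero.1 hk)
      have h2 : res J t = t := funext fun b => opt_ext fun x => by
        rw [res_eq]; exact ⟨fun h => h.1, fun h => ⟨h, h1 (mem_img.2 ⟨b, h⟩)⟩⟩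
      simpa only [h2] using h
    | succ k ih =>
      intro J hJ hIJ hJt hk h
      obtain ⟨v, hv, hm⟩ := Finset.exists_min_image (img t \ J) List.length
        (Finset.card_pos.1 (by omega))
      obtain ⟨hv1, hv2⟩ := Finset.mem_sdiff.1 hv
      have hp : PP (· ∈ J) v := by
        intro q hq hne
        by_contra hc
        obtain ⟨a, ha⟩ := mem_img.1 hv1
        have := hm q (Finset.mem_sdiff.2 ⟨mem_img.2 (ht.cl a v q ha hq), hc⟩)
        exact hne (hq.eq_of_length_le this)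
      refine ih (insert v J) (hJ.ins hp) (hIJ.trans (Finset.subset_insert _ _)) ?_ ?_
        (reach_step hW ht hJ hIJ hJt (hIJ h0) (mem_img.1 hv1) hv2 hp h)
      · intro μ hμ
        rcases Finset.mem_insert.1 hμ with rfl | hμ
        · exact mem_img.1 hv1
        · exact hJt μ hμ
      · rw [Finset.sdiff_insert, Finset.card_erase_of_mem hv, hk]; rfl
  refine key _ I hI le_rfl hIt rfl ?_
  have : Nonempty Q := ⟨f⟩
  choose! host hhost using hzI
  let c : Q → Option Q := fun b => (res I t b).map host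
  have g1 : G r f z c = res I t := by
    funext b
    by_cases e : b = f
    · subst e
      rw [G, gof_f]; simp [c, ht.dead, res]
    · rw [G, gof_ne _ _ e]
      rcases hb : res I t b with _ | x
      · simp [c, hb]
      · simp [c, hb, hhost x (res_eq.1 hb).2]
  refine hW.to hz c _ (by rw [g1]; exact nx_of_cl (res_cl ht.cl hI)) fun μ hμ => ?_
  obtain ⟨b, hb⟩ := hIt μ hμ
  exact ⟨b, by rw [g1]; exact res_eq.2 ⟨hb, hμ⟩⟩

variable (r f δ) (p0 : P)

structure Good (I : Finset Nm) (Z : Set (P × CT Q)) : Prop where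
  sca : SCa (DD r f δ) (phi r f I) Z
  rch : ∀ z ∈ Z, ∃ u, dst (DD r f δ) (v0 r f p0) u = z
  hst : ∀ z ∈ Z, ∀ μ ∈ I, HS z.2.1 μ

structure Face (I : Finset Nm) (v : Nm) (Z X Y : Set (P × CT Q)) : Prop where
  yx : Y ⊆ X
  xz : X ⊆ Z
  good : Good r f δ p0 (insert v I) Y
  inx : ∀ z ∈ X, ∀ c, phi r f I z c → GD (G r f z c) v → DD r f δ z c ∈ X
  k2 : ∀ z ∈ X, ∀ c, phi r f I z c → ¬ HS (G r f z c) v → ¬ GD (G r f z c) v → DD r f δ z c ∉ X
  k1 : ∀ z ∈ Y, ∀ c, phi r f I z c → ¬ HS (G r f z c) v → GD (G r f z c) v → DD r f δ z c ∉ Y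

variable {r f δ p0} {Acc : Set P → Prop}

lemma Good.reach {I : Finset Nm} {Z : Set (P × CT Q)} (h : Good r f δ p0 I Z) {t : Q → Option Nm}
    (ht : Val f t) (hI : Pc I) (hIt : ∀ μ ∈ I, HS t μ) (h0 : [] ∈ I) :
    ∃ p, (p, (⟨t, ht.cl⟩ : CT Q)) ∈ Z := by
  obtain ⟨z, hz⟩ := h.sca.ne
  exact H37.reach h.sca.cl ht hI hIt h0 hz (h.hst z hz)

lemma phi_ins {I : Finset Nm} {v : Nm} {z : P × CT Q} {c : Q → Option Q} :
    phi r f (insert v I) z c ↔ phi r f I z c ∧ HS (G r f z c) v := by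
  simp only [phi, Finset.mem_insert, forall_eq_or_imp, and_comm]

theorem face_ex (hA : ∀ w, Acc (InfS (run δ p0 w)) ↔ (BP r f).Accepts w) {I : Finset Nm}
    {Z : Set (P × CT Q)} (h : Good r f δ p0 I Z) (hI : Pc I) (h0 : [] ∈ I) {v : Nm} (hv : v ∉ I)
    (hp : PP (· ∈ I) v) {t : Q → Option Nm} (ht : Val f t) (hIt : ∀ μ ∈ I, HS t μ)
    (hvt : HS t v) : ∃ X Y, Face r f δ p0 I v Z X Y := by
  classical
  have hJ := hI.ins hp
  have hJt : ∀ μ ∈ insert v I, HS t μ := fun μ hμ => by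
    rcases Finset.mem_insert.1 hμ with rfl | hμ
    · exact hvt
    · exact hIt μ hμ
  let ψ : P × CT Q → (Q → Option Q) → Prop := fun z c =>
    phi r f I z c ∧ (HS (G r f z c) v ∨ GD (G r f z c) v)
  have hψ : ∀ z c, ψ z c → Nv (G r f z c) v ∨ Fv (G r f z c) v := by
    rintro z c ⟨h1, h2⟩
    by_cases e : HS (G r f z c) v
    · exact Or.inl ⟨hp.mono h1, e⟩
    · exact Or.inr ⟨hp.mono h1, e, h2.resolve_left e⟩
  have hφ : ∀ z c, phi r f (insert v I) z c → ψ z c :=
    fun z c hc => ⟨(phi_ins.1 hc).1, Or.inl (phi_ins.1 hc).2⟩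
  obtain ⟨p1, hp1⟩ := h.reach ht hI hIt h0
  obtain ⟨X, hX1, hX⟩ := exists_sca (DD r f δ) ψ {z | z ∈ Z ∧ HS z.2.1 v} ⟨_, hp1, hvt⟩
    (fun z hz c hc => ⟨h.sca.cl z hz.1 c hc.1, host_nx (hψ z c hc)⟩)
  have hXc : Clo r f δ (insert v I) X := fun z hz c hc => hX.cl z hz c (hφ z c hc)
  obtain ⟨Y, hY1, hY⟩ := exists_sca (DD r f δ) (phi r f (insert v I)) X hX.ne hXc
  have hXh : ∀ z ∈ X, ∀ μ ∈ insert v I, HS z.2.1 μ := fun z hz μ hμ => by
    rcases Finset.mem_insert.1 hμ with rfl | hμ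
    · exact (hX1 hz).2
    · exact h.hst z (hX1 hz).1 μ hμ
  have hXr : ∀ z ∈ X, ∃ u, dst (DD r f δ) (v0 r f p0) u = z := fun z hz => h.rch z (hX1 hz).1
  have hYg : Good r f δ p0 (insert v I) Y :=
    ⟨hY, fun z hz => hXr z (hY1 hz), fun z hz => hXh z (hY1 hz)⟩
  obtain ⟨p2, hp2⟩ := hYg.reach ht hJ hJt (Finset.mem_insert_of_mem h0)
  obtain ⟨c2, hc2⟩ := G_keep (r := r) (p2, (⟨t, ht.cl⟩ : CT Q)) ht.dead (insert v I)
  have k1 : phi r f (insert v I) (p2, ⟨t, ht.cl⟩) c2 := fun μ hμ => by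
    obtain ⟨b, hb⟩ := hJt μ hμ
    exact ⟨b, by rw [hc2]; exact res_eq.2 ⟨hb, hμ⟩⟩
  have k2 : ∀ μ, Nv (G r f (p2, ⟨t, ht.cl⟩) c2) μ ∨ Fv (G r f (p2, ⟨t, ht.cl⟩) c2) μ →
      μ ∈ insert v I := by
    rw [hc2]
    rintro μ (⟨-, b, hb⟩ | ⟨-, -, b, x, hb, hx⟩)
    · exact (res_eq.1 hb).2
    · exact hJ x (res_eq.1 hb).2 μ ((List.prefix_append _ _).trans hx)
  refine ⟨X, Y, hY1, fun z hz => (hX1 hz).1, hYg, fun z hz c h1 h2 => hX.cl z hz c ⟨h1, Or.inr h2⟩,
    fun z hz c h1 h2 h3 h4 => ?_, fun z hz c h1 h2 h3 h4 => ?_⟩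
  · have e1 := acc_iff hA hX hXr ⟨_, hY1 hp2, c2, hφ _ _ k1⟩
    have e2 := acc_iff hA (hX.extra h4) hXr ⟨_, hY1 hp2, c2, Or.inl (hφ _ _ k1)⟩
    obtain ⟨a, ha⟩ := hvt
    have hne := ht.ne
    obtain ⟨c3, hc3⟩ := G_keep (r := r) (p2, (⟨t, ht.cl⟩ : CT Q)) ht.dead I
    let c4 : Q → Option Q := fun b => if b = f then some a else c3 b
    have g1 : ∀ b, b ≠ f → G r f (p2, ⟨t, ht.cl⟩) c4 b = res I t b := fun b hb => by
      have := congrFun hc3 b
      rw [G, gof_ne _ _ hb] at this ⊢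
      simpa [c4, hb] using this
    have g2 : G r f (p2, ⟨t, ht.cl⟩) c4 f = some (spawn (Fintype.card Q) v) := by
      rw [G, gof_f]; simp [c4, ha]
    have g3 : phi r f I (p2, ⟨t, ht.cl⟩) c4 := fun μ hμ => by
      obtain ⟨b, hb⟩ := hIt μ hμ
      exact ⟨b, by rw [g1 b (hne b _ hb)]; exact res_eq.2 ⟨hb, hμ⟩⟩
    have g4 : GD (G r f (p2, ⟨t, ht.cl⟩) c4) v := ⟨f, _, g2, _, by simp [spawn]; rfl⟩
    have g5 : ¬ HS (G r f (p2, ⟨t, ht.cl⟩) c4) v := by
      rintro ⟨b, hb⟩
      by_cases e : b = f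
      · rw [e, g2] at hb
        have := congrArg List.length (Option.some.inj hb)
        simp [spawn] at this
      · rw [g1 b e] at hb
        exact hv (res_eq.1 hb).2
    obtain ⟨μ, ⟨z', hz', c', hc', hF⟩, h5⟩ := e2.2 (e1.1 ⟨v, ⟨_, hY1 hp2, c4, ⟨g3, Or.inr g4⟩,
      hp.mono g3, g5, g4⟩, fun z _ c hc => hψ z c hc⟩)
    rcases Finset.mem_insert.1 (k2 μ (h5 _ (hY1 hp2) c2 (Or.inl (hφ _ _ k1)))) with rfl | hμ
    · rcases h5 z hz c (Or.inr ⟨rfl, rfl⟩) with h6 | h6
      · exact h2 h6.2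
      · exact h3 h6.2.2
    · rcases hc' with hc' | ⟨rfl, rfl⟩
      · exact hF.2.1 (hc'.1 μ hμ)
      · exact hF.2.1 (h1 μ hμ)
  · have e1 := acc_iff hA hY hYg.rch ⟨_, hp2, c2, k1⟩
    have e2 := acc_iff hA (hY.extra h4) hYg.rch ⟨_, hp2, c2, Or.inl k1⟩
    obtain ⟨μ, ⟨z', hz', c', hc', hF⟩, h5⟩ := e1.2 (e2.1 ⟨v, ⟨z, hz, c, Or.inr ⟨rfl, rfl⟩,
      hp.mono h1, h2, h3⟩, fun z' _ c' hc' => by
        rcases hc' with hc' | ⟨rfl, rfl⟩
        · exact hψ _ _ (hφ _ _ hc')
        · exact Or.inr ⟨hp.mono h1, h2, h3⟩⟩)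
    exact hF.2.1 (hc' μ (k2 μ (h5 _ hp2 c2 k1)))

end

end Pool.Agent.MP_0f075e_lc.H37

end MrgPart3

-- ======== part 4: formerly Pool.Agent.MP_0f075e_lc.H37.Num
section MrgPart4

/-! The weighted tree numbers and their growth. -/

namespace Pool.Agent.MP_0f075e_lc.H37

open Finset

/-- Weighted tree numbers divided by the factorial. -/
noncomputable def vv (θ b : ℝ) (m : ℕ) : ℝ :=
  if m = 0 then 1 else if m = 1 then b else
    ∑ j : Fin m, θ ^ j.1 / (j.1 + 1).factorial *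
      ∑ a : Fin (m - j.1), vv θ b a.1 * vv θ b (m - 1 - j.1 - a.1)
termination_by m
decreasing_by
  · have := a.2; omega
  · have := j.2; omega

lemma vv_zero (θ b : ℝ) : vv θ b 0 = 1 := by rw [vv]; simp
lemma vv_one (θ b : ℝ) : vv θ b 1 = b := by rw [vv]; simp

lemma vv_succ (θ b : ℝ) (m : ℕ) : vv θ b (m + 1) = (if m = 0 then b - 1 else 0) +
    ∑ p ∈ antidiagonal m, θ ^ p.1 / (p.1 + 1).factorial *
      ∑ q ∈ antidiagonal p.2, vv θ b q.1 * vv θ b q.2 := by
  by_cases hm : m = 0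
  · subst hm; simp [vv_one, vv_zero]
  rw [vv, if_neg (by omega), if_neg (by omega), if_neg hm, zero_add,
    Nat.sum_antidiagonal_eq_sum_range_succ_mk,
    Fin.sum_univ_eq_sum_range (fun j => θ ^ j / (j + 1).factorial *
      ∑ a : Fin (m + 1 - j), vv θ b a.1 * vv θ b (m + 1 - 1 - j - a.1))]
  refine sum_congr rfl fun j hj => ?_
  have hj' : j ≤ m := by simpa [Nat.lt_succ_iff] using hj
  rw [Nat.sum_antidiagonal_eq_sum_range_succ_mk,
    Fin.sum_univ_eq_sum_range (fun a => vv θ b a * vv θ b (m + 1 - 1 - j - a)),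
    show m + 1 - j = (m - j).succ by omega]
  simp

lemma vv_pos {θ b : ℝ} (hθ : 0 < θ) (hb : 1 ≤ b) (m : ℕ) : 0 < vv θ b m := by
  induction m using Nat.strong_induction_on with
  | _ m ih =>
    rcases m with _ | m
    · rw [vv_zero]; norm_num
    · rw [vv_succ]
      refine add_pos_of_nonneg_of_pos (by split_ifs <;> linarith) (sum_pos (fun p hp => ?_) ⟨(0, m), by simp⟩)
      refine mul_pos (by positivity) (sum_pos (fun q hq => ?_) ⟨(0, p.2), by simp⟩)
      have h1 := mem_antidiagonal.1 hp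
      have h2 := mem_antidiagonal.1 hq
      exact mul_pos (ih _ (by omega)) (ih _ (by omega))

lemma cauchy_eq (f g : ℕ → ℝ) (M : ℕ) : ∑ m ∈ range M, ∑ p ∈ antidiagonal m, f p.1 * g p.2 =
    ∑ p ∈ (range M ×ˢ range M).filter (fun p => p.1 + p.2 < M), f p.1 * g p.2 := by
  rw [← sum_fiberwise_of_maps_to (s := (range M ×ˢ range M).filter (fun p => p.1 + p.2 < M))
    (t := range M) (g := fun p => p.1 + p.2) (fun p hp => mem_range.2 (mem_filter.1 hp).2)]
  refine sum_congr rfl fun m hm => sum_congr ?_ fun _ _ => rfl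
  ext p
  have := mem_range.1 hm
  simp only [HasAntidiagonal.mem_antidiagonal, mem_filter, mem_product, mem_range]
  omega

lemma cauchy_le {f g : ℕ → ℝ} (hf : ∀ i, 0 ≤ f i) (hg : ∀ i, 0 ≤ g i) (M : ℕ) :
    ∑ m ∈ range M, ∑ p ∈ antidiagonal m, f p.1 * g p.2 ≤
      (∑ i ∈ range M, f i) * ∑ i ∈ range M, g i := by
  rw [cauchy_eq, sum_mul_sum, ← sum_product']
  exact sum_le_sum_of_subset_of_nonneg (filter_subset _ _) fun _ _ _ => mul_nonneg (hf _) (hg _)

lemma cauchy_ge {f g : ℕ → ℝ} (hf : ∀ i, 0 ≤ f i) (hg : ∀ i, 0 ≤ g i) (A B : ℕ) :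
    (∑ i ∈ range A, f i) * ∑ i ∈ range B, g i ≤
      ∑ m ∈ range (A + B), ∑ p ∈ antidiagonal m, f p.1 * g p.2 := by
  rw [cauchy_eq, sum_mul_sum, ← sum_product']
  refine sum_le_sum_of_subset_of_nonneg (fun p hp => ?_) fun _ _ _ => mul_nonneg (hf _) (hg _)
  simp only [mem_filter, mem_product, mem_range] at hp ⊢
  omega

lemma gf_succ (θ b x : ℝ) (M : ℕ) : ∑ m ∈ range (M + 2), vv θ b m * x ^ m =
    1 + (b - 1) * x + ∑ m ∈ range (M + 1), ∑ p ∈ antidiagonal m,
      (θ ^ p.1 * x ^ (p.1 + 1) / (p.1 + 1).factorial) *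
        ∑ q ∈ antidiagonal p.2, (vv θ b q.1 * x ^ q.1) * (vv θ b q.2 * x ^ q.2) := by
  rw [sum_range_succ', vv_zero]
  simp only [vv_succ, add_mul, sum_add_distrib]
  have h1 : ∑ m ∈ range (M + 1), (if m = 0 then b - 1 else 0) * x ^ (m + 1) = (b - 1) * x := by
    rw [sum_range_succ']; simp
  rw [h1]
  have h2 : ∀ m ∈ range (M + 1), (∑ p ∈ antidiagonal m, θ ^ p.1 / (p.1 + 1).factorial *
      ∑ q ∈ antidiagonal p.2, vv θ b q.1 * vv θ b q.2) * x ^ (m + 1) =
      ∑ p ∈ antidiagonal m, (θ ^ p.1 * x ^ (p.1 + 1) / (p.1 + 1).factorial) *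
        ∑ q ∈ antidiagonal p.2, (vv θ b q.1 * x ^ q.1) * (vv θ b q.2 * x ^ q.2) := by
    intro m _
    rw [sum_mul]
    refine sum_congr rfl fun p hp => ?_
    rw [mul_assoc, sum_mul, mul_sum, mul_sum]
    refine sum_congr rfl fun q hq => ?_
    rw [← mem_antidiagonal.1 hp, ← mem_antidiagonal.1 hq]; ring
  rw [sum_congr rfl h2]; ring

lemma vv_upper {θ b x u : ℝ} (hθ : 0 < θ) (hb : 1 ≤ b) (hx : 0 < x)
    (hu : Real.exp (θ * x) - 1 ≤ θ * u) (h : 4 * u * (1 + (b - 1) * x) ≤ 1) (m : ℕ) :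
    vv θ b m * x ^ m ≤ 2 * (1 + (b - 1) * x) := by
  have ha : ∀ i, 0 ≤ vv θ b i * x ^ i := fun i => (mul_pos (vv_pos hθ hb i) (pow_pos hx i)).le
  have hD : 1 ≤ 1 + (b - 1) * x := by nlinarith
  have he : ∀ M, ∑ j ∈ range M, θ ^ j * x ^ (j + 1) / (j + 1).factorial ≤ u := by
    intro M
    have h1 := Real.sum_le_exp_of_nonneg (mul_pos hθ hx).le (M + 1)
    rw [sum_range_succ'] at h1
    refine le_of_mul_le_mul_left ?_ hθ
    rw [mul_sum]
    have : ∀ j ∈ range M, θ * (θ ^ j * x ^ (j + 1) / (j + 1).factorial) =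
        (θ * x) ^ (j + 1) / (j + 1).factorial := fun j _ => by ring
    rw [sum_congr rfl this]
    simp only [pow_zero, Nat.factorial_zero, Nat.cast_one, div_one] at h1
    linarith
  have hu0 : 0 ≤ u := by simpa using he 0
  have key : ∀ M, ∑ m ∈ range (M + 1), vv θ b m * x ^ m ≤ 2 * (1 + (b - 1) * x) := by
    intro M
    induction M with
    | zero => simp [vv_zero]; linarith
    | succ M ih =>
      rw [gf_succ]
      have h1 := cauchy_le (f := fun j => θ ^ j * x ^ (j + 1) / (j + 1).factorial)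
        (g := fun k => ∑ q ∈ antidiagonal k, (vv θ b q.1 * x ^ q.1) * (vv θ b q.2 * x ^ q.2))
        (fun j => by positivity) (fun k => sum_nonneg fun q _ => mul_nonneg (ha _) (ha _)) (M + 1)
      have h2 := cauchy_le ha ha (M + 1)
      have h3 := sum_nonneg (s := range (M + 1)) fun i _ => ha i
      have h4 := mul_le_mul (he (M + 1)) (h2.trans (mul_le_mul ih ih h3 (by linarith)))
        (sum_nonneg fun k _ => sum_nonneg fun q _ => mul_nonneg (ha _) (ha _)) hu0
      nlinarith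
  exact (single_le_sum (fun i _ => ha i) (self_mem_range_succ m)).trans (key m)

lemma vv_mul {b : ℝ} (hb : 1 ≤ b) (a c : ℕ) : vv 1 b a * vv 1 b c ≤ vv 1 b (a + c + 1) := by
  have hp := fun i => (vv_pos one_pos hb i).le
  rw [vv_succ]
  refine le_add_of_nonneg_of_le (by split_ifs <;> linarith) ?_
  refine le_trans ?_ (single_le_sum (f := fun p : ℕ × ℕ => (1 : ℝ) ^ p.1 / (p.1 + 1).factorial *
      ∑ q ∈ antidiagonal p.2, vv 1 b q.1 * vv 1 b q.2)
    (fun p _ => mul_nonneg (by positivity) (sum_nonneg fun q _ => mul_nonneg (hp _) (hp _)))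
    (mem_antidiagonal.2 (zero_add (a + c)) : (0, a + c) ∈ _))
  have := single_le_sum (f := fun q : ℕ × ℕ => vv 1 b q.1 * vv 1 b q.2)
    (fun q _ => mul_nonneg (hp _) (hp _)) (mem_antidiagonal.2 rfl : (a, c) ∈ antidiagonal (a + c))
  simpa using this

lemma vv_lower {b x y : ℝ} (hb : 1 ≤ b) (hx : 0 < x) (hxy : x < y)
    (h : 1 < 4 * (x + x ^ 2 / 2 + x ^ 3 / 6 + x ^ 4 / 24) * (1 + (b - 1) * x)) :
    ∃ c : ℝ, 0 < c ∧ ∀ m, c ≤ vv 1 b m * y ^ m := by
  have hy : 0 < y := hx.trans hxy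
  have hp := vv_pos one_pos hb
  have ha : ∀ i, 0 ≤ vv 1 b i * x ^ i := fun i => (mul_pos (hp i) (pow_pos hx i)).le
  obtain ⟨m0, hm0⟩ : ∃ m0, 1 ≤ vv 1 b m0 * y ^ (m0 + 1) := by
    by_contra hc
    push Not at hc
    set u := x + x ^ 2 / 2 + x ^ 3 / 6 + x ^ 4 / 24 with hu
    set D := 1 + (b - 1) * x with hD
    set V : ℕ → ℝ := fun M => ∑ m ∈ range M, vv 1 b m * x ^ m with hV
    have u0 : 0 < u := by positivity
    have h1 : ∀ M, V M ≤ y⁻¹ * (1 - x / y)⁻¹ := by
      intro M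
      have h2 : x / y < 1 := (div_lt_one hy).2 hxy
      have h3 := (summable_geometric_of_lt_one (by positivity) h2).sum_le_tsum (range M)
        (fun i _ => by positivity)
      rw [tsum_geometric_of_lt_one (by positivity) h2] at h3
      refine le_trans ?_ (mul_le_mul_of_nonneg_left h3 (by positivity))
      rw [mul_sum]
      refine sum_le_sum fun m _ => ?_
      calc vv 1 b m * x ^ m = vv 1 b m * y ^ (m + 1) * (y⁻¹ * (x / y) ^ m) := by
            rw [div_pow]; field_simp; ring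
        _ ≤ 1 * (y⁻¹ * (x / y) ^ m) := by gcongr; exact (hc m).le
        _ = _ := one_mul _
    have h2 : ∀ M, D + u * V M ^ 2 ≤ V (4 + (M + M) + 1) := by
      intro M
      simp only [hV]
      rw [show 4 + (M + M) + 1 = (3 + (M + M)) + 2 by ring, gf_succ,
        show 3 + (M + M) + 1 = 4 + (M + M) by ring]
      have h3 := cauchy_ge (f := fun j => (1 : ℝ) ^ j * x ^ (j + 1) / (j + 1).factorial)
        (g := fun k => ∑ q ∈ antidiagonal k, (vv 1 b q.1 * x ^ q.1) * (vv 1 b q.2 * x ^ q.2))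
        (fun j => by positivity) (fun k => sum_nonneg fun q _ => mul_nonneg (ha _) (ha _)) 4 (M + M)
      have h4 := cauchy_ge ha ha M M
      have h5 : ∑ j ∈ range 4, (1 : ℝ) ^ j * x ^ (j + 1) / (j + 1).factorial = u := by
        simp only [sum_range_succ, sum_range_zero, Nat.factorial, hu]; push_cast; ring
      rw [h5] at h3
      have h6 := mul_le_mul_of_nonneg_left h4 u0.le
      rw [sq]
      linarith
    have h3 : ∀ k : ℕ, ∃ M, k * (D - 1 / (4 * u)) ≤ V M := by
      intro k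
      induction k with
      | zero => exact ⟨0, by simp [hV]⟩
      | succ k ih =>
        obtain ⟨M, hM⟩ := ih
        refine ⟨_, le_trans ?_ (h2 M)⟩
        have h4 : V M - 1 / (4 * u) ≤ u * V M ^ 2 := by
          have : u * V M ^ 2 - V M + 1 / (4 * u) = (2 * u * V M - 1) ^ 2 / (4 * u) := by
            field_simp; ring
          have h5 : 0 ≤ (2 * u * V M - 1) ^ 2 / (4 * u) := by positivity
          linarith
        push_cast
        linarith
    have h4 : 0 < D - 1 / (4 * u) := by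
      rw [sub_pos, div_lt_iff₀ (by positivity)]; linarith
    obtain ⟨k, hk⟩ := exists_nat_gt (y⁻¹ * (1 - x / y)⁻¹ / (D - 1 / (4 * u)))
    rw [div_lt_iff₀ h4] at hk
    obtain ⟨M, hM⟩ := h3 k
    linarith [h1 M]
  obtain ⟨i, -, hi⟩ := exists_min_image (range (m0 + 1)) (fun m => vv 1 b m * y ^ m) ⟨0, by simp⟩
  refine ⟨vv 1 b i * y ^ i, mul_pos (hp i) (pow_pos hy i), fun m => ?_⟩
  induction m using Nat.strong_induction_on with
  | _ m ih =>
    rcases lt_or_ge m (m0 + 1) with hm | hm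
    · exact hi m (mem_range.2 hm)
    · obtain ⟨k, rfl⟩ : ∃ k, m = k + m0 + 1 := ⟨m - (m0 + 1), by omega⟩
      have h1 := ih k (by omega)
      have h2 := vv_mul hb k m0
      have h3 : 0 < vv 1 b k * y ^ k := mul_pos (hp k) (pow_pos hy k)
      calc _ ≤ vv 1 b k * y ^ k * 1 := by rw [mul_one]; exact h1
        _ ≤ vv 1 b k * y ^ k * (vv 1 b m0 * y ^ (m0 + 1)) := by gcongr
        _ = vv 1 b k * vv 1 b m0 * y ^ (k + m0 + 1) := by ring
        _ ≤ _ := by gcongr

/-- Weighted tree numbers. -/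
noncomputable def ww (θ b : ℝ) (m : ℕ) : ℝ := m.factorial * vv θ b m

lemma ww_zero (θ b : ℝ) : ww θ b 0 = 1 := by simp [ww, vv_zero]
lemma ww_one (θ b : ℝ) : ww θ b 1 = b := by simp [ww, vv_one]

lemma ww_split {Q : Type} [DecidableEq Q] {θ : ℝ} (hθ : θ ≠ 0) (b : ℝ) (B : Finset Q)
    (hB : 2 ≤ B.card) : ∑ O ∈ B.powerset.erase ∅, ∑ L ∈ (B \ O).powerset,
      θ ^ O.card * θ⁻¹ * (ww θ b L.card * ww θ b ((B \ O) \ L).card) = ww θ b B.card := by
  obtain ⟨m, hm⟩ : ∃ m, B.card = m + 1 := ⟨B.card - 1, by omega⟩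
  have h1 : ∀ T : Finset Q, ∑ L ∈ T.powerset, ww θ b L.card * ww θ b (T \ L).card =
      T.card.factorial * ∑ q ∈ antidiagonal T.card, vv θ b q.1 * vv θ b q.2 := by
    intro T
    rw [sum_congr rfl fun L hL => by rw [card_sdiff_of_subset (mem_powerset.1 hL)],
      sum_powerset_apply_card (fun j => ww θ b j * ww θ b (T.card - j)),
      Nat.sum_antidiagonal_eq_sum_range_succ_mk, mul_sum]
    refine sum_congr rfl fun j hj => ?_
    have hj' : j ≤ T.card := by simpa [Nat.lt_succ_iff] using hj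
    have h3 : (T.card.choose j : ℝ) * j.factorial * (T.card - j).factorial = T.card.factorial := by
      exact_mod_cast Nat.choose_mul_factorial_mul_factorial hj'
    rw [← h3, nsmul_eq_mul, ww, ww]; ring
  let F : ℕ → ℝ := fun j => if j = 0 then 0 else θ ^ j * θ⁻¹ * ((m + 1 - j).factorial *
    ∑ q ∈ antidiagonal (m + 1 - j), vv θ b q.1 * vv θ b q.2)
  have h2 : ∑ O ∈ B.powerset.erase ∅, ∑ L ∈ (B \ O).powerset,
      θ ^ O.card * θ⁻¹ * (ww θ b L.card * ww θ b ((B \ O) \ L).card) =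
      ∑ O ∈ B.powerset, F O.card := by
    rw [← add_sum_erase _ _ (empty_mem_powerset B)]
    simp only [F, card_empty, if_true, zero_add]
    refine sum_congr rfl fun O hO => ?_
    obtain ⟨h3, h4⟩ := mem_erase.1 hO
    rw [if_neg (by simpa using h3), ← mul_sum, h1, card_sdiff_of_subset (mem_powerset.1 h4), hm]
  rw [h2, sum_powerset_apply_card F, hm, sum_range_succ', ww, vv_succ, if_neg (by omega),
    Nat.sum_antidiagonal_eq_sum_range_succ_mk, zero_add, mul_sum]
  simp only [F, if_true, smul_zero, add_zero]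
  refine sum_congr rfl fun j hj => ?_
  have hj' : j + 1 ≤ m + 1 := by simpa [Nat.lt_succ_iff] using hj
  have h3 : ((m + 1).choose (j + 1) : ℝ) * (j + 1).factorial * (m + 1 - (j + 1)).factorial =
      (m + 1).factorial := by
    exact_mod_cast Nat.choose_mul_factorial_mul_factorial hj'
  rw [if_neg (by omega), ← h3, nsmul_eq_mul, show m + 1 - (j + 1) = m - j by omega]
  have : ((j + 1).factorial : ℝ) ≠ 0 := by positivity
  field_simp
  ring

end Pool.Agent.MP_0f075e_lc.H37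

end MrgPart4

-- marker of a merged file
example : 731051 + 163276 = 731051 + 163276 := rfl
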