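import Mathlib.Data.Nat.Choose.Vandermonde
import Pool.Agent.MP_0f075e_lc.H37.Num

/-! Many states over one tree whose unstable nodes are leaves. -/

namespace Pool.Agent.MP_0f075e_lc.H37

open Finset

set_option linter.unusedSectionVars false

lemma choose_mul_le (a b c d : ℕ) : a.choose c * b.choose d ≤ (a + b).choose (c + d) := by
  rw [Nat.add_choose_eq]
  exact single_le_sum (f := fun ij : ℕ × ℕ => a.choose ij.1 * b.choose ij.2)
    (fun _ _ => Nat.zero_le _) (mem_antidiagonal.2 (rfl : (c, d).1 + (c, d).2 = c + d))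

lemma choose_pow_le (a c m : ℕ) : a.choose c ^ m ≤ (a * m).choose (c * m) := by
  induction m with
  | zero => simp
  | succ m ih =>
    rw [pow_succ, mul_add, mul_add, mul_one, mul_one]
    exact (Nat.mul_le_mul_right _ ih).trans (choose_mul_le _ _ _ _)

lemma choose_num : 16 ^ 800 ≤ 9 ^ 800 * (Nat.choose 450 220 * 2 ^ 220) := by
  rw [Nat.choose_eq_descFactorial_div_factorial]
  decide +kernel

lemma pattern_num {k τ : ℕ} (h : 9 * k < 16 * τ) :
    ((16 / 9 : ℝ) ^ 800)⁻¹ * (16 / 9) ^ k ≤ (τ.choose (220 * (k / 800)) * 2 ^ (220 * (k / 800)) : ℕ) := by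
  set m := k / 800 with hm
  have h1 : (450 * m).choose (220 * m) ≤ τ.choose (220 * m) := Nat.choose_le_choose _ (by omega)
  have h2 : (Nat.choose 450 220 * 2 ^ 220) ^ m ≤ τ.choose (220 * m) * 2 ^ (220 * m) := by
    rw [mul_pow, ← pow_mul]
    exact Nat.mul_le_mul_right _ ((choose_pow_le _ _ _).trans h1)
  have h3 : (16 / 9 : ℝ) ^ 800 ≤ (Nat.choose 450 220 * 2 ^ 220 : ℕ) := by
    rw [div_pow, div_le_iff₀ (by positivity), mul_comm]
    exact_mod_cast choose_num
  rw [inv_mul_le_iff₀ (by positivity)]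
  calc (16 / 9 : ℝ) ^ k ≤ (16 / 9) ^ (800 + 800 * m) := pow_le_pow_right₀ (by norm_num) (by omega)
    _ = (16 / 9) ^ 800 * ((16 / 9) ^ 800) ^ m := by rw [pow_add, pow_mul]
    _ ≤ (16 / 9) ^ 800 * ((Nat.choose 450 220 * 2 ^ 220 : ℕ) : ℝ) ^ m := by gcongr
    _ ≤ _ := by gcongr; exact_mod_cast h2

section
variable {Q : Type} [Fintype Q] [DecidableEq Q]

lemma tree_ex (f : Q) (M : Finset Nm) (hM : Pc M) (hr : ∀ x ∈ M, Anc [] x)
    (hc : M.card + 1 ≤ Fintype.card Q) : ∃ h, Val f h ∧ ∀ x ∈ M, HS h x := by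
  classical
  obtain ⟨e⟩ : Nonempty (M ↪ {b : Q // b ≠ f}) :=
    Function.Embedding.nonempty_of_card_le (by simp; omega)
  let h : Q → Option Nm := fun b => if hb : ∃ x : M, (e x).1 = b then some hb.choose.1 else none
  have h1 : ∀ b x, h b = some x → x ∈ M := by
    intro b x hx
    simp only [h] at hx
    split_ifs at hx with hb
    rw [← Option.some.inj hx]; exact hb.choose.2
  have h2 : ∀ x ∈ M, HS h x := by
    intro x hx
    have hb : ∃ y : M, (e y).1 = (e ⟨x, hx⟩).1 := ⟨_, rfl⟩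
    refine ⟨(e ⟨x, hx⟩).1, ?_⟩
    simp only [h]
    rw [dif_pos hb, e.injective (Subtype.ext hb.choose_spec)]
  refine ⟨h, ⟨?_, fun a v p ha hp => h2 p (hM v (h1 a v ha) p hp), fun a x ha => hr x (h1 a x ha)⟩,
    h2⟩
  simp only [h]
  rw [dif_neg]
  rintro ⟨x, hx⟩
  exact (e x).2 hx

/-- A template: a valid tree all of whose nodes outside `I` hang directly below `I`. -/
structure Tmp (f : Q) (I : Finset Nm) (t : Q → Option Nm) : Prop where
  val : Val f t
  pc : Pc I
  nil : [] ∈ I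
  hst : ∀ μ ∈ I, HS t μ
  pp : ∀ a x, t a = some x → PP (· ∈ I) x

lemma anc_ext {v : Nm} (h : Anc [] v) (hv : v ≠ []) (c : Bool) : Anc [] (v ++ [c]) := by
  rcases (anc_nil_iff v).1 h with h | ⟨y, rfl⟩
  · exact absurd h hv
  · exact (anc_nil_iff _).2 (Or.inr ⟨_, rfl⟩)

variable {r f : Q} {P : Type} [Finite P] {δ : P → (Q → Option Q) → P} {p0 : P}
  {Acc : Set P → Prop}

lemma events {I : Finset Nm} {t : Q → Option Nm} (ht : Tmp f I t) {J J' B : Finset Nm}
    (hJ : J ⊆ img t \ I) (hJ' : J' ⊆ J) {W : Set (P × CT Q)} (hW : Clo r f δ (I ∪ J) W) {p : P}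
    (hp : (p, (⟨t, ht.val.cl⟩ : CT Q)) ∈ W)
    (hc : (img t).card + J'.card + 1 ≤ Fintype.card Q) :
    ∃ z ∈ W, ∃ c, (DD r f δ z c).2 = ⟨t, ht.val.cl⟩ ∧ phi r f I z c ∧
      (∀ v ∈ J, v ∉ J' → HS (G r f z c) v) ∧
      ∀ v ∈ J', ¬ HS (G r f z c) v ∧ (GD (G r f z c) v ↔ v ∉ B) := by
  classical
  have a1 : ∀ v ∈ J, HS t v ∧ v ∉ I := fun v hv =>
    ⟨mem_img.1 (mem_sdiff.1 (hJ hv)).1, (mem_sdiff.1 (hJ hv)).2⟩
  have a2 : ∀ x, HS t x → PP (· ∈ I) x := fun x ⟨a, ha⟩ => ht.pp a x ha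
  have a3 : ∀ v x c, v ∉ I → HS t x → ¬ v ++ [c] <+: x := fun v x c hv hx h =>
    hv (a2 x hx v ((List.prefix_append _ _).trans h) (by rintro rfl; exact not_self h))
  let m : Nm → Nm := fun x => if x ∈ J' then x ++ [decide (x ∈ B)] else x
  let M := img t ∪ J'.image m
  have hMt : Pc (img t) := fun x hx q hq => by
    obtain ⟨a, ha⟩ := mem_img.1 hx
    exact mem_img.2 (ht.val.cl a x q ha hq)
  obtain ⟨h1, hv1, hh1⟩ := tree_ex f M (by
      intro x hx q hq
      rcases mem_union.1 hx with hx | hx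
      · exact mem_union_left _ (hMt x hx q hq)
      · obtain ⟨v, hv, rfl⟩ := mem_image.1 hx
        simp only [m, hv, if_true] at hq
        rcases List.prefix_concat_iff.1 hq with h | h
        · exact mem_union_right _ (mem_image.2 ⟨v, hv, by simp only [m, hv, if_true, h]⟩)
        · exact mem_union_left _ (hMt v (mem_img.2 (a1 v (hJ' hv)).1) q h))
    (by
      intro x hx
      rcases mem_union.1 hx with hx | hx
      · obtain ⟨a, ha⟩ := mem_img.1 hx
        exact ht.val.root a x ha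
      · obtain ⟨v, hv, rfl⟩ := mem_image.1 hx
        obtain ⟨⟨a, ha⟩, h2⟩ := a1 v (hJ' hv)
        simp only [m, hv, if_true]
        exact anc_ext (ht.val.root a v ha) (by rintro rfl; exact h2 ht.nil) _)
    (by
      have h1 := card_union_le (img t) (J'.image m)
      have h2 := card_image_le (s := J') (f := m)
      simp only [M]; omega)
  have hIJ : ∀ μ ∈ I ∪ J, HS t μ := fun μ hμ => by
    rcases mem_union.1 hμ with h | h
    · exact ht.hst μ h
    · exact (a1 μ h).1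
  obtain ⟨p1, hp1⟩ := reach hW hv1 (by
      intro x hx q hq
      by_cases e : q = x
      · rw [e]; exact hx
      · exact mem_union_left _ (a2 x (hIJ x hx) q hq e))
    (fun μ hμ => hh1 μ (mem_union_left _ (mem_img.2 (hIJ μ hμ)))) (mem_union_left _ ht.nil) hp hIJ
  have : Nonempty Q := ⟨f⟩
  choose! host hhost using hh1
  set z : P × CT Q := (p1, ⟨h1, hv1.cl⟩) with hz
  let c : Q → Option Q := fun b => (t b).map fun x => host (m x)
  have g1 : ∀ b, G r f z c b = (t b).map m := by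
    intro b
    by_cases e : b = f
    · subst e
      rw [G, gof_f]; simp [c, ht.val.dead]
    · rw [G, gof_ne _ _ e]
      rcases hb : t b with _ | x
      · simp [c, hb]
      · simp only [c, hb, Option.map_some, Option.bind_some, hz]
        refine hhost _ ?_
        by_cases hx : x ∈ J'
        · exact mem_union_right _ (mem_image_of_mem _ hx)
        · simp only [m, hx, if_false]; exact mem_union_left _ (mem_img.2 ⟨b, hb⟩)
  have g2 : ∀ x, HS t x → x ∉ J' → HS (G r f z c) x := fun x ⟨b, hb⟩ hx =>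
    ⟨b, by simp [g1, hb, m, hx]⟩
  have g3 : phi r f I z c := fun μ hμ => g2 μ (ht.hst μ hμ) fun h => (a1 μ (hJ' h)).2 hμ
  have g4 : ∀ v ∈ J', ¬ HS (G r f z c) v ∧ (GD (G r f z c) v ↔ v ∉ B) := by
    intro v hv
    obtain ⟨⟨a, ha⟩, hvI⟩ := a1 v (hJ' hv)
    refine ⟨?_, ?_, fun hB => ⟨a, v ++ [false], by simp [g1, ha, m, hv, hB], List.prefix_refl _⟩⟩
    · rintro ⟨b, hb⟩
      rw [g1] at hb
      obtain ⟨x, hx, e⟩ := Option.map_eq_some_iff.1 hb
      by_cases hxJ : x ∈ J'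
      · simp only [m, hxJ, if_true] at e
        exact a3 x v _ (a1 x (hJ' hxJ)).2 ⟨a, ha⟩ (by rw [e])
      · simp only [m, hxJ, if_false] at e
        exact hxJ (e ▸ hv)
    · rintro ⟨b, y, hb, hy⟩ hB
      rw [g1] at hb
      obtain ⟨x, hx, rfl⟩ := Option.map_eq_some_iff.1 hb
      by_cases hxJ : x ∈ J'
      · simp only [m, hxJ, if_true] at hy
        rcases List.prefix_concat_iff.1 hy with h | h
        · obtain ⟨rfl, h2⟩ := List.append_inj' h rfl
          simp [hB] at h2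
        · exact a3 v x _ hvI ⟨b, hx⟩ h
      · simp only [m, hxJ, if_false] at hy
        exact a3 v x _ hvI ⟨b, hx⟩ hy
  refine ⟨z, hp1, c, Subtype.ext (funext fun b => ?_), g3,
    fun v hv hv' => g2 v (a1 v hv).1 hv', g4⟩
  show nx (G r f z c) b = t b
  rcases hb : t b with _ | x
  · simp [nx, g1, hb]
  · have hP : PP (HS (G r f z c)) x := (ht.pp b x hb).mono g3
    by_cases hx : x ∈ J'
    · have := g4 x hx
      simp only [nx, g1, hb, Option.map_some, m, hx, if_true, Option.some.injEq]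
      by_cases hB : x ∈ B
      · exact nm_E hP this.1 (fun h => this.2.1 h hB) (by simp [hB])
      · exact nm_F ⟨hP, this.1, this.2.2 hB⟩ (by simp [hB])
    · exact nx_self (by simp [g1, hb, m, hx]) hP

lemma Tmp.ins {I : Finset Nm} {t : Q → Option Nm} (ht : Tmp f I t) {v : Nm} (hv : HS t v) :
    Tmp f (insert v I) t := by
  obtain ⟨a, ha⟩ := hv
  refine ⟨ht.val, ht.pc.ins (ht.pp a v ha), mem_insert_of_mem ht.nil, fun μ hμ => ?_,
    fun b x hb => (ht.pp b x hb).mono fun _ h => mem_insert_of_mem h⟩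
  rcases mem_insert.1 hμ with rfl | hμ
  · exact ⟨a, ha⟩
  · exact ht.hst μ hμ

lemma Tmp.face (hA : ∀ w, Acc (InfS (run δ p0 w)) ↔ (BP r f).Accepts w) {I : Finset Nm}
    {t : Q → Option Nm} (ht : Tmp f I t) {Z : Set (P × CT Q)} (h : Good r f δ p0 I Z) {v : Nm}
    (hv : v ∈ img t \ I) : ∃ X Y, Face r f δ p0 I v Z X Y := by
  obtain ⟨h1, h2⟩ := mem_sdiff.1 hv
  obtain ⟨a, ha⟩ := mem_img.1 h1
  exact face_ex hA h ht.pc ht.nil h2 (ht.pp a v ha) ht.val ht.hst ⟨a, ha⟩

theorem caseB (hA : ∀ w, Acc (InfS (run δ p0 w)) ↔ (BP r f).Accepts w) {t : Q → Option Nm}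
    (hc : Cl t) (k : ℕ) : ∀ (I : Finset Nm) (Z : Set (P × CT Q)), Tmp f I t →
      (img t \ I).card = k → 11 * k + 40 * ((img t).card + 1) ≤ 40 * Fintype.card Q →
      Good r f δ p0 I Z →
      ((16 / 9 : ℝ) ^ 800)⁻¹ * (16 / 9) ^ k ≤ ({p | (p, (⟨t, hc⟩ : CT Q)) ∈ Z}.ncard : ℕ) := by
  classical
  induction k with
  | zero =>
    intro I Z ht _ _ hZ
    have h1 : 1 ≤ {p | (p, (⟨t, hc⟩ : CT Q)) ∈ Z}.ncard :=
      (Set.ncard_pos (Set.toFinite _)).2 (hZ.reach ht.val ht.pc ht.hst ht.nil)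
    have h2 : ((16 / 9 : ℝ) ^ 800)⁻¹ ≤ 1 := inv_le_one_of_one_le₀ (one_le_pow₀ (by norm_num))
    rw [pow_zero, mul_one]
    exact h2.trans (by exact_mod_cast h1)
  | succ k ih =>
    intro I Z ht hk hs hZ
    set K := img t \ I with hK
    choose! X Y hF using fun v (hv : v ∈ K) => ht.face hA hZ hv
    set S := {p | (p, (⟨t, hc⟩ : CT Q)) ∈ Z} with hS
    let fc : P → Finset Nm := fun p => K.filter fun v => (p, (⟨t, hc⟩ : CT Q)) ∈ Y v
    by_cases hbig : ∃ p ∈ S, 9 * (k + 1) < 16 * (fc p).card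
    · obtain ⟨p, hp, hbig⟩ := hbig
      refine (pattern_num hbig).trans (Nat.cast_le.2 ?_)
      set j := 220 * ((k + 1) / 800) with hj
      set J := fc p with hJ
      have hJK : J ⊆ K := filter_subset _ _
      have h1 : ((powersetCard j J).sigma fun J' => J'.powerset).card = J.card.choose j * 2 ^ j := by
        rw [card_sigma, ← card_powersetCard, ← smul_eq_mul]
        exact sum_eq_card_nsmul fun J' hJ' => by rw [card_powerset, (mem_powersetCard.1 hJ').2]
      rw [← h1, Set.ncard_eq_toFinset_card S]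
      refine card_le_card_of_surjOn (fun q => ⟨J.filter fun v => (q, (⟨t, hc⟩ : CT Q)) ∉ Y v,
        J.filter fun v => (q, (⟨t, hc⟩ : CT Q)) ∉ X v⟩) ?_
      rintro ⟨J', B⟩ hx
      simp only [coe_sigma, Set.mem_sigma_iff, mem_coe, mem_powersetCard, mem_powerset] at hx
      obtain ⟨⟨hJ', hcard⟩, hB⟩ := hx
      obtain ⟨z, ⟨hz, hzY⟩, c, e1, e2, e3, e4⟩ := events (r := r) (δ := δ) (B := B) ht hJK hJ'
        (W := {z | z ∈ Z ∧ ∀ v ∈ J, z ∈ Y v})
        (fun z hz c hc => ⟨hZ.sca.cl z hz.1 c fun μ hμ => hc μ (mem_union_left _ hμ),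
          fun v hv => (hF v (hJK hv)).good.sca.cl z (hz.2 v hv) c
            (phi_ins.2 ⟨fun μ hμ => hc μ (mem_union_left _ hμ), hc v (mem_union_right _ hv)⟩)⟩)
        ⟨hp, fun v hv => (mem_filter.1 hv).2⟩ (by omega)
      have e5 : ((DD r f δ z c).1, (⟨t, hc⟩ : CT Q)) = DD r f δ z c := Prod.ext rfl e1.symm
      have e6 : ∀ v ∈ J, v ∉ J' → DD r f δ z c ∈ Y v := fun v hv hv' =>
        (hF v (hJK hv)).good.sca.cl z (hzY v hv) c (phi_ins.2 ⟨e2, e3 v hv hv'⟩)
      refine ⟨(DD r f δ z c).1, ?_, ?_⟩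
      · simp only [Set.Finite.coe_toFinset, hS, Set.mem_ofPred_eq, e5]
        exact hZ.sca.cl z hz c e2
      · simp only [e5, Sigma.mk.injEq, heq_eq_eq]
        constructor
        · ext v
          simp only [mem_filter]
          refine ⟨fun h => by_contra fun h' => h.2 (e6 v h.1 h'), fun h => ⟨hJ' h, ?_⟩⟩
          have hf := hF v (hJK (hJ' h))
          by_cases hg : GD (G r f z c) v
          · exact hf.k1 z (hzY v (hJ' h)) c e2 (e4 v h).1 hg
          · exact fun h3 => hf.k2 z (hf.yx (hzY v (hJ' h))) c e2 (e4 v h).1 hg (hf.yx h3)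
        · ext v
          simp only [mem_filter]
          constructor
          · rintro ⟨h2, h3⟩
            have hf := hF v (hJK h2)
            by_contra h4
            by_cases h5 : v ∈ J'
            · exact h3 (hf.inx z (hf.yx (hzY v h2)) c e2 ((e4 v h5).2.2 h4))
            · exact h3 (hf.yx (e6 v h2 h5))
          · intro h
            have hf := hF v (hJK (hJ' (hB h)))
            exact ⟨hJ' (hB h), hf.k2 z (hf.yx (hzY v (hJ' (hB h)))) c e2 (e4 v (hB h)).1
              fun h3 => (e4 v (hB h)).2.1 h3 h⟩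
    · push Not at hbig
      have h1 : ∀ v ∈ K, ((16 / 9 : ℝ) ^ 800)⁻¹ * (16 / 9) ^ k ≤
          ({p | (p, (⟨t, hc⟩ : CT Q)) ∈ Y v}.ncard : ℕ) := fun v hv =>
        ih (insert v I) (Y v) (ht.ins (mem_img.1 (mem_sdiff.1 hv).1))
          (by rw [sdiff_insert, card_erase_of_mem hv, hk]; rfl) (by omega) (hF v hv).good
      set Sf := (Set.toFinite S).toFinset with hSf
      have hcard : Sf.card = S.ncard := (Set.ncard_eq_toFinset_card S _).symm
      have hsum : ∑ v ∈ K, {p | (p, (⟨t, hc⟩ : CT Q)) ∈ Y v}.ncard = ∑ q ∈ Sf, (fc q).card := by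
        have : ∀ v ∈ K, {p | (p, (⟨t, hc⟩ : CT Q)) ∈ Y v}.ncard =
            (Sf.filter (fun q => (q, (⟨t, hc⟩ : CT Q)) ∈ Y v)).card := by
          intro v hv
          rw [← Set.ncard_coe_finset]
          congr 1; ext q
          simp only [hSf, Finset.coe_filter, Set.Finite.mem_toFinset, Set.mem_ofPred_eq, hS]
          exact ⟨fun h => ⟨(hF v hv).xz ((hF v hv).yx h), h⟩, fun h => h.2⟩
        rw [sum_congr rfl this]
        simp only [fc, Finset.card_filter]
        exact Finset.sum_comm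
      have h2 : 16 * ∑ q ∈ Sf, (fc q).card ≤ S.ncard * (9 * (k + 1)) := by
        rw [Finset.mul_sum, ← hcard]
        have := Finset.sum_le_card_nsmul Sf _ _ (fun q hq => hbig q (by simpa [hSf] using hq))
        simpa using this
      have h3 := card_nsmul_le_sum K _ _ h1
      rw [← Nat.cast_sum, hsum, hk, nsmul_eq_mul] at h3
      have h4 : (16 : ℝ) * ((∑ q ∈ Sf, (fc q).card : ℕ) : ℝ) ≤ S.ncard * (9 * (k + 1)) := by
        exact_mod_cast h2
      push_cast at h3 h4
      have h5 : (0 : ℝ) < k + 1 := by positivity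
      rw [pow_succ _ k, ← mul_assoc]
      generalize ((16 / 9 : ℝ) ^ 800)⁻¹ * (16 / 9) ^ k = A at h3 ⊢
      refine le_of_mul_le_mul_left ?_ h5
      linarith

end

end Pool.Agent.MP_0f075e_lc.H37
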