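import Mathlib.Topology.Sheaves.Presheaf
import Mathlib.Combinatorics.Enumerative.Catalan.Tree
import Pool.Agent.MP_0f075e_lc.H37.CaseB
import Pool.Agent.MP_0f075e_lc.H37.Num
import Pool.Agent.MP_0f075e_lc.Upper

-- ======== part 0: formerly Pool.Agent.MP_0f075e_lc.H37.CaseA
section MrgPart0

/-! Expanding the regions of a template. -/

namespace Pool.Agent.MP_0f075e_lc.H37

open Finset

set_option linter.unusedSectionVars false

lemma sum_ncard_le {ι P : Type} [Finite P] (S : ι → Set P) (T : Finset ι) : ∀ (U : Set P),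
    (∀ x ∈ T, S x ⊆ U) → (∀ x ∈ T, ∀ y ∈ T, ∀ p ∈ S x, p ∈ S y → x = y) →
    ∑ x ∈ T, (S x).ncard ≤ U.ncard := by
  classical
  induction T using Finset.induction_on with
  | empty => intro U _ _; simp
  | insert x T hx ih =>
    intro U h1 h2
    rw [sum_insert hx]
    have h3 := ih (U \ S x) (fun y hy p hp => ⟨h1 y (mem_insert_of_mem hy) hp, fun hp' => hx (by
      rw [h2 x (mem_insert_self _ _) y (mem_insert_of_mem hy) p hp' hp]; exact hy)⟩)
      (fun a ha b hb => h2 a (mem_insert_of_mem ha) b (mem_insert_of_mem hb))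
    have h4 := Set.ncard_sdiff_add_ncard_of_subset (h1 x (mem_insert_self _ _))
    omega

section
variable {Q : Type} [Fintype Q] [DecidableEq Q]

/-- The tree `h` refines the template `t`. -/
def Ref (I : Finset Nm) (t h : Q → Option Nm) : Prop :=
  ∀ a, (t a = none → h a = none) ∧
    ∀ v, t a = some v → ∃ y, h a = some (v ++ y) ∧ (v ∈ I → y = [])

def rf (t : Q → Option Nm) (v : Nm) (O L : Finset Q) (a : Q) : Option Nm :=
  if t a = some v then (if a ∈ O then some v else if a ∈ L then some (v ++ [false])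
    else some (v ++ [true])) else t a

def out (f : Q) (I : Finset Nm) (t : Q → Option Nm) : Finset Q :=
  univ.filter fun a => a ≠ f ∧ ∀ x ∈ t a, x ∈ I

lemma mem_out {f : Q} {I : Finset Nm} {t : Q → Option Nm} {a : Q} :
    a ∈ out f I t ↔ a ≠ f ∧ ∀ x, t a = some x → x ∈ I := by
  simp [out]

noncomputable def Phi (θ b : ℝ) (f : Q) (I : Finset Nm) (t : Q → Option Nm) : ℝ :=
  θ ^ (out f I t).card * θ⁻¹ ^ I.card * ∏ v ∈ img t \ I, ww θ b (own t v).card

lemma prod_ext (θ b : ℝ) (I : Finset Nm) (t : Q → Option Nm) {N : Finset Nm}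
    (h1 : img t \ I ⊆ N) (h2 : ∀ v ∈ N, v ∉ I) :
    ∏ v ∈ img t \ I, ww θ b (own t v).card = ∏ v ∈ N, ww θ b (own t v).card := by
  refine prod_subset h1 fun v hv hv' => ?_
  have : own t v = ∅ := by
    ext a
    simp only [mem_own, notMem_empty, iff_false]
    exact fun ha => hv' (mem_sdiff.2 ⟨mem_img.2 ⟨a, ha⟩, h2 v hv⟩)
  rw [this, card_empty, ww_zero]

variable {f : Q} {I : Finset Nm} {t : Q → Option Nm} {v : Nm} {O L : Finset Q}

lemma Tmp.no_ext (ht : Tmp f I t) (hv : v ∉ I) (c : Bool) (a : Q) : t a ≠ some (v ++ [c]) :=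
  fun h => hv (ht.pp a _ h v (List.prefix_append _ _) (by simp))

lemma Tmp.no_ext' (ht : Tmp f I t) (hv : v ∉ I) (c : Bool) : v ++ [c] ∉ I :=
  fun h => hv (ht.pc _ h v (List.prefix_append _ _))

lemma rf_cases (a : Q) (x : Nm) (h : rf t v O L a = some x) :
    (t a = some x ∧ x ≠ v) ∨ (t a = some v ∧ (a ∈ O ∧ x = v ∨ a ∉ O ∧ a ∈ L ∧ x = v ++ [false] ∨
      a ∉ O ∧ a ∉ L ∧ x = v ++ [true])) := by
  unfold rf at h
  split_ifs at h with h1 h2 h3
  · exact Or.inr ⟨h1, Or.inl ⟨h2, (Option.some.inj h).symm⟩⟩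
  · exact Or.inr ⟨h1, Or.inr (Or.inl ⟨h2, h3, (Option.some.inj h).symm⟩)⟩
  · exact Or.inr ⟨h1, Or.inr (Or.inr ⟨h2, h3, (Option.some.inj h).symm⟩)⟩
  · exact Or.inl ⟨h, by rintro rfl; exact h1 h⟩

lemma Tmp.rf (ht : Tmp f I t) (hv : v ∉ I) (hO : O ⊆ own t v) (hne : O ≠ ∅) :
    Tmp f (insert v I) (rf t v O L) := by
  obtain ⟨a0, ha0⟩ := nonempty_iff_ne_empty.2 hne
  have h0 := mem_own.1 (hO ha0)
  have hp := ht.pp a0 v h0
  have hst : ∀ μ ∈ insert v I, HS (H37.rf t v O L) μ := by
    intro μ hμ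
    rcases mem_insert.1 hμ with rfl | hμ
    · exact ⟨a0, by simp [H37.rf, h0, ha0]⟩
    · obtain ⟨a, ha⟩ := ht.hst μ hμ
      refine ⟨a, ?_⟩
      rw [H37.rf, if_neg, ha]
      rw [ha]; rintro h; exact hv (Option.some.inj h ▸ hμ)
  have hpp : ∀ a x, H37.rf t v O L a = some x → PP (· ∈ insert v I) x := by
    intro a x h
    have h1 : PP (· ∈ insert v I) v := hp.mono fun _ h => mem_insert_of_mem h
    rcases rf_cases a x h with ⟨h2, -⟩ | ⟨-, ⟨-, rfl⟩ | ⟨-, -, rfl⟩ | ⟨-, -, rfl⟩⟩
    · exact (ht.pp a x h2).mono fun _ h => mem_insert_of_mem h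
    · exact h1
    · exact pp_concat.2 ⟨h1, mem_insert_self _ _⟩
    · exact pp_concat.2 ⟨h1, mem_insert_self _ _⟩
  refine ⟨⟨by simp [H37.rf, ht.val.dead], fun a x p h hq => ?_, fun a x h => ?_⟩, ht.pc.ins hp,
    mem_insert_of_mem ht.nil, hst, hpp⟩
  · by_cases e : p = x
    · exact ⟨a, by rw [h, e]⟩
    · exact hst p (hpp a x h p hq e)
  · have h1 := ht.val.root a0 v h0
    have h2 : v ≠ [] := by rintro rfl; exact hv ht.nil
    rcases rf_cases a x h with ⟨h2, -⟩ | ⟨-, ⟨-, rfl⟩ | ⟨-, -, rfl⟩ | ⟨-, -, rfl⟩⟩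
    · exact ht.val.root a x h2
    · exact h1
    · exact anc_ext h1 h2 _
    · exact anc_ext h1 h2 _

lemma out_rf (ht : Tmp f I t) (hv : v ∉ I) (hO : O ⊆ own t v) :
    (out f (insert v I) (rf t v O L)).card = (out f I t).card + O.card := by
  rw [← card_union_of_disjoint]
  · congr 1
    ext a
    simp only [mem_out, mem_union, mem_insert]
    by_cases h : t a = some v
    · have h1 := ht.val.ne a v h
      have h2 := ht.no_ext' hv
      by_cases h3 : a ∈ O
      · simp [rf, h, h3, h1]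
      · by_cases h4 : a ∈ L <;> simp [rf, h, h3, h4, hv, h2]
    · have h3 : a ∉ O := fun h3 => h (mem_own.1 (hO h3))
      simp only [rf, h, h3, if_false, or_false]
      exact ⟨fun h4 => ⟨h4.1, fun x hx => (h4.2 x hx).resolve_left (by rintro rfl; exact h hx)⟩,
        fun h4 => ⟨h4.1, fun x hx => Or.inr (h4.2 x hx)⟩⟩
  · rw [disjoint_left]
    exact fun a ha h => hv ((mem_out.1 ha).2 v (mem_own.1 (hO h)))

lemma Phi_rf (θ b : ℝ) (ht : Tmp f I t) (hv : v ∈ img t \ I) (hO : O ⊆ own t v)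
    (hL : L ⊆ own t v \ O) : Phi θ b f (insert v I) (rf t v O L) =
      (θ ^ (out f I t).card * θ⁻¹ ^ I.card * ∏ μ ∈ (img t \ I).erase v, ww θ b (own t μ).card) *
        (θ ^ O.card * θ⁻¹ * (ww θ b L.card * ww θ b ((own t v \ O) \ L).card)) := by
  have hvI := (mem_sdiff.1 hv).2
  have n1 : ∀ c, v ++ [c] ∉ (img t \ I).erase v := fun c h => by
    obtain ⟨a, ha⟩ := mem_img.1 (mem_sdiff.1 (mem_of_mem_erase h)).1
    exact ht.no_ext hvI c a ha
  have e1 : own (rf t v O L) (v ++ [false]) = L := by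
    ext a
    rw [mem_own]
    constructor
    · intro h
      rcases rf_cases a _ h with ⟨h2, -⟩ | ⟨-, ⟨-, h2⟩ | ⟨-, h2, -⟩ | ⟨-, -, h2⟩⟩
      · exact absurd h2 (ht.no_ext hvI _ a)
      · simp at h2
      · exact h2
      · simp at h2
    · intro h
      obtain ⟨h1, h2⟩ := mem_sdiff.1 (hL h)
      simp [rf, mem_own.1 h1, h2, h]
  have e2 : own (rf t v O L) (v ++ [true]) = (own t v \ O) \ L := by
    ext a
    rw [mem_own, mem_sdiff, mem_sdiff, mem_own]
    constructor
    · intro h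
      rcases rf_cases a _ h with ⟨h2, -⟩ | ⟨h1, ⟨-, h2⟩ | ⟨-, -, h2⟩ | ⟨h2, h3, -⟩⟩
      · exact absurd h2 (ht.no_ext hvI _ a)
      · simp at h2
      · simp at h2
      · exact ⟨⟨h1, h2⟩, h3⟩
    · rintro ⟨⟨h1, h2⟩, h3⟩
      simp [rf, h1, h2, h3]
  have e3 : ∀ μ ∈ (img t \ I).erase v, own (rf t v O L) μ = own t μ := by
    intro μ hμ
    ext a
    rw [mem_own, mem_own]
    constructor
    · intro h
      rcases rf_cases a _ h with ⟨h2, -⟩ | ⟨-, ⟨-, h2⟩ | ⟨-, -, h2⟩ | ⟨-, -, h2⟩⟩
      · exact h2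
      · exact absurd h2 (mem_erase.1 hμ).1
      · exact absurd (h2 ▸ hμ) (n1 _)
      · exact absurd (h2 ▸ hμ) (n1 _)
    · intro h
      rw [rf, if_neg, h]
      rw [h]; intro h2; exact (mem_erase.1 hμ).1 (Option.some.inj h2)
  rw [Phi, out_rf ht hvI hO, card_insert_of_notMem hvI, prod_ext θ b (insert v I) (rf t v O L)
    (N := insert (v ++ [false]) (insert (v ++ [true]) ((img t \ I).erase v))),
    prod_insert (by simp only [mem_insert, not_or]; exact ⟨by simp, n1 _⟩), prod_insert (n1 _),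
    e1, e2, prod_congr rfl fun μ hμ => by rw [e3 μ hμ]]
  · ring
  · intro x hx
    obtain ⟨h1, h2⟩ := mem_sdiff.1 hx
    obtain ⟨a, ha⟩ := mem_img.1 h1
    simp only [mem_insert, not_or] at h2 ⊢
    rcases rf_cases a _ ha with ⟨h3, h4⟩ | ⟨-, ⟨-, h3⟩ | ⟨-, -, h3⟩ | ⟨-, -, h3⟩⟩
    · exact Or.inr (Or.inr (mem_erase.2 ⟨h4, mem_sdiff.2 ⟨mem_img.2 ⟨a, h3⟩, h2.2⟩⟩))
    · exact absurd h3 h2.1
    · exact Or.inl h3
    · exact Or.inr (Or.inl h3)
  · intro x hx
    simp only [mem_insert, not_or] at hx ⊢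
    rcases hx with rfl | rfl | hx
    · exact ⟨by simp, ht.no_ext' hvI _⟩
    · exact ⟨by simp, ht.no_ext' hvI _⟩
    · exact ⟨(mem_erase.1 hx).1, (mem_sdiff.1 (mem_of_mem_erase hx)).2⟩

lemma Phi_split {θ : ℝ} (hθ : θ ≠ 0) (b : ℝ) (ht : Tmp f I t) (hv : v ∈ img t \ I)
    (h2 : 2 ≤ (own t v).card) :
    ∑ x ∈ ((own t v).powerset.erase ∅).sigma (fun O => (own t v \ O).powerset),
      Phi θ b f (insert v I) (rf t v x.1 x.2) = Phi θ b f I t := by
  rw [sum_sigma, sum_congr rfl fun O hO => sum_congr rfl fun L hL =>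
    Phi_rf θ b ht hv (mem_powerset.1 (mem_of_mem_erase hO)) (mem_powerset.1 hL)]
  simp only [← mul_sum]
  have := ww_split hθ b (own t v) h2
  simp only [← mul_sum] at this
  rw [this, Phi, ← mul_prod_erase _ _ hv]; ring

lemma Ref.of_rf {h : Q → Option Nm} (hv : v ∉ I) (hr : Ref (insert v I) (rf t v O L) h) :
    Ref I t h := by
  intro a
  refine ⟨fun h1 => (hr a).1 (by simp [rf, h1]), fun x hx => ?_⟩
  by_cases e : x = v
  · subst e
    have : ∃ y, rf t x O L a = some (x ++ y) := by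
      unfold rf
      rw [if_pos hx]
      split_ifs
      · exact ⟨[], by simp⟩
      · exact ⟨_, rfl⟩
      · exact ⟨_, rfl⟩
    obtain ⟨y, hy⟩ := this
    obtain ⟨z, hz, -⟩ := (hr a).2 _ hy
    exact ⟨y ++ z, by rw [hz, List.append_assoc], fun h => absurd h hv⟩
  · obtain ⟨y, h1, h2⟩ := (hr a).2 x (by
      rw [rf, if_neg, hx]
      rw [hx]; exact fun h => e (Option.some.inj h))
    exact ⟨y, h1, fun h => h2 (mem_insert_of_mem h)⟩

lemma Ref.cls {h : Q → Option Nm} (hr : Ref (insert v I) (rf t v O L) h) {a : Q}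
    (ha : t a = some v) : (a ∈ O ↔ h a = some v) ∧
      (a ∉ O ∧ a ∉ L ↔ ∃ y, h a = some (v ++ true :: y)) := by
  by_cases h1 : a ∈ O
  · obtain ⟨y, h2, h3⟩ := (hr a).2 v (by simp [rf, ha, h1])
    simp [h1, h2, h3 (mem_insert_self _ _)]
  · by_cases h2 : a ∈ L
    · obtain ⟨y, h3, -⟩ := (hr a).2 (v ++ [false]) (by simp [rf, ha, h1, h2])
      simp [h1, h2, h3]
    · obtain ⟨y, h3, -⟩ := (hr a).2 (v ++ [true]) (by simp [rf, ha, h1, h2])
      simp [h1, h2, h3]

variable {r : Q} {P : Type} [Finite P] {δ : P → (Q → Option Q) → P} {p0 : P}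
  {Acc : Set P → Prop}

lemma probe (ht : Tmp f I t) (hv : v ∉ I) {Z X Y : Set (P × CT Q)} (hF : Face r f δ p0 I v Z X Y)
    (p : P) {a : Q} (ha : t a = some v) : ∃ q : P × CT Q, ∀ h : CT Q, (p, h) ∈ Y → Ref I t h.1 →
      (q ∈ Y ↔ h.1 a = some v) ∧ (q ∉ X ↔ ∃ y, h.1 a = some (v ++ true :: y)) := by
  classical
  let c : Q → Option Q := fun b => if (∃ x ∈ I, t b = some x) ∨ b = a then some b else none
  have haf := ht.val.ne a v ha
  have hP := ht.pp a v ha
  have key : ∀ h : CT Q, Ref I t h.1 → ∃ y, h.1 a = some (v ++ y) ∧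
      nx (G r f (p, h) c) = (fun b => if b = a then some v else res I t b) ∧
      phi r f I (p, h) c ∧ (HS (G r f (p, h) c) v ↔ y = []) ∧
      (GD (G r f (p, h) c) v ↔ [false] <+: y) := by
    intro h hr
    obtain ⟨y, hy, -⟩ := (hr a).2 v ha
    have g1 : ∀ b, b ≠ a → G r f (p, h) c b = res I t b := by
      intro b hb
      by_cases e : b = f
      · subst e
        rw [G, gof_f]; simp [c, ht.val.dead, res, hb]
      · rw [G, gof_ne _ _ e]
        refine opt_ext fun x => ?_
        rw [res_eq]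
        simp only [c, hb, or_false]
        split_ifs with h1
        · obtain ⟨u, h2, h3⟩ := h1
          obtain ⟨z, h4, h5⟩ := (hr b).2 u h3
          simp only [Option.bind_some, h4, h5 h2, List.append_nil, h3, Option.some.injEq]
          exact ⟨fun e => ⟨e, e ▸ h2⟩, fun e => e.1⟩
        · simp only [Option.bind_none, reduceCtorEq, false_iff]
          exact fun e => h1 ⟨x, e.2, e.1⟩
    have g2 : G r f (p, h) c a = some (v ++ y) := by
      rw [G, gof_ne _ _ haf]; simp [c, hy]
    have g3 : phi r f I (p, h) c := fun μ hμ => by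
      obtain ⟨b, hb⟩ := ht.hst μ hμ
      refine ⟨b, ?_⟩
      rw [g1 b (by rintro rfl; rw [ha] at hb; exact hv (Option.some.inj hb ▸ hμ))]
      exact res_eq.2 ⟨hb, hμ⟩
    have g4 : HS (G r f (p, h) c) v ↔ y = [] := by
      refine ⟨?_, fun e => ⟨a, by rw [g2, e, List.append_nil]⟩⟩
      rintro ⟨b, hb⟩
      by_cases e : b = a
      · rw [e, g2] at hb; simpa using hb
      · rw [g1 b e] at hb; exact absurd (res_eq.1 hb).2 hv
    have g5 : GD (G r f (p, h) c) v ↔ [false] <+: y := by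
      refine ⟨?_, fun e => ⟨a, _, g2, by simpa using e⟩⟩
      rintro ⟨b, x, hb, hx⟩
      by_cases e : b = a
      · rw [e, g2] at hb
        rw [← Option.some.inj hb] at hx; simpa using hx
      · rw [g1 b e] at hb
        exact absurd (ht.pc x (res_eq.1 hb).2 v ((List.prefix_append _ _).trans hx)) hv
    refine ⟨y, hy, funext fun b => ?_, g3, g4, g5⟩
    have hP' : PP (HS (G r f (p, h) c)) v := hP.mono g3
    split_ifs with e
    · rw [e, nx, g2, Option.map_some]
      congr 1
      rcases y with _ | ⟨d, y⟩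
      · rw [List.append_nil]; exact nrm_self hP'
      · cases d
        · exact nm_F ⟨hP', by simp [g4], by simp [g5]⟩ ⟨y, by simp⟩
        · exact nm_E hP' (by simp [g4]) (by simp [g5]) ⟨y, by simp⟩
    · rcases hb : res I t b with _ | x
      · rw [nx, g1 b e, hb]; rfl
      · exact nx_self ((g1 b e).trans hb) fun q hq _ => g3 q (ht.pc x (res_eq.1 hb).2 q hq)
  by_cases hex : ∃ h : CT Q, Ref I t h.1
  swap
  · exact ⟨(p, ⟨t, ht.val.cl⟩), fun h _ hr => absurd ⟨h, hr⟩ hex⟩
  obtain ⟨h', hr'⟩ := hex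
  refine ⟨DD r f δ (p, h') c, fun h hY hr => ?_⟩
  obtain ⟨y', -, e', -⟩ := key h' hr'
  obtain ⟨y, hy, e, k1, k2, k3⟩ := key h hr
  have e2 : DD r f δ (p, h') c = DD r f δ (p, h) c := Prod.ext rfl (Subtype.ext (e'.trans e.symm))
  rw [e2, hy]
  rcases y with _ | ⟨d, y⟩
  · have := hF.good.sca.cl _ hY c (phi_ins.2 ⟨k1, k2.2 rfl⟩)
    simp [this, hF.yx this]
  · cases d
    · have h1 := hF.k1 _ hY c k1 (by simp [k2]) (by simp [k3])
      have h2 := hF.inx _ (hF.yx hY) c k1 (by simp [k3])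
      simp [h1, h2]
    · have h2 := hF.k2 _ (hF.yx hY) c k1 (by simp [k2]) (by simp [k3])
      have h1 : DD r f δ (p, h) c ∉ Y := fun h => h2 (hF.yx h)
      simp [h1, h2]

lemma count_single (ht : Tmp f I t) (h1 : ∀ v ∈ img t \ I, (own t v).card = 1) :
    (out f I t).card + (img t \ I).card + 1 = Fintype.card Q := by
  have e1 : (out f I t)ᶜ = insert f ((img t \ I).biUnion (own t)) := by
    ext a
    simp only [mem_compl, mem_out, mem_insert, mem_biUnion, mem_sdiff, mem_img, mem_own]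
    constructor
    · intro h
      by_contra hc
      push Not at hc
      exact h ⟨hc.1, fun x hx => by_contra fun h3 => hc.2 x ⟨⟨a, hx⟩, h3⟩ hx⟩
    · rintro (h | ⟨x, ⟨-, h2⟩, h3⟩) h4
      · exact h4.1 h
      · exact h2 (h4.2 x h3)
  have e2 := card_add_card_compl (out f I t)
  rw [e1, card_insert_of_notMem, card_biUnion, sum_congr rfl h1] at e2
  · simpa [add_assoc] using e2
  · intro x _ y _ hxy
    rw [Function.onFun, disjoint_left]
    intro a ha hb
    exact hxy (Option.some.inj ((mem_own.1 ha).symm.trans (mem_own.1 hb)))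
  · simp [mem_own, ht.val.dead]

theorem caseA (hA : ∀ w, Acc (InfS (run δ p0 w)) ↔ (BP r f).Accepts w) (k : ℕ) :
    ∀ (I : Finset Nm) (t : Q → Option Nm) (Z : Set (P × CT Q)), Tmp f I t →
      (out f I t)ᶜ.card ≤ k → Good r f δ p0 I Z →
      ((16 / 9 : ℝ) ^ 800)⁻¹ * (Phi 1 (16 / 9) f I t - Phi (5 / 6) (18692 / 10000) f I t) ≤
        ({p | ∃ h : CT Q, (p, h) ∈ Z ∧ Ref I t h.1}.ncard : ℕ) := by
  classical
  induction k with
  | zero =>
    intro I t Z _ hk _
    have : f ∈ (out f I t)ᶜ := by simp [mem_out]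
    have := card_pos.2 ⟨f, this⟩
    omega
  | succ k ih =>
    intro I t Z ht hk hZ
    by_cases hbig : ∃ v ∈ img t \ I, 2 ≤ (own t v).card
    · obtain ⟨v, hv, h2⟩ := hbig
      have hvI := (mem_sdiff.1 hv).2
      obtain ⟨X, Y, hF⟩ := ht.face hA hZ hv
      rw [← Phi_split one_ne_zero _ ht hv h2, ← Phi_split (θ := 5 / 6) (by norm_num) _ ht hv h2,
        ← sum_sub_distrib, mul_sum]
      set T := ((own t v).powerset.erase ∅).sigma (fun O => (own t v \ O).powerset) with hT
      have hT' : ∀ x ∈ T, x.1 ≠ ∅ ∧ x.1 ⊆ own t v ∧ x.2 ⊆ own t v \ x.1 := fun x hx => by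
        simpa [hT, and_assoc] using hx
      refine (sum_le_sum fun x hx => ih (insert v I) (rf t v x.1 x.2) Y
        (ht.rf hvI (hT' x hx).2.1 (hT' x hx).1) ?_ hF.good).trans ?_
      · have h3 := out_rf (L := x.2) ht hvI (hT' x hx).2.1
        have h4 := card_pos.2 (nonempty_iff_ne_empty.2 (hT' x hx).1)
        rw [card_compl] at hk ⊢
        omega
      · rw [← Nat.cast_sum, Nat.cast_le]
        refine sum_ncard_le _ T _ ?_ ?_
        · rintro x - p ⟨h, h1, h3⟩
          exact ⟨h, hF.xz (hF.yx h1), h3.of_rf hvI⟩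
        · rintro ⟨O, L⟩ hx ⟨O', L'⟩ hy p ⟨h, h1, h3⟩ ⟨h', h1', h3'⟩
          have key : ∀ a ∈ own t v, (a ∈ O ↔ a ∈ O') ∧ (a ∉ O ∧ a ∉ L ↔ a ∉ O' ∧ a ∉ L') := by
            intro a ha
            obtain ⟨q, hq⟩ := probe ht hvI hF p (mem_own.1 ha)
            have b1 := hq h h1 (h3.of_rf hvI)
            have b2 := hq h' h1' (h3'.of_rf hvI)
            have b3 := h3.cls (mem_own.1 ha)
            have b4 := h3'.cls (mem_own.1 ha)
            exact ⟨b3.1.trans (b1.1.symm.trans (b2.1.trans b4.1.symm)),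
              b3.2.trans (b1.2.symm.trans (b2.2.trans b4.2.symm))⟩
          obtain ⟨-, c1, c2⟩ := hT' _ hx
          obtain ⟨-, c3, c4⟩ := hT' _ hy
          obtain rfl : O = O' := by
            ext a
            exact ⟨fun h => (key a (c1 h)).1.1 h, fun h => (key a (c3 h)).1.2 h⟩
          obtain rfl : L = L' := by
            ext a
            constructor
            · intro h
              obtain ⟨d1, d2⟩ := mem_sdiff.1 (c2 h)
              by_contra d3
              exact ((key a d1).2.2 ⟨d2, d3⟩).2 h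
            · intro h
              obtain ⟨d1, d2⟩ := mem_sdiff.1 (c4 h)
              by_contra d3
              exact ((key a d1).2.1 ⟨d2, d3⟩).2 h
          rfl
    · push Not at hbig
      have h1 : ∀ v ∈ img t \ I, (own t v).card = 1 := fun v hv => by
        obtain ⟨a, ha⟩ := mem_img.1 (mem_sdiff.1 hv).1
        have := card_pos.2 ⟨a, mem_own.2 ha⟩
        have := hbig v hv
        omega
      have h2 := count_single ht h1
      have h3 : (img t \ I).card + I.card = (img t).card :=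
        card_sdiff_add_card_eq_card fun μ hμ => mem_img.2 (ht.hst μ hμ)
      have h4 : ∀ θ b, Phi θ b f I t =
          θ ^ (out f I t).card * θ⁻¹ ^ I.card * b ^ (img t \ I).card := fun θ b => by
        rw [Phi, prod_congr rfl fun v hv => by rw [h1 v hv, ww_one], prod_const]
      rw [h4, h4]
      set m := (img t \ I).card with hm
      by_cases hs : 11 * m + 40 * ((img t).card + 1) ≤ 40 * Fintype.card Q
      · refine le_trans ?_ ((caseB hA ht.val.cl m I Z ht rfl hs hZ).trans (Nat.cast_le.2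
          (Set.ncard_le_ncard fun p hp => ⟨_, hp, fun a => ⟨id, fun x hx => ⟨[], by simpa using hx,
            fun _ => rfl⟩⟩⟩)))
        refine mul_le_mul_of_nonneg_left ?_ (by positivity)
        simp only [one_pow, inv_one, one_mul]
        exact sub_le_self _ (by positivity)
      · refine le_trans (mul_nonpos_of_nonneg_of_nonpos (by positivity) (sub_nonpos.2 ?_))
          (Nat.cast_nonneg _)
        simp only [one_pow, inv_one, one_mul]
        refine (pow_le_pow_iff_left₀ (by positivity) (by positivity) (by norm_num : 40 ≠ 0)).1 ?_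
        have h5 : (16 / 9 : ℝ) ^ 40 ≤ (5 / 6) ^ 11 * (18692 / 10000) ^ 40 := by norm_num
        have h6 : (5 / 6 : ℝ) ^ (11 * m + 40 * I.card) ≤ (5 / 6) ^ (40 * (out f I t).card) :=
          pow_le_pow_of_le_one (by norm_num) (by norm_num) (by omega)
        calc ((16 / 9 : ℝ) ^ m) ^ 40 = ((16 / 9) ^ 40) ^ m := by rw [← pow_mul, ← pow_mul, mul_comm]
          _ ≤ ((5 / 6) ^ 11 * (18692 / 10000) ^ 40) ^ m := by gcongr
          _ = (5 / 6) ^ (11 * m + 40 * I.card) * ((5 / 6)⁻¹ ^ I.card * (18692 / 10000) ^ m) ^ 40 := by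
              rw [pow_add, mul_pow, mul_pow, ← pow_mul, ← pow_mul, ← pow_mul, ← pow_mul,
                mul_comm I.card 40, mul_comm m 40, inv_pow]
              field_simp
          _ ≤ (5 / 6) ^ (40 * (out f I t).card) *
              ((5 / 6)⁻¹ ^ I.card * (18692 / 10000) ^ m) ^ 40 := by gcongr
          _ = _ := by rw [mul_assoc, mul_pow _ (_ * _), ← pow_mul _ _ 40, mul_comm 40]

end

end Pool.Agent.MP_0f075e_lc.H37

end MrgPart0

-- ======== part 1: formerly Pool.Agent.MP_0f075e_lc.Count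
section MrgPart1

/-! Counting history trees. -/

namespace Pool.Agent.MP_0f075e_lc

open Finset

def names : BinaryTree Unit → Finset Nm
  | .nil => ∅
  | .node _ l r => insert [] ((names l).image (false :: ·) ∪ (names r).image (true :: ·))

lemma mem_names_node (l r : BinaryTree Unit) (v : Nm) :
    v ∈ names (.node () l r) ↔ v = [] ∨ (∃ x ∈ names l, v = false :: x) ∨
      ∃ x ∈ names r, v = true :: x := by
  simp [names, eq_comm]

lemma names_closed (t : BinaryTree Unit) : ∀ v ∈ names t, ∀ p, p <+: v → p ∈ names t := by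
  induction t with
  | nil => simp [names]
  | node _ l r ihl ihr =>
    intro v hv p hp
    rw [mem_names_node] at hv ⊢
    rcases p with _ | ⟨c, p⟩
    · left; rfl
    · rcases hv with rfl | ⟨x, hx, rfl⟩ | ⟨x, hx, rfl⟩
      · simp at hp
      · rw [List.cons_prefix_cons] at hp
        right; left; exact ⟨p, ihl x hx p hp.2, by rw [hp.1]⟩
      · rw [List.cons_prefix_cons] at hp
        right; right; exact ⟨p, ihr x hx p hp.2, by rw [hp.1]⟩

lemma card_names (t : BinaryTree Unit) : (names t).card = t.numNodes := by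
  induction t with
  | nil => simp [names]
  | node _ l r ihl ihr =>
    rw [names, card_insert_of_notMem (by simp), card_union_of_disjoint, card_image_of_injective,
      card_image_of_injective, ihl, ihr]
    · rfl
    · exact List.cons_injective
    · exact List.cons_injective
    · rw [disjoint_left]; simp

lemma names_inj : Function.Injective names := by
  intro t
  induction t with
  | nil =>
    intro t' h
    rcases t' with _ | ⟨_, l, r⟩
    · rfl
    · have : ([] : Nm) ∈ names (.node () l r) := by simp [names]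
      rw [← h] at this; simp [names] at this
  | node _ l r ihl ihr =>
    intro t' h
    rcases t' with _ | ⟨_, l', r'⟩
    · have : ([] : Nm) ∈ names (.node () l r) := by simp [names]
      rw [h] at this; simp [names] at this
    · have h1 : names l = names l' := by
        ext x
        have : false :: x ∈ names (.node () l r) ↔ false :: x ∈ names (.node () l' r') := by rw [h]
        simpa [mem_names_node] using this
      have h2 : names r = names r' := by
        ext x
        have : true :: x ∈ names (.node () l r) ↔ true :: x ∈ names (.node () l' r') := by rw [h]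
        simpa [mem_names_node] using this
      rw [ihl h1, ihr h2]

lemma exists_tree (k : ℕ) : ∀ N : Set Nm, (∀ v ∈ N, v.length < k) →
    (∀ v ∈ N, ∀ p, p <+: v → p ∈ N) → ∃ t, ∀ v, v ∈ names t ↔ v ∈ N := by
  induction k with
  | zero => intro N h _; exact ⟨.nil, fun v => ⟨by simp [names], fun hv => absurd (h v hv) (by simp)⟩⟩
  | succ k ih =>
    intro N h hc
    rcases N.eq_empty_or_nonempty with rfl | ⟨v0, hv0⟩
    · exact ⟨.nil, by simp [names]⟩
    have hb : ∀ b : Bool, ∃ t, ∀ v, v ∈ names t ↔ v ∈ {x | b :: x ∈ N} := fun b =>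
      ih _ (fun v hv => by have := h _ hv; simp at this; omega)
        (fun v hv p hp => hc _ hv _ (by simpa using hp))
    obtain ⟨l, hl⟩ := hb false
    obtain ⟨r, hr⟩ := hb true
    refine ⟨.node () l r, fun v => ?_⟩
    rw [mem_names_node]
    rcases v with _ | ⟨c, v⟩
    · simpa using hc v0 hv0 [] List.nil_prefix
    · cases c <;> simp [hl, hr]

lemma card_le_sum {α ι : Type*} [Finite α] (I : Finset ι) (g : α → ι) (hg : ∀ a, g a ∈ I)
    (c : ι → ℕ) (hc : ∀ i ∈ I, Nat.card {a // g a = i} ≤ c i) : Nat.card α ≤ ∑ i ∈ I, c i := by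
  classical
  have := Fintype.ofFinite α
  rw [Nat.card_eq_fintype_card, ← card_univ,
    card_eq_sum_card_fiberwise (f := g) (t := I) (fun a _ => hg a)]
  refine sum_le_sum fun i hi => le_trans ?_ (hc i hi)
  rw [Nat.card_eq_fintype_card, Fintype.card_subtype]

/-- Number of surjections. -/
noncomputable def Sj (α β : Type) : ℕ := Nat.card {f : α → β // Function.Surjective f}

lemma Sj_congr {α β α' β' : Type} (e : α ≃ α') (e' : β ≃ β') : Sj α β = Sj α' β' := by
  refine Nat.card_congr ((e.arrowCongr e').subtypeEquiv fun f => ?_)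
  have : (e.arrowCongr e') f = e' ∘ f ∘ e.symm := rfl
  rw [this, e'.comp_surjective, e.symm.surjective_comp]

noncomputable def SS (n m : ℕ) : ℕ := Sj (Fin n) (Fin m)

lemma Sj_eq (α β : Type) [Finite α] [Finite β] : Sj α β = SS (Nat.card α) (Nat.card β) :=
  Sj_congr (Finite.equivFin α) (Finite.equivFin β)

lemma SS_succ (n m : ℕ) : SS (n + 1) (m + 1) ≤ (m + 1) * (SS n (m + 1) + SS n m) := by
  classical
  have h1 : SS (n + 1) (m + 1) = Sj (Option (Fin n)) (Fin (m + 1)) := by
    rw [Sj_eq]; simp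
  rw [h1]
  refine (card_le_sum (univ : Finset (Fin (m + 1))) (fun f => f.1 none) (fun _ => mem_univ _)
    (fun _ => SS n (m + 1) + SS n m) fun c _ => ?_).trans (by simp)
  have h2 : SS n m = Sj (Fin n) {x : Fin (m + 1) // x ≠ c} := by
    rw [Sj_eq]; simp
  have h3 : SS n (m + 1) + SS n m = Nat.card ({f : Fin n → Fin (m + 1) // Function.Surjective f} ⊕
      {f : Fin n → {x : Fin (m + 1) // x ≠ c} // Function.Surjective f}) := by
    rw [Nat.card_sum, h2]; rfl
  rw [h3]
  have key : ∀ F : {a : {f : Option (Fin n) → Fin (m + 1) // Function.Surjective f} //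
      a.1 none = c}, ∃ G : ({f : Fin n → Fin (m + 1) // Function.Surjective f} ⊕
      {f : Fin n → {x : Fin (m + 1) // x ≠ c} // Function.Surjective f}),
      ∀ i, F.1.1 (some i) = G.elim (fun g => g.1 i) (fun g => (g.1 i).1) := by
    rintro ⟨⟨f, hf⟩, hc⟩
    by_cases h : ∃ i, f (some i) = c
    · refine ⟨.inl ⟨fun i => f (some i), fun y => ?_⟩, fun i => rfl⟩
      obtain ⟨x, rfl⟩ := hf y
      rcases x with _ | x
      · obtain ⟨i, hi⟩ := h; exact ⟨i, hi.trans hc.symm⟩
      · exact ⟨x, rfl⟩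
    · refine ⟨.inr ⟨fun i => ⟨f (some i), fun hi => h ⟨i, hi⟩⟩, fun y => ?_⟩, fun i => rfl⟩
      obtain ⟨x, hx⟩ := hf y.1
      rcases x with _ | x
      · exact absurd (hx.symm.trans hc) y.2
      · exact ⟨x, Subtype.ext hx⟩
  choose G hG using key
  refine Nat.card_le_card_of_injective G fun F F' h => ?_
  ext x
  rcases x with _ | x
  · rw [F.2, F'.2]
  · rw [hG, hG, h]

lemma SS_zero (n : ℕ) : SS (n + 1) 0 = 0 := by
  have : IsEmpty {f : Fin (n + 1) → Fin 0 // Function.Surjective f} := ⟨fun f => (f.1 0).elim0⟩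
  exact Nat.card_of_isEmpty

lemma SS_big (n : ℕ) : SS n (n + 1) = 0 := by
  have : IsEmpty {f : Fin n → Fin (n + 1) // Function.Surjective f} := ⟨fun f => by
    have := Fintype.card_le_of_surjective _ f.2
    simp at this⟩
  exact Nat.card_of_isEmpty

lemma SS_le (n m : ℕ) : SS n m ≤ m ^ n := by
  have := Nat.card_le_card_of_injective
    (Subtype.val : {f : Fin n → Fin m // Function.Surjective f} → _) Subtype.val_injective
  simpa [SS, Sj] using this

lemma SS_self (n : ℕ) : n.factorial ≤ SS n n := by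
  have := Nat.card_le_card_of_injective
    (fun e : Equiv.Perm (Fin n) =>
      (⟨e, e.surjective⟩ : {f : Fin n → Fin n // Function.Surjective f}))
    (fun e e' h => by ext x; have := congrFun (congrArg Subtype.val h) x; simp at this; rw [this])
  simpa [SS, Sj, Fintype.card_perm] using this

noncomputable def WW (n : ℕ) : ℕ := ∑ m ∈ range (n + 1), 4 ^ m * SS n m

lemma WW_succ (n : ℕ) : WW (n + 1) ≤ 5 * (n + 1) * WW n := by
  have h1 : WW (n + 1) = ∑ m ∈ range (n + 1), 4 ^ (m + 1) * SS (n + 1) (m + 1) := by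
    rw [WW, sum_range_succ', SS_zero]; simp
  have h2 : ∑ m ∈ range (n + 1), 4 ^ (m + 1) * SS n (m + 1) ≤ WW n := by
    rw [sum_range_succ, SS_big, WW, sum_range_succ']; simp
  calc WW (n + 1) ≤ ∑ m ∈ range (n + 1),
        (n + 1) * (4 ^ (m + 1) * SS n (m + 1) + 4 * (4 ^ m * SS n m)) := by
        rw [h1]
        refine sum_le_sum fun m hm => ?_
        have := SS_succ n m
        have hm' : m + 1 ≤ n + 1 := mem_range.1 hm
        calc 4 ^ (m + 1) * SS (n + 1) (m + 1)
            ≤ 4 ^ (m + 1) * ((n + 1) * (SS n (m + 1) + SS n m)) :=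
              Nat.mul_le_mul_left _ (this.trans (Nat.mul_le_mul_right _ hm'))
          _ = _ := by ring
    _ = (n + 1) * (∑ m ∈ range (n + 1), 4 ^ (m + 1) * SS n (m + 1) + 4 * WW n) := by
        rw [← mul_sum, sum_add_distrib, ← mul_sum, WW]
    _ ≤ (n + 1) * (WW n + 4 * WW n) := by gcongr
    _ = _ := by ring

lemma WW_add (n k : ℕ) : WW (n + k) ≤ (5 * (n + k)) ^ k * WW n := by
  induction k with
  | zero => simp
  | succ k ih =>
    calc WW (n + (k + 1)) ≤ 5 * (n + k + 1) * WW (n + k) := WW_succ _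
      _ ≤ 5 * (n + k + 1) * ((5 * (n + (k + 1))) ^ k * WW n) := by
          refine Nat.mul_le_mul_left _ (ih.trans ?_); gcongr; omega
      _ = _ := by rw [pow_succ]; ring

lemma pow_self_le (n : ℕ) : n ^ n ≤ 4 ^ n * n.factorial := by
  have h1 := Real.pow_div_factorial_le_exp (n : ℝ) (Nat.cast_nonneg n) n
  have h2 : Real.exp n ≤ 4 ^ n := by
    rw [← Real.exp_one_pow]
    exact pow_le_pow_left₀ (Real.exp_pos 1).le (Real.exp_one_lt_d9.le.trans (by norm_num)) n
  have h3 : (0 : ℝ) < n.factorial := by exact_mod_cast n.factorial_pos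
  rw [div_le_iff₀ h3] at h1
  have : (n : ℝ) ^ n ≤ 4 ^ n * n.factorial := h1.trans (by gcongr)
  exact_mod_cast this

lemma WW_max (n : ℕ) : ∃ m, n ≤ 4 * m ∧ m ≤ n ∧ WW n ≤ (n + 1) * (4 ^ m * SS n m) := by
  obtain ⟨m, hm, hmax⟩ := exists_max_image (range (n + 1)) (fun m => 4 ^ m * SS n m) ⟨0, by simp⟩
  have h1 : WW n ≤ (n + 1) * (4 ^ m * SS n m) := by
    have := sum_le_card_nsmul _ _ _ hmax
    simpa [WW] using this
  have hm' : m ≤ n := by simpa [Nat.lt_succ_iff] using hm
  by_cases h : n ≤ 4 * m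
  · exact ⟨m, h, hm', h1⟩
  · refine ⟨n, by omega, le_rfl, h1.trans (Nat.mul_le_mul_left _ ?_)⟩
    have h2 : m ^ n ≤ n.factorial := by
      have h3 : 4 ^ n * m ^ n ≤ 4 ^ n * n.factorial := by
        rw [← mul_pow]; exact (Nat.pow_le_pow_left (by omega) n).trans (pow_self_le n)
      exact Nat.le_of_mul_le_mul_left h3 (by positivity)
    exact Nat.mul_le_mul (Nat.pow_le_pow_right (by norm_num) hm')
      ((SS_le n m).trans (h2.trans (SS_self n)))

instance {Q : Type} [Finite Q] : Finite (HT Q) := by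
  have : Finite {v : Nm // v.length < Nat.card Q} := List.finite_length_lt Bool _
  have key : ∀ (T : HT Q) (a : Q), ∃ o : Option {v : Nm // v.length < Nat.card Q},
      o.map Subtype.val = T.h a := by
    intro T a
    rcases h : T.h a with _ | v
    · exact ⟨none, rfl⟩
    · exact ⟨some ⟨v, length_lt_card _ T.closed h⟩, rfl⟩
  choose f hf using key
  refine Finite.of_injective f fun T T' h => ?_
  ext1; funext a; rw [← hf, ← hf, h]

lemma catalan_le (m : ℕ) : catalan m ≤ 4 ^ m := by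
  have := succ_mul_catalan_eq_centralBinom m
  have h2 := Nat.centralBinom_le_four_pow m
  nlinarith

lemma card_HT {Q : Type} [Finite Q] : Nat.card (HT Q) ≤ WW (Nat.card Q + 1) := by
  classical
  have h1 : ∀ T : HT Q, ∃ t, ∀ v, v ∈ names t ↔ ∃ a, T.h a = some v := fun T =>
    exists_tree (Nat.card Q) {v | ∃ a, T.h a = some v}
      (fun v ⟨a, ha⟩ => length_lt_card _ T.closed ha) (fun v ⟨a, ha⟩ p hp => T.closed a v p ha hp)
  choose g hg using h1
  have hnum : ∀ T, (g T).numNodes ≤ Nat.card Q := by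
    intro T
    rw [← card_names, ← Nat.card_eq_finsetCard]
    choose f hf using fun v : names (g T) => (hg T v).1 v.2
    refine Nat.card_le_card_of_injective f fun v v' h => ?_
    have := hf v
    rw [h, hf v'] at this
    exact Subtype.ext (Option.some.inj this).symm
  refine (card_le_sum ((range (Nat.card Q + 1)).sigma BinaryTree.treesOfNumNodesEq)
    (fun T => ⟨(g T).numNodes, g T⟩) (fun T => by simpa [Nat.lt_succ_iff] using hnum T)
    (fun i => SS (Nat.card Q + 1) (i.1 + 1)) ?_).trans ?_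
  · rintro ⟨m, t⟩ hi
    have hm : t.numNodes = m := by simpa using (mem_sigma.1 hi).2
    have h2 : SS (Nat.card Q + 1) (m + 1) = Sj (Option Q) (Option (names t)) := by
      rw [Sj_eq]; simp [card_names, hm]
    simp only [h2]
    have key : ∀ T : {T : HT Q // (⟨(g T).numNodes, g T⟩ : Σ _ : ℕ, BinaryTree Unit) = ⟨m, t⟩},
        ∃ f : {f : Option Q → Option (names t) // Function.Surjective f},
          ∀ a, (f.1 (some a)).map Subtype.val = T.1.h a := by
      rintro ⟨T, hT⟩
      have ht : g T = t := by simpa using (Sigma.mk.inj hT).2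
      have h3 : ∀ a, ∃ o : Option (names t), o.map Subtype.val = T.h a := by
        intro a
        rcases h : T.h a with _ | v
        · exact ⟨none, rfl⟩
        · exact ⟨some ⟨v, by rw [← ht, hg]; exact ⟨a, h⟩⟩, rfl⟩
      choose f hf using h3
      refine ⟨⟨fun o => o.bind f, fun y => ?_⟩, hf⟩
      rcases y with _ | ⟨v, hv⟩
      · exact ⟨none, rfl⟩
      · have hv' := hv
        rw [← ht, hg] at hv'
        obtain ⟨a, ha⟩ := hv'
        refine ⟨some a, ?_⟩
        have := hf a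
        rw [ha] at this
        obtain ⟨y, hy, rfl⟩ := Option.map_eq_some_iff.1 this
        exact hy
    choose f hf using key
    refine Nat.card_le_card_of_injective f fun T T' h => ?_
    ext1; ext1; funext a; rw [← hf, ← hf, h]
  · rw [sum_sigma, WW, sum_range_succ' _ (Nat.card Q + 1)]
    refine le_add_right (sum_le_sum fun m _ => ?_)
    simp only [sum_const, BinaryTree.treesOfNumNodesEq_card_eq_catalan, smul_eq_mul]
    exact Nat.mul_le_mul_right _ ((catalan_le m).trans (Nat.pow_le_pow_right (by norm_num) (by omega)))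

lemma t_le (n : ℕ) : t n ≤ WW (n + 1) := by
  apply Nat.sInf_le
  intro A _ B
  let e := Finite.equivFin (HT (Fin n))
  refine ⟨Nat.card (HT (Fin n)), by simpa using card_HT (Q := Fin n),
    ⟨e (HT0 B), fun q c => some (e (upd B.acc (e.symm q) (rel B c))),
      Set.range fun v : Nm => ({x | ¬ Stab B.acc (e.symm x.1) (rel B x.2.1) v},
        {x | Brk B.acc (e.symm x.1) (rel B x.2.1) v})⟩, fun w => ?_⟩
  have hc : B.Accepts w ↔ Cond B w := ⟨complete B w, sound B w⟩
  rw [hc]
  constructor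
  · rintro ⟨r, h0, h1, _, ⟨v, rfl⟩, h2, h3⟩
    have hr : ∀ i, e.symm (r i) = trk B w i := by
      intro i
      induction i with
      | zero => rw [h0]; simp [trk]
      | succ i ih => rw [← Option.some.inj (h1 i), ih]; simp [trk]
    exact ⟨v, by simpa [hr] using h2, by simpa [hr] using h3⟩
  · rintro ⟨v, h2, h3⟩
    exact ⟨fun i => e (trk B w i), rfl, fun i => by simp [trk], _, ⟨v, rfl⟩, by simpa using h2,
      by simpa using h3⟩

lemma s_nonempty (n : ℕ) : {m | ∀ (A : Type) [Finite A] (B : NBA A (Fin n)),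
    ∃ k ≤ m, ∃ D : SDRA A (Fin k), ∀ w, D.Accepts w ↔ B.Accepts w}.Nonempty := by
  let X := Option (HT (Fin n) × (Fin n → Fin n → Prop))
  refine ⟨Nat.card X, fun A _ B => ?_⟩
  let e := Finite.equivFin X
  let cur : X → HT (Fin n) := fun x => x.elim (HT0 B) (fun y => upd B.acc y.1 y.2)
  refine ⟨Nat.card X, le_rfl, ⟨e none, fun q c => some (e (some (cur (e.symm q), rel B c))),
      Set.range fun v : Nm => ({x | ∃ y, e.symm x = some y ∧ ¬ Stab B.acc y.1 y.2 v},
        {x | ∃ y, e.symm x = some y ∧ Brk B.acc y.1 y.2 v})⟩, fun w => ?_⟩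
  have hc : B.Accepts w ↔ Cond B w := ⟨complete B w, sound B w⟩
  rw [hc]
  let ρ : ℕ → X := fun i => Nat.casesOn i none (fun j => some (trk B w j, rel B (w j)))
  have hcur : ∀ i, cur (ρ i) = trk B w i := by
    intro i; cases i <;> rfl
  constructor
  · rintro ⟨r, h0, h1, _, ⟨v, rfl⟩, h2, N, h3⟩
    have hr : ∀ i, e.symm (r i) = ρ i := by
      intro i
      induction i with
      | zero => rw [h0]; simp [ρ]
      | succ i ih => rw [← Option.some.inj (h1 i), ih, hcur]; simp [ρ]
    refine ⟨v, fun M => ?_, N, fun i hi => ?_⟩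
    · obtain ⟨i, hi, y, h4, h5⟩ := h2 (M + 1)
      obtain ⟨j, rfl⟩ : ∃ j, i = j + 1 := ⟨i - 1, by omega⟩
      rw [hr] at h4
      obtain rfl := Option.some.inj h4
      exact ⟨j, by omega, h5⟩
    · by_contra hc
      exact h3 (i + 1) (by omega) ⟨_, hr _, hc⟩
  · rintro ⟨v, h2, N, h3⟩
    refine ⟨fun i => e (ρ i), rfl, fun i => ?_, _, ⟨v, rfl⟩, fun M => ?_, N + 1, fun i hi => ?_⟩
    · simp only [Equiv.symm_apply_apply, hcur]; rfl
    · obtain ⟨i, hi, h4⟩ := h2 M
      exact ⟨i + 1, by omega, (trk B w i, rel B (w i)), by simp [ρ], h4⟩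
    · obtain ⟨j, rfl⟩ : ∃ j, i = j + 1 := ⟨i - 1, by omega⟩
      rintro ⟨y, h4, h5⟩
      simp only [Equiv.symm_apply_apply] at h4
      obtain rfl := Option.some.inj h4
      exact h5 (h3 j (by omega))

end Pool.Agent.MP_0f075e_lc

end MrgPart1

-- ======== part 2: formerly Pool.Agent.MP_0f075e_lc.H37.Low
section MrgPart2

/-! The lower bound. -/

namespace Pool.Agent.MP_0f075e_lc.H37

open Finset

lemma lower_fin (m : ℕ) : ((16 / 9 : ℝ) ^ 800)⁻¹ *
    (ww 1 (16 / 9) m - ww (5 / 6) (18692 / 10000) m) ≤ s (m + 2) + 1 := by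
  classical
  obtain ⟨k, hk, D, hD⟩ := Nat.sInf_mem (s_nonempty (m + 2)) (Fin (m + 2) → Option (Fin (m + 2)))
    (BP 0 1)
  obtain ⟨δ, p0, Acc, hA⟩ := muller D
  have hA' : ∀ w, Acc (InfS (run δ p0 w)) ↔ (BP (0 : Fin (m + 2)) 1).Accepts w :=
    fun w => (hA w).trans (hD w)
  obtain ⟨Z, hZ1, hZ⟩ := exists_sca (DD 0 1 δ) (phi 0 1 {[]})
    {z | (∃ u, dst (DD 0 1 δ) (v0 0 1 p0) u = z) ∧ HS z.2.1 []}
    ⟨v0 0 1 p0, ⟨[], rfl⟩, 0, by simp [v0, h0, BP]⟩ (by
      rintro z ⟨⟨u, rfl⟩, -⟩ c hc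
      exact ⟨⟨u ++ [c], by rw [dst_app]; rfl⟩,
        host_nx (Or.inl ⟨PP.nil _, hc [] (mem_singleton_self _)⟩)⟩)
  have hG : Good 0 1 δ p0 {[]} Z := ⟨hZ, fun z hz => (hZ1 hz).1, fun z hz μ hμ => by
    rw [mem_singleton.1 hμ]; exact (hZ1 hz).2⟩
  let t0 : Fin (m + 2) → Option Nm := fun a =>
    if a = 1 then none else if a = 0 then some [] else some [false]
  have c0 : ∀ a x, t0 a = some x → x = [] ∨ x = [false] := by
    intro a x h
    simp only [t0] at h
    split_ifs at h
    · exact Or.inl (Option.some.inj h).symm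
    · exact Or.inr (Option.some.inj h).symm
  have c1 : t0 0 = some [] := by simp [t0]
  have c2 : ∀ a x, t0 a = some x → PP (· ∈ ({[]} : Finset Nm)) x := by
    intro a x h
    rcases c0 a x h with rfl | rfl
    · exact PP.nil _
    · exact pp_cons.2 ⟨mem_singleton_self _, PP.nil _⟩
  have ht : Tmp 1 {[]} t0 := by
    refine ⟨⟨by simp [t0], fun a v p h hp => ?_, fun a x h => ?_⟩, ?_, mem_singleton_self _,
      fun μ hμ => ⟨0, by rw [mem_singleton.1 hμ, c1]⟩, c2⟩
    · by_cases e : p = v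
      · exact ⟨a, by rw [h, e]⟩
      · exact ⟨0, by rw [mem_singleton.1 (c2 a v h p hp e), c1]⟩
    · rcases c0 a x h with rfl | rfl
      · exact Or.inl rfl
      · exact Or.inr (by simp)
    · intro x hx p hp
      rw [mem_singleton.1 hx] at hp
      simpa using hp
  have h1 := caseA hA' _ {[]} t0 Z ht le_rfl hG
  have h2 : ∀ θ b : ℝ, θ ≠ 0 → Phi θ b 1 {[]} t0 = ww θ b m := by
    intro θ b hθ
    have e1 : out 1 {[]} t0 = {0} := by
      ext a
      simp only [mem_out, mem_singleton]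
      by_cases e : a = 1
      · simp [e]
      · by_cases e' : a = 0 <;> simp [t0, e, e']
    have e2 : own t0 [false] = (univ.erase 1).erase 0 := by
      ext a
      simp only [mem_own, mem_erase, mem_univ, and_true]
      by_cases e : a = 1
      · simp [e, t0]
      · by_cases e' : a = 0 <;> simp [t0, e, e']
    rw [Phi, prod_ext θ b _ _ (N := {[false]}) (fun x hx => by
        obtain ⟨h3, h4⟩ := mem_sdiff.1 hx
        obtain ⟨a, ha⟩ := mem_img.1 h3
        exact mem_singleton.2 ((c0 a x ha).resolve_left (by simpa using h4))) (by simp),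
      e1, prod_singleton, e2, card_erase_of_mem (by simp), card_erase_of_mem (by simp)]
    simp [hθ]
  rw [h2 _ _ one_ne_zero, h2 _ _ (by norm_num)] at h1
  refine h1.trans ?_
  have h3 := Set.ncard_le_card {p | ∃ h : CT (Fin (m + 2)), (p, h) ∈ Z ∧ Ref {[]} t0 h.1}
  have h4 : Nat.card (Option (Fin k)) ≤ s (m + 2) + 1 := by simpa [s] using hk
  exact_mod_cast h3.trans h4

theorem s_lower' : ∃ N : ℕ, ∀ n : ℕ, N ≤ n → (187 / 100 * n : ℝ) ^ n ≤ s n := by
  obtain ⟨c, c0, hc⟩ := vv_lower (b := 16 / 9) (x := 19635 / 100000) (y := 1964 / 10000)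
    (by norm_num) (by norm_num) (by norm_num) (by norm_num)
  have hu := vv_upper (θ := 5 / 6) (b := 18692 / 10000) (x := 1965 / 10000)
    (u := 21351 / 100000) (by norm_num) (by norm_num) (by norm_num)
    (by
      have := exp_le_of (x := 5 / 6 * (1965 / 10000)) (c := 1 + 5 / 6 * (21351 / 100000))
        (by norm_num) (by norm_num) (by norm_num)
      linarith) (by norm_num)
  obtain ⟨a, a0, hl⟩ : ∃ a : ℝ, 0 < a ∧ ∀ m : ℕ, a *
      (ww 1 (16 / 9) m - ww (5 / 6) (18692 / 10000) m) ≤ s (m + 2) + 1 :=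
    ⟨_, by positivity, lower_fin⟩
  have he := Real.exp_one_lt_d9
  have he0 := Real.exp_pos 1
  obtain ⟨N1, h1⟩ := eventually_le (r := 187 / 100) (r' := 1 / (Real.exp 1 * (1964 / 10000)))
    (by norm_num) (by rw [lt_div_iff₀ (by positivity)]; linarith) (64 / (a * c))
  have h2 := tendsto_pow_atTop_nhds_zero_of_lt_one (r := (1964 / 10000 : ℝ) / (1965 / 10000))
    (by norm_num) (by norm_num)
  obtain ⟨N2, h3⟩ := Filter.eventually_atTop.1 (h2.eventually (ge_mem_nhds (by positivity :
    (0 : ℝ) < c / 6)))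
  refine ⟨N1 + N2 + 2, fun n hn => ?_⟩
  obtain ⟨m, rfl⟩ : ∃ m, n = m + 2 := ⟨n - 2, by omega⟩
  have b1 := h1 m (by omega)
  have b2 := h3 m (by omega)
  have b3 := hl m
  have b4 := hc m
  have b5 := hu m
  set y : ℝ := 1964 / 10000 with hy
  set x : ℝ := 1965 / 10000 with hx
  have y0 : 0 < y ^ m := by positivity
  have x0 : 0 < x ^ m := by positivity
  have b6 : vv (5 / 6) (18692 / 10000) m * y ^ m ≤ c / 2 := by
    calc _ = vv (5 / 6) (18692 / 10000) m * x ^ m * (y / x) ^ m := by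
          rw [div_pow y x]; field_simp
      _ ≤ 3 * (c / 6) := by
          refine mul_le_mul (b5.trans (by norm_num [hx])) b2 (by positivity) (by norm_num)
      _ = _ := by ring
  have b7 : (m : ℝ) ^ m ≤ Real.exp 1 ^ m * m.factorial := by
    have h1 := Real.pow_div_factorial_le_exp (m : ℝ) (Nat.cast_nonneg m) m
    rwa [div_le_iff₀ (by positivity), ← Real.exp_one_pow] at h1
  have b8 : (1 / (Real.exp 1 * y) * m) ^ m * (a * c / 2) ≤ s (m + 2) + 1 := by
    refine le_trans ?_ b3
    have e1 : (1 / (Real.exp 1 * y) * m) ^ m ≤ m.factorial / y ^ m := by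
      rw [one_div_mul_eq_div, div_pow, mul_pow, div_le_div_iff₀ (by positivity) y0]
      calc _ ≤ Real.exp 1 ^ m * m.factorial * y ^ m := by gcongr
        _ = _ := by ring
    have e2 : c / 2 / y ^ m ≤ vv 1 (16 / 9) m - vv (5 / 6) (18692 / 10000) m := by
      rw [div_le_iff₀ y0, sub_mul]; linarith
    calc _ ≤ m.factorial / y ^ m * (a * c / 2) := by gcongr
      _ = a * (m.factorial * (c / 2 / y ^ m)) := by ring
      _ ≤ a * (m.factorial * (vv 1 (16 / 9) m - vv (5 / 6) (18692 / 10000) m)) := by gcongr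
      _ = _ := by rw [ww, ww]; ring
  have m0 : (0 : ℝ) ≤ m := Nat.cast_nonneg m
  set R : ℝ := (187 / 100 * (m + 2)) ^ m with hR
  have R1 : 1 ≤ R := one_le_pow₀ (by linarith)
  have b9 : 32 * (m + 1) ^ 2 * R ≤ s (m + 2) + 1 := by
    refine le_trans ?_ b8
    calc _ = 64 / (a * c) * (m + 1) ^ 2 * R * (a * c / 2) := by field_simp; ring
      _ ≤ _ := by gcongr
  push_cast
  rw [pow_add, ← hR]
  nlinarith [mul_nonneg m0 (sub_nonneg.2 R1), mul_nonneg m0 (mul_nonneg m0 (sub_nonneg.2 R1))]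

end Pool.Agent.MP_0f075e_lc.H37

end MrgPart2

-- marker of a merged file
example : 731051 + 153484 = 731051 + 153484 := rfl
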